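import Pool.Agent.KS6_47.Vis.Count

/-!
# Asymptotics
-/

set_option autoImplicit false

namespace Pool.Agent.KS6_47.VG

open Pool.Agent.KS6_47.Vis Set Filter

theorem tend_log : Tendsto (fun n : ℕ => Real.logb 2 (n : ℝ)) atTop atTop :=
  (Real.tendsto_logb_atTop (by norm_num)).comp tendsto_natCast_atTop_atTop

theorem logb_le_self {n : ℕ} (hn : 1 ≤ n) : Real.logb 2 (n : ℝ) ≤ n := by
  have h1 : (0 : ℝ) < n := by exact_mod_cast hn
  rw [Real.logb_le_iff_le_rpow (by norm_num) h1, Real.rpow_natCast]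
  exact_mod_cast Nat.lt_two_pow_self.le

theorem lower_log (c : ℝ) (hc : c < 2) : ∀ᶠ n : ℕ in atTop,
    c * (n * Real.logb 2 n) ≤ Real.logb 2 (NGP n) := by
  obtain ⟨s, hs⟩ : ∃ s : ℕ, 5 / (2 - c) + 2 < s := exists_nat_gt _
  have h2c : 0 < 2 - c := by linarith
  have h5c : 0 < 5 / (2 - c) := by positivity
  have hs2 : 2 ≤ s := by
    have : (2 : ℝ) < s := by linarith
    have : 2 < s := by exact_mod_cast this
    omega
  have hs2' : (2 : ℝ) ≤ s := by exact_mod_cast hs2
  set S : ℝ := (s : ℝ) with hS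
  set κ : ℝ := Real.logb 2 (8 * S ^ 2) with hκ
  set a : ℝ := (1 - 1 / S) / (S + 1) with ha
  have hS0 : 0 < S := by linarith
  have hinv : 1 / S ≤ 1 / 2 := one_div_le_one_div_of_le (by norm_num) hs2'
  have ha0 : 0 < a := by
    rw [ha]
    apply div_pos <;> linarith
  have haS : c < a * (2 * S - 1) := by
    have e1 : a * (2 * S - 1) = 2 - (5 * S - 1) / (S * (S + 1)) := by
      rw [ha]; field_simp; ring
    have e2 : (5 * S - 1) / (S * (S + 1)) ≤ 5 / S := by
      rw [div_le_div_iff₀ (by positivity) hS0]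
      nlinarith
    have e3 : 5 / S < 2 - c := by
      rw [div_lt_iff₀ hS0]
      have : 5 < (2 - c) * S := by
        have h1 : 5 / (2 - c) < S := by linarith
        rw [div_lt_iff₀ h2c] at h1
        linarith
      linarith
    rw [e1]; linarith
  set δ : ℝ := a * (2 * S - 1) - c with hδ
  have hδ0 : 0 < δ := by linarith
  have hκ0 : 0 ≤ κ := by
    apply Real.logb_nonneg (by norm_num)
    nlinarith
  set D : ℝ := 2 * S * κ * a + 3 + 4 * S with hD
  filter_upwards [eventually_ge_atTop (8 * s * s), eventually_ge_atTop 2,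
    tend_log.eventually_ge_atTop (D / δ), tend_log.eventually_ge_atTop (2 * S * κ)] with
    n hn1 hn2 hx1 hx2
  set x : ℝ := Real.logb 2 (n : ℝ) with hx
  have hnpos : (0 : ℝ) < n := by
    have : 0 < n := by omega
    exact_mod_cast this
  set m : ℕ := n / (4 * s * s) with hm
  have hss : 0 < 4 * s * s := by positivity
  have hm1 : 1 ≤ m := by
    rw [hm, Nat.le_div_iff_mul_le hss]
    nlinarith
  have hmle : 4 * s * s * m ≤ n := by rw [mul_comm]; exact Nat.div_mul_le_self _ _
  have hmgt : n < 4 * s * s * m + 4 * s * s := by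
    have := Nat.lt_div_mul_add (a := n) hss
    rw [mul_comm] at this
    exact this
  have h4 : 4 * (s * m) + 1 ≤ n := by
    have e1 : 2 * (4 * (s * m)) ≤ 4 * s * s * m := by
      have : 2 * (4 * (s * m)) ≤ s * (4 * (s * m)) := Nat.mul_le_mul_right _ hs2
      calc 2 * (4 * (s * m)) ≤ s * (4 * (s * m)) := this
        _ = 4 * s * s * m := by ring
    have e2 : 1 ≤ s * m := Nat.mul_pos (by omega) hm1
    omega
  obtain ⟨p, g, hg, hpg⟩ : ∃ p g, g < s + 1 ∧ n = p * (s + 1) + 4 * (s * m) + g + 1 := by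
    refine ⟨(n - 1 - 4 * (s * m)) / (s + 1), (n - 1 - 4 * (s * m)) % (s + 1),
      Nat.mod_lt _ (Nat.succ_pos _), ?_⟩
    have := Nat.div_add_mod (n - 1 - 4 * (s * m)) (s + 1)
    rw [mul_comm] at this
    omega
  have key := lower_count p s m g (by omega) hm1
  rw [← hpg] at key
  have hN : 0 < NGP n := by
    rcases Nat.eq_zero_or_pos (NGP n) with h0 | h0
    · rw [h0, zero_mul] at key
      have : 0 < m ^ (2 * s * p) := by positivity
      omega
    · exact h0
  have hNpos : (0 : ℝ) < NGP n := by exact_mod_cast hN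
  have hmpos : (0 : ℝ) < m := by exact_mod_cast hm1
  have key' : (m : ℝ) ^ (2 * s * p) ≤ NGP n * ((n : ℝ) ^ (p + 1) * 8 ^ n) := by exact_mod_cast key
  have hlog := Real.logb_le_logb_of_le (b := 2) (by norm_num) (by positivity) key'
  rw [Real.logb_pow, Real.logb_mul hNpos.ne' (by positivity), Real.logb_mul (by positivity)
    (by positivity), Real.logb_pow, Real.logb_pow] at hlog
  have h8 : Real.logb 2 8 = 3 := by
    rw [show (8 : ℝ) = 2 ^ (3 : ℕ) by norm_num, Real.logb_pow, Real.logb_self_eq_one (by norm_num)]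
    norm_num
  rw [h8, ← hx] at hlog
  push_cast at hlog
  rw [← hS] at hlog
  -- the logarithm of `m`
  have hmr : (n : ℝ) / (8 * S ^ 2) ≤ m := by
    rw [div_le_iff₀ (by positivity)]
    have h1 : (n : ℝ) < 4 * S * S * m + 4 * S * S := by rw [hS]; exact_mod_cast hmgt
    have h2 : 8 * S * S ≤ (n : ℝ) := by rw [hS]; exact_mod_cast hn1
    nlinarith
  have hlm : x - κ ≤ Real.logb 2 (m : ℝ) := by
    have h1 := Real.logb_le_logb_of_le (b := 2) (by norm_num) (by positivity) hmr
    rw [Real.logb_div hnpos.ne' (by positivity)] at h1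
    exact h1
  -- the number of pockets
  have hpr : a * n - 2 ≤ p := by
    have h1 : (n : ℝ) = p * (S + 1) + 4 * (S * m) + g + 1 := by rw [hS]; exact_mod_cast hpg
    have h2 : (g : ℝ) + 1 ≤ S + 1 := by rw [hS]; exact_mod_cast hg
    have h3 : 4 * S * S * m ≤ (n : ℝ) := by rw [hS]; exact_mod_cast hmle
    have h4 : 4 * (S * m) ≤ n / S := by
      rw [le_div_iff₀ hS0]; nlinarith
    have h5 : a * n * (S + 1) = n - n / S := by
      rw [ha]; field_simp
    have h6 : (a * n - 2) * (S + 1) ≤ p * (S + 1) := by nlinarith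
    exact le_of_mul_le_mul_right h6 (by linarith)
  have hp0 : (0 : ℝ) ≤ p := Nat.cast_nonneg _
  have hxn : x ≤ n := logb_le_self (by omega)
  have hx0 : 0 ≤ x := Real.logb_nonneg (by norm_num) (by
    have : 1 ≤ n := by omega
    exact_mod_cast this)
  -- conclusion
  have k1 : 2 * S * p * (x - κ) ≤ 2 * S * p * Real.logb 2 (m : ℝ) :=
    mul_le_mul_of_nonneg_left hlm (by positivity)
  have k2 : p * ((2 * S - 1) * x - 2 * S * κ) - x - 3 * n ≤ Real.logb 2 (NGP n) := by
    have e : p * ((2 * S - 1) * x - 2 * S * κ) - x - 3 * n =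
        2 * S * p * (x - κ) - ((p + 1) * x + n * 3) := by ring
    linarith
  have k3 : 0 ≤ (2 * S - 1) * x - 2 * S * κ := by nlinarith
  have k4 : (a * n - 2) * ((2 * S - 1) * x - 2 * S * κ) ≤ p * ((2 * S - 1) * x - 2 * S * κ) :=
    mul_le_mul_of_nonneg_right hpr k3
  have k5 : D ≤ δ * x := by
    rw [div_le_iff₀ hδ0] at hx1
    linarith
  have k6 : D * n ≤ δ * x * n := mul_le_mul_of_nonneg_right k5 hnpos.le
  have k7 : (4 * S - 1) * x ≤ (4 * S) * n := by nlinarith
  have k8 : 0 ≤ 4 * S * κ := by positivity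
  have k9 : c * (n * x) = a * (2 * S - 1) * (n * x) - δ * x * n := by rw [hδ]; ring
  have k10 : (a * n - 2) * ((2 * S - 1) * x - 2 * S * κ) = a * (2 * S - 1) * (n * x) -
      2 * S * κ * a * n - 2 * (2 * S - 1) * x + 4 * S * κ := by ring
  have k11 : D * n = 2 * S * κ * a * n + 3 * n + 4 * S * n := by rw [hD]; ring
  rw [k9]
  linarith

theorem upper_log (C : ℝ) (hC : 4 < C) : ∀ᶠ n : ℕ in atTop,
    Real.logb 2 (N n) ≤ C * (n * Real.logb 2 n) := by
  filter_upwards [eventually_ge_atTop 1, tend_log.eventually_ge_atTop (17 / (C - 4))] with n hn hx1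
  set x : ℝ := Real.logb 2 (n : ℝ) with hx
  have hn1 : (1 : ℝ) ≤ n := by exact_mod_cast hn
  have hx0 : 0 ≤ x := Real.logb_nonneg (by norm_num) hn1
  rcases Nat.eq_zero_or_pos (N n) with h0 | h0
  · rw [h0]
    simp only [Nat.cast_zero, Real.logb_zero]
    have : 0 ≤ (n : ℝ) * x := by positivity
    nlinarith
  · have hNpos : (0 : ℝ) < N n := by exact_mod_cast h0
    have h1 : (N n : ℝ) ≤ 2 * (11 * n) ^ (4 * n) := by exact_mod_cast N_upper n
    have h2 := Real.logb_le_logb_of_le (b := 2) (by norm_num) hNpos h1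
    rw [Real.logb_mul (by norm_num) (by positivity), Real.logb_pow,
      Real.logb_mul (by norm_num) (by positivity), Real.logb_self_eq_one (by norm_num),
      ← hx] at h2
    have h11 : Real.logb 2 11 ≤ 4 := by
      rw [Real.logb_le_iff_le_rpow (by norm_num) (by norm_num)]
      norm_num
    rw [div_le_iff₀ (by linarith)] at hx1
    have h3 : 17 * (n : ℝ) ≤ x * (C - 4) * n := mul_le_mul_of_nonneg_right hx1 (by linarith)
    push_cast at h2
    nlinarith

theorem theta_of {f : ℕ → ℕ} (h1 : ∀ᶠ n : ℕ in atTop, (1 : ℝ) * (n * Real.logb 2 n) ≤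
    Real.logb 2 (f n)) (h2 : ∀ᶠ n : ℕ in atTop, Real.logb 2 (f n) ≤ 5 * (n * Real.logb 2 n)) :
    (fun n : ℕ => Real.logb 2 (f n)) =Θ[atTop] fun n : ℕ => (n : ℝ) * Real.logb 2 n := by
  constructor
  · apply Asymptotics.IsBigO.of_bound 5
    filter_upwards [h1, h2, eventually_ge_atTop 1] with n a b hn
    have hn1 : (1 : ℝ) ≤ n := by exact_mod_cast hn
    have hx0 : 0 ≤ Real.logb 2 (n : ℝ) := Real.logb_nonneg (by norm_num) hn1
    have h0 : 0 ≤ (n : ℝ) * Real.logb 2 n := by positivity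
    rw [Real.norm_of_nonneg (by linarith), Real.norm_of_nonneg h0]
    exact b
  · apply Asymptotics.IsBigO.of_bound 1
    filter_upwards [h1, h2, eventually_ge_atTop 1] with n a b hn
    have hn1 : (1 : ℝ) ≤ n := by exact_mod_cast hn
    have hx0 : 0 ≤ Real.logb 2 (n : ℝ) := Real.logb_nonneg (by norm_num) hn1
    have h0 : 0 ≤ (n : ℝ) * Real.logb 2 n := by positivity
    rw [Real.norm_of_nonneg h0, Real.norm_of_nonneg (by linarith)]
    linarith

theorem NGP_log_le (n : ℕ) : Real.logb 2 (NGP n) ≤ Real.logb 2 (N n) := by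
  rcases Nat.eq_zero_or_pos (NGP n) with h0 | h0
  · rw [h0]
    simp only [Nat.cast_zero, Real.logb_zero]
    rcases Nat.eq_zero_or_pos (N n) with h1 | h1
    · rw [h1]; simp
    · apply Real.logb_nonneg (by norm_num)
      exact_mod_cast h1
  · apply Real.logb_le_logb_of_le (by norm_num) (by exact_mod_cast h0)
    exact_mod_cast NGP_le_N n

end Pool.Agent.KS6_47.VG
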