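import Pool.Agent.KS6_47.Vis.Mono

/-!
# Polygons between two piecewise linear graphs given by their vertices
-/

set_option autoImplicit false

namespace Pool.Agent.KS6_47.VG

open Pool.Agent.KS6_47.Vis Set

/-- height at `x` of the line through `A` and `B` -/
noncomputable def lineH (A B : ℝ × ℝ) (x : ℝ) : ℝ := A.2 + (B.2 - A.2) / (B.1 - A.1) * (x - A.1)

theorem lineH_left (A B : ℝ × ℝ) : lineH A B A.1 = A.2 := by simp [lineH]

theorem lineH_right {A B : ℝ × ℝ} (h : A.1 < B.1) : lineH A B B.1 = B.2 := by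
  unfold lineH
  rw [div_mul_cancel₀ _ (by linarith : B.1 - A.1 ≠ 0).symm.symm]; ring

theorem segment_eq_graph {A B : ℝ × ℝ} (h : A.1 < B.1) :
    segment ℝ A B = {p | A.1 ≤ p.1 ∧ p.1 ≤ B.1 ∧ p.2 = lineH A B p.1} := by
  have h0 : B.1 - A.1 ≠ 0 := by linarith
  have h1 : 0 < B.1 - A.1 := by linarith
  rw [segment_eq_image]
  ext ⟨x, y⟩
  simp only [mem_image, mem_Icc, mem_setOf_eq]
  constructor
  · rintro ⟨t, ⟨ht0, ht1⟩, h2⟩
    have hx : (1 - t) * A.1 + t * B.1 = x := by simpa using congrArg Prod.fst h2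
    have hy : (1 - t) * A.2 + t * B.2 = y := by simpa using congrArg Prod.snd h2
    refine ⟨by nlinarith, by nlinarith, ?_⟩
    unfold lineH
    rw [← hx, ← hy]
    field_simp
    ring
  · rintro ⟨h2, h3, h4⟩
    refine ⟨(x - A.1) / (B.1 - A.1), ⟨div_nonneg (by linarith) h1.le, by
      rw [div_le_one h1]; linarith⟩, ?_⟩
    ext
    · simp only [Prod.fst_add, Prod.smul_fst, smul_eq_mul]
      field_simp
      ring
    · simp only [Prod.snd_add, Prod.smul_snd, smul_eq_mul]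
      rw [h4]; unfold lineH
      field_simp
      ring

/-- affine functions: inequality at the endpoints gives inequality inside -/
theorem affine_le {p s q p' s' q' u v x : ℝ} (hu : u ≤ x) (hv : x ≤ v) (huv : u < v)
    (h1 : p + s * (u - q) ≤ p' + s' * (u - q')) (h2 : p + s * (v - q) ≤ p' + s' * (v - q')) :
    p + s * (x - q) ≤ p' + s' * (x - q') := by
  have e1 := mul_le_mul_of_nonneg_right h1 (by linarith : 0 ≤ v - x)
  have e2 := mul_le_mul_of_nonneg_right h2 (by linarith : 0 ≤ x - u)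
  have h3 : 0 < v - u := by linarith
  by_contra hc
  push Not at hc
  have e3 := mul_lt_mul_of_pos_right hc h3
  nlinarith

theorem affine_lt {p s q p' s' q' u v x : ℝ} (hu : u ≤ x) (hv : x ≤ v) (huv : u < v)
    (h1 : p + s * (u - q) ≤ p' + s' * (u - q')) (h2 : p + s * (v - q) ≤ p' + s' * (v - q'))
    (h3 : (x < v ∧ p + s * (u - q) < p' + s' * (u - q')) ∨
      (u < x ∧ p + s * (v - q) < p' + s' * (v - q'))) :
    p + s * (x - q) < p' + s' * (x - q') := by
  have h5 : 0 < v - u := by linarith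
  by_contra hc
  push Not at hc
  have e3 := mul_le_mul_of_nonneg_right hc h5.le
  rcases h3 with ⟨h4, h3⟩ | ⟨h4, h3⟩
  · have e1 := mul_lt_mul_of_pos_right h3 (by linarith : 0 < v - x)
    have e2 := mul_le_mul_of_nonneg_right h2 (by linarith : 0 ≤ x - u)
    nlinarith
  · have e1 := mul_le_mul_of_nonneg_right h1 (by linarith : 0 ≤ v - x)
    have e2 := mul_lt_mul_of_pos_right h3 (by linarith : 0 < x - u)
    nlinarith

/-- slope of the `i`-th piece -/
noncomputable def slp (w : ℕ → ℝ × ℝ) (i : ℕ) : ℝ :=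
  ((w (i + 1)).2 - (w i).2) / ((w (i + 1)).1 - (w i).1)

/-- The piecewise linear function with graph through `w 0, …, w M`. -/
noncomputable def pl (w : ℕ → ℝ × ℝ) (M : ℕ) (x : ℝ) : ℝ :=
  (w 0).2 + ∑ i ∈ Finset.range M, slp w i * max 0 (min (x - (w i).1) ((w (i + 1)).1 - (w i).1))

theorem continuous_pl (w : ℕ → ℝ × ℝ) (M : ℕ) : Continuous (pl w M) := by
  unfold pl
  fun_prop

section
variable {w : ℕ → ℝ × ℝ} {M : ℕ}

theorem mono_of (hx : ∀ i, i < M → (w i).1 < (w (i + 1)).1) {i j : ℕ} (hij : i ≤ j) (hj : j ≤ M) :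
    (w i).1 ≤ (w j).1 := by
  induction j, hij using Nat.le_induction with
  | base => exact le_refl _
  | succ j hij ih => exact (ih (by omega)).trans (hx j (by omega)).le

theorem smono_of (hx : ∀ i, i < M → (w i).1 < (w (i + 1)).1) {i j : ℕ} (hij : i < j) (hj : j ≤ M) :
    (w i).1 < (w j).1 :=
  lt_of_lt_of_le (hx i (by omega)) (mono_of hx hij hj)

theorem pl_on_piece (hx : ∀ i, i < M → (w i).1 < (w (i + 1)).1) {i : ℕ} (hi : i < M) {x : ℝ}
    (h1 : (w i).1 ≤ x) (h2 : x ≤ (w (i + 1)).1) :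
    pl w M x = (w i).2 + slp w i * (x - (w i).1) := by
  have key1 : ∀ j, j ≤ i →
      ∑ k ∈ Finset.range j, slp w k * max 0 (min (x - (w k).1) ((w (k + 1)).1 - (w k).1))
        = (w j).2 - (w 0).2 := by
    intro j
    induction j with
    | zero => intro _; simp
    | succ j ih =>
      intro hj
      rw [Finset.sum_range_succ, ih (by omega)]
      have h3 := hx j (by omega)
      have h4 : (w (j + 1)).1 ≤ x := (mono_of hx hj (by omega)).trans h1
      rw [min_eq_right (by linarith), max_eq_right (by linarith)]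
      unfold slp
      rw [div_mul_cancel₀ _ (by linarith : (w (j + 1)).1 - (w j).1 ≠ 0).symm.symm]
      ring
  have key2 : ∀ j, i + 1 ≤ j → j ≤ M →
      ∑ k ∈ Finset.range j, slp w k * max 0 (min (x - (w k).1) ((w (k + 1)).1 - (w k).1))
        = (w i).2 - (w 0).2 + slp w i * (x - (w i).1) := by
    intro j hj
    induction j, hj using Nat.le_induction with
    | base =>
      intro _
      rw [Finset.sum_range_succ, key1 i le_rfl, min_eq_left (by linarith),
        max_eq_right (by linarith)]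
    | succ j hj ih =>
      intro hjM
      rw [Finset.sum_range_succ, ih (by omega)]
      have h4 : x ≤ (w j).1 := h2.trans (mono_of hx hj (by omega))
      have h5 : min (x - (w j).1) ((w (j + 1)).1 - (w j).1) ≤ 0 :=
        (min_le_left _ _).trans (by linarith)
      rw [max_eq_left h5]; ring
  unfold pl
  rw [key2 M hi le_rfl]; ring

theorem pl_vertex (hM : 0 < M) (hx : ∀ i, i < M → (w i).1 < (w (i + 1)).1) {i : ℕ} (hi : i ≤ M) :
    pl w M (w i).1 = (w i).2 := by
  rcases Nat.lt_or_ge i M with h | h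
  · rw [pl_on_piece hx h le_rfl (hx i h).le]; ring
  · have : i = M := le_antisymm hi h
    subst this
    obtain ⟨j, rfl⟩ : ∃ j, i = j + 1 := ⟨i - 1, by omega⟩
    have h3 := hx j (by omega)
    rw [pl_on_piece hx (Nat.lt_succ_self j) h3.le le_rfl]
    unfold slp
    rw [div_mul_cancel₀ _ (by linarith : (w (j + 1)).1 - (w j).1 ≠ 0).symm.symm]
    ring

theorem exists_piece {a b : ℕ} (hab : a < b) {x : ℝ} (h1 : (w a).1 ≤ x) (h2 : x ≤ (w b).1) :
    ∃ i, a ≤ i ∧ i < b ∧ (w i).1 ≤ x ∧ x ≤ (w (i + 1)).1 := by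
  induction b, (show a + 1 ≤ b from hab) using Nat.le_induction with
  | base => exact ⟨a, le_rfl, Nat.lt_succ_self a, h1, h2⟩
  | succ b hb ih =>
    rcases le_total x (w b).1 with h | h
    · obtain ⟨i, hi1, hi2, hi3⟩ := ih (by omega) h
      exact ⟨i, hi1, by omega, hi3⟩
    · exact ⟨b, by omega, Nat.lt_succ_self b, h, h2⟩

theorem pl_lt_const (hx : ∀ i, i < M → (w i).1 < (w (i + 1)).1) (hM : 0 < M) {h : ℝ}
    (hh : ∀ i, i ≤ M → (w i).2 < h) {x : ℝ} (h1 : (w 0).1 ≤ x) (h2 : x ≤ (w M).1) :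
    pl w M x < h := by
  obtain ⟨i, -, hi, h3, h4⟩ := exists_piece (w := w) hM h1 h2
  rw [pl_on_piece hx hi h3 h4]
  have h5 := hh i hi.le
  have h6 := hh (i + 1) hi
  have h7 := hx i hi
  have h8 : (w i).2 + slp w i * ((w (i + 1)).1 - (w i).1) = (w (i + 1)).2 := by
    unfold slp
    rw [div_mul_cancel₀ _ (by linarith : (w (i + 1)).1 - (w i).1 ≠ 0).symm.symm]; ring
  have h9 : h = h + 0 * (x - 0) := by ring
  rw [h9]
  apply affine_lt h3 h4 h7
  · have : (w i).2 + slp w i * ((w i).1 - (w i).1) = (w i).2 := by ring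
    rw [this]; linarith
  · rw [h8]; linarith
  · rcases eq_or_lt_of_le h4 with h | h
    · right
      refine ⟨by rw [h]; exact h7, ?_⟩
      rw [h8]; linarith
    · left
      refine ⟨h, ?_⟩
      have : (w i).2 + slp w i * ((w i).1 - (w i).1) = (w i).2 := by ring
      rw [this]; linarith

theorem const_lt_pl (hx : ∀ i, i < M → (w i).1 < (w (i + 1)).1) (hM : 0 < M) {h : ℝ}
    (hh : ∀ i, i ≤ M → h < (w i).2) {x : ℝ} (h1 : (w 0).1 ≤ x) (h2 : x ≤ (w M).1) :
    h < pl w M x := by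
  obtain ⟨i, -, hi, h3, h4⟩ := exists_piece (w := w) hM h1 h2
  rw [pl_on_piece hx hi h3 h4]
  have h5 := hh i hi.le
  have h6 := hh (i + 1) hi
  have h7 := hx i hi
  have h8 : (w i).2 + slp w i * ((w (i + 1)).1 - (w i).1) = (w (i + 1)).2 := by
    unfold slp
    rw [div_mul_cancel₀ _ (by linarith : (w (i + 1)).1 - (w i).1 ≠ 0).symm.symm]; ring
  have h9 : h = h + 0 * (x - 0) := by ring
  rw [h9]
  apply affine_lt h3 h4 h7
  · have : (w i).2 + slp w i * ((w i).1 - (w i).1) = (w i).2 := by ring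
    rw [this]; linarith
  · rw [h8]; linarith
  · rcases eq_or_lt_of_le h4 with h | h
    · right
      refine ⟨by rw [h]; exact h7, ?_⟩
      rw [h8]; linarith
    · left
      refine ⟨h, ?_⟩
      have : (w i).2 + slp w i * ((w i).1 - (w i).1) = (w i).2 := by ring
      rw [this]; linarith

/-- `pl` lies below a line on an interval if it does so at the ends and at the vertices in the
interior of the interval -/
theorem pl_le_line (hx : ∀ i, i < M → (w i).1 < (w (i + 1)).1) (hM : 0 < M) {A B : ℝ × ℝ}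
    (hA0 : (w 0).1 ≤ A.1) (hBM : B.1 ≤ (w M).1) (hAB : A.1 < B.1)
    (hA : pl w M A.1 ≤ A.2) (hB : pl w M B.1 ≤ B.2)
    (hk : ∀ k, k ≤ M → A.1 < (w k).1 → (w k).1 < B.1 → (w k).2 ≤ lineH A B (w k).1)
    {x : ℝ} (h1 : A.1 ≤ x) (h2 : x ≤ B.1) : pl w M x ≤ lineH A B x := by
  rcases eq_or_lt_of_le h1 with h | h1'
  · subst h; rw [lineH_left]; exact hA
  rcases eq_or_lt_of_le h2 with h | h2'
  · subst h; rw [lineH_right hAB]; exact hB
  obtain ⟨i, -, hi, h3, h4⟩ := exists_piece (w := w) hM (hA0.trans h1) (h2.trans hBM)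
  have h7 := hx i hi
  set u := max A.1 (w i).1 with hu
  set v := min B.1 (w (i + 1)).1 with hv
  have hux : u ≤ x := max_le h1 h3
  have hxv : x ≤ v := le_min h2 h4
  have huv : u < v := by
    rw [hu, hv]
    exact max_lt (lt_min hAB (lt_of_lt_of_le h1' h4)) (lt_min (lt_of_le_of_lt h3 h2') h7)
  have e1 : ∀ y, (w i).1 ≤ y → y ≤ (w (i + 1)).1 → pl w M y = (w i).2 + slp w i * (y - (w i).1) :=
    fun y a b => pl_on_piece hx hi a b
  have hub : u ≤ (w (i + 1)).1 := huv.le.trans (min_le_right _ _)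
  have hva : (w i).1 ≤ v := (le_max_right _ _).trans huv.le
  have ku : pl w M u ≤ lineH A B u := by
    rcases le_total A.1 (w i).1 with h | h
    · have e : u = (w i).1 := max_eq_right h
      rw [e]
      rcases eq_or_lt_of_le h with h' | h'
      · rw [← h', lineH_left]; exact hA
      · rw [pl_vertex hM hx hi.le]
        exact hk i hi.le h' (lt_of_le_of_lt h3 h2')
    · have e : u = A.1 := max_eq_left h
      rw [e, lineH_left]; exact hA
  have kv : pl w M v ≤ lineH A B v := by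
    rcases le_total B.1 (w (i + 1)).1 with h | h
    · have e : v = B.1 := min_eq_left h
      rw [e, lineH_right hAB]; exact hB
    · have e : v = (w (i + 1)).1 := min_eq_right h
      rw [e]
      rcases eq_or_lt_of_le h with h' | h'
      · rw [h', lineH_right hAB]; exact hB
      · rw [pl_vertex hM hx hi]
        exact hk (i + 1) hi (lt_of_lt_of_le h1' h4) h'
  rw [e1 u (le_max_right _ _) hub] at ku
  rw [e1 v hva (min_le_right _ _)] at kv
  rw [e1 x h3 h4]
  exact affine_le hux hxv huv ku kv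

theorem line_le_pl (hx : ∀ i, i < M → (w i).1 < (w (i + 1)).1) (hM : 0 < M) {A B : ℝ × ℝ}
    (hA0 : (w 0).1 ≤ A.1) (hBM : B.1 ≤ (w M).1) (hAB : A.1 < B.1)
    (hA : A.2 ≤ pl w M A.1) (hB : B.2 ≤ pl w M B.1)
    (hk : ∀ k, k ≤ M → A.1 < (w k).1 → (w k).1 < B.1 → lineH A B (w k).1 ≤ (w k).2)
    {x : ℝ} (h1 : A.1 ≤ x) (h2 : x ≤ B.1) : lineH A B x ≤ pl w M x := by
  rcases eq_or_lt_of_le h1 with h | h1'
  · subst h; rw [lineH_left]; exact hA
  rcases eq_or_lt_of_le h2 with h | h2'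
  · subst h; rw [lineH_right hAB]; exact hB
  obtain ⟨i, -, hi, h3, h4⟩ := exists_piece (w := w) hM (hA0.trans h1) (h2.trans hBM)
  have h7 := hx i hi
  set u := max A.1 (w i).1 with hu
  set v := min B.1 (w (i + 1)).1 with hv
  have hux : u ≤ x := max_le h1 h3
  have hxv : x ≤ v := le_min h2 h4
  have huv : u < v := by
    rw [hu, hv]
    exact max_lt (lt_min hAB (lt_of_lt_of_le h1' h4)) (lt_min (lt_of_le_of_lt h3 h2') h7)
  have e1 : ∀ y, (w i).1 ≤ y → y ≤ (w (i + 1)).1 → pl w M y = (w i).2 + slp w i * (y - (w i).1) :=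
    fun y a b => pl_on_piece hx hi a b
  have hub : u ≤ (w (i + 1)).1 := huv.le.trans (min_le_right _ _)
  have hva : (w i).1 ≤ v := (le_max_right _ _).trans huv.le
  have ku : lineH A B u ≤ pl w M u := by
    rcases le_total A.1 (w i).1 with h | h
    · have e : u = (w i).1 := max_eq_right h
      rw [e]
      rcases eq_or_lt_of_le h with h' | h'
      · rw [← h', lineH_left]; exact hA
      · rw [pl_vertex hM hx hi.le]
        exact hk i hi.le h' (lt_of_le_of_lt h3 h2')
    · have e : u = A.1 := max_eq_left h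
      rw [e, lineH_left]; exact hA
  have kv : lineH A B v ≤ pl w M v := by
    rcases le_total B.1 (w (i + 1)).1 with h | h
    · have e : v = B.1 := min_eq_left h
      rw [e, lineH_right hAB]; exact hB
    · have e : v = (w (i + 1)).1 := min_eq_right h
      rw [e]
      rcases eq_or_lt_of_le h with h' | h'
      · rw [h', lineH_right hAB]; exact hB
      · rw [pl_vertex hM hx hi]
        exact hk (i + 1) hi (lt_of_lt_of_le h1' h4) h'
  rw [e1 u (le_max_right _ _) hub] at ku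
  rw [e1 v hva (min_le_right _ _)] at kv
  rw [e1 x h3 h4]
  exact affine_le hux hxv huv ku kv

end

/-- orientation determinant: for `A.1 < B.1` it is positive iff `C` is above the line `AB` -/
def dt (A B C : ℝ × ℝ) : ℝ := (B.1 - A.1) * (C.2 - A.2) - (C.1 - A.1) * (B.2 - A.2)

theorem le_lineH_of_dt {A B C : ℝ × ℝ} (h : A.1 < B.1) (hd : dt A B C < 0) :
    C.2 ≤ lineH A B C.1 := by
  unfold lineH
  unfold dt at hd
  have h0 : 0 < B.1 - A.1 := by linarith
  rw [← sub_le_iff_le_add', div_mul_eq_mul_div, le_div_iff₀ h0]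
  nlinarith

theorem lineH_lt_of_dt {A B C : ℝ × ℝ} (h : A.1 < B.1) (hd : 0 < dt A B C) :
    lineH A B C.1 < C.2 := by
  unfold lineH
  unfold dt at hd
  have h0 : 0 < B.1 - A.1 := by linarith
  rw [← lt_sub_iff_add_lt', div_mul_eq_mul_div, div_lt_iff₀ h0]
  nlinarith

/-- a polygon between the graphs of two piecewise linear functions, given by the vertices of these
graphs -/
structure Cfg where
  B : ℕ
  T : ℕ
  p : ℕ → ℝ × ℝ
  q : ℕ → ℝ × ℝ
  h : ℝ
  hB : 0 < B
  hT : 0 < T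
  hp : ∀ k, k < B → (p k).1 < (p (k + 1)).1
  hq : ∀ k, k < T → (q k).1 < (q (k + 1)).1
  h0 : (p 0).1 = (q 0).1
  h1 : (p B).1 = (q T).1
  sp : ∀ k, k ≤ B → (p k).2 < h
  sq : ∀ k, k ≤ T → h < (q k).2

namespace Cfg

variable (C : Cfg)

/-- the corresponding data -/
noncomputable def dat : Dat where
  L := pl C.p C.B
  U := pl C.q C.T
  B := C.B
  T := C.T
  b := fun k => (C.p k).1
  c := fun k => (C.q (C.T - k)).1
  hL := continuous_pl _ _
  hU := continuous_pl _ _
  hB := C.hB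
  hT := C.hT
  hb := C.hp
  hc := by
    intro k hk
    have h := C.hq (C.T - (k + 1)) (by omega)
    rwa [show C.T - (k + 1) + 1 = C.T - k by omega] at h
  h0 := by
    show (C.q (C.T - C.T)).1 = (C.p 0).1
    rw [Nat.sub_self, C.h0]
  h1 := by
    show (C.q (C.T - 0)).1 = (C.p C.B).1
    rw [Nat.sub_zero, C.h1]
  hLU := by
    intro x hx0 hx1
    refine (pl_lt_const C.hp C.hB C.sp hx0 hx1).trans (const_lt_pl C.hq C.hT C.sq ?_ ?_)
    · rw [← C.h0]; exact hx0
    · rw [← C.h1]; exact hx1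
  affL := by
    intro k hk
    refine ⟨slp C.p k, (C.p k).2 - slp C.p k * (C.p k).1, fun x h1 h2 => ?_⟩
    rw [pl_on_piece C.hp hk h1 h2]; ring
  affU := by
    intro k hk
    have e : C.T - k = C.T - (k + 1) + 1 := by omega
    refine ⟨slp C.q (C.T - (k + 1)), (C.q (C.T - (k + 1))).2 -
      slp C.q (C.T - (k + 1)) * (C.q (C.T - (k + 1))).1, fun x h1 h2 => ?_⟩
    rw [pl_on_piece C.hq (i := C.T - (k + 1)) (by omega) h1 (by rw [← e]; exact h2)]; ring

/-- the vertices in boundary order -/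
def w (k : ℕ) : ℝ × ℝ := if k ≤ C.B then C.p k else C.q (C.B + 1 + C.T - k)

theorem w_bot {k : ℕ} (hk : k ≤ C.B) : C.w k = C.p k := if_pos hk

theorem w_top {k : ℕ} (hk : k ≤ C.T) : C.w (C.B + 1 + C.T - k) = C.q k := by
  unfold w
  rw [if_neg (by omega)]
  congr 1
  omega

/-- the polygon -/
noncomputable def P : Set (ℝ × ℝ) := C.dat.P

theorem mem_P {z : ℝ × ℝ} : z ∈ C.P ↔
    (C.p 0).1 ≤ z.1 ∧ z.1 ≤ (C.p C.B).1 ∧ pl C.p C.B z.1 ≤ z.2 ∧ z.2 ≤ pl C.q C.T z.1 := Iff.rfl

theorem isSimplePolygon : IsSimplePolygon (fun i : Fin (C.B + C.T + 2) => C.w i) C.P := by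
  have h := C.dat.isSimplePolygon
  have e : C.dat.v = (fun i : Fin (C.B + C.T + 2) => C.w i) := by
    funext i
    have hi : (i : ℕ) < C.B + C.T + 2 := i.2
    show C.dat.vtx i = C.w i
    by_cases hk : (i : ℕ) ≤ C.B
    · rw [C.dat.vtx_bot hk, w_bot C hk]
      show ((C.p i).1, pl C.p C.B (C.p i).1) = C.p i
      rw [pl_vertex C.hB C.hp hk]
    · obtain ⟨k, hk'⟩ : ∃ k, (i : ℕ) = C.B + 1 + k := ⟨i - (C.B + 1), by omega⟩
      have h1 : C.dat.vtx i = (C.dat.c k, C.dat.U (C.dat.c k)) := by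
        rw [hk']; exact C.dat.vtx_top k
      rw [h1, hk', show C.B + 1 + k = C.B + 1 + C.T - (C.T - k) by omega, w_top C (by omega)]
      show ((C.q (C.T - k)).1, pl C.q C.T (C.q (C.T - k)).1) = C.q (C.T - k)
      rw [pl_vertex C.hT C.hq (by omega)]
  rw [← e]
  exact h

theorem p_mem {k : ℕ} (hk : k ≤ C.B) : C.p k ∈ C.P := by
  rw [mem_P, pl_vertex C.hB C.hp hk]
  have a := mono_of C.hp (Nat.zero_le k) hk
  have b := mono_of C.hp hk le_rfl
  exact ⟨a, b, le_rfl, ((C.sp k hk).trans (const_lt_pl C.hq C.hT C.sq (by rw [← C.h0]; exact a)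
    (by rw [← C.h1]; exact b))).le⟩

theorem q_mem {k : ℕ} (hk : k ≤ C.T) : C.q k ∈ C.P := by
  rw [mem_P, pl_vertex C.hT C.hq hk, C.h0, C.h1]
  have a := mono_of C.hq (Nat.zero_le k) hk
  have b := mono_of C.hq hk le_rfl
  exact ⟨a, b, ((pl_lt_const C.hp C.hB C.sp (by rw [C.h0]; exact a)
    (by rw [C.h1]; exact b)).trans (C.sq k hk)).le, le_rfl⟩

/-- a sufficient condition for visibility -/
theorem vis_of {A B : ℝ × ℝ} (hA : A ∈ C.P) (hB : B ∈ C.P) (hlt : A.1 < B.1)
    (h1 : ∀ k, k ≤ C.B → A.1 < (C.p k).1 → (C.p k).1 < B.1 → dt A B (C.p k) < 0)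
    (h2 : ∀ k, k ≤ C.T → A.1 < (C.q k).1 → (C.q k).1 < B.1 → 0 < dt A B (C.q k)) :
    segment ℝ A B ⊆ C.P := by
  rw [segment_eq_graph hlt]
  rw [mem_P] at hA hB
  rintro ⟨x, y⟩ ⟨h3, h4, h5⟩
  simp only at h3 h4 h5
  rw [mem_P]
  simp only
  refine ⟨hA.1.trans h3, h4.trans hB.2.1, ?_, ?_⟩
  · rw [h5]
    exact pl_le_line C.hp C.hB hA.1 hB.2.1 hlt hA.2.2.1 hB.2.2.1
      (fun k hk a b => le_lineH_of_dt hlt (h1 k hk a b)) h3 h4
  · rw [h5]
    exact line_le_pl C.hq C.hT (by rw [← C.h0]; exact hA.1) (by rw [← C.h1]; exact hB.2.1) hlt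
      hA.2.2.2 hB.2.2.2 (fun k hk a b => (lineH_lt_of_dt hlt (h2 k hk a b)).le) h3 h4

/-- a sufficient condition for invisibility -/
theorem not_vis_of {A B : ℝ × ℝ} (hlt : A.1 < B.1) {k : ℕ} (hk : k ≤ C.B)
    (h1 : A.1 < (C.p k).1) (h2 : (C.p k).1 < B.1) (h3 : 0 < dt A B (C.p k)) :
    ¬ segment ℝ A B ⊆ C.P := by
  intro h
  have h4 : ((C.p k).1, lineH A B (C.p k).1) ∈ segment ℝ A B := by
    rw [segment_eq_graph hlt]
    exact ⟨h1.le, h2.le, rfl⟩
  have h5 := h h4
  rw [mem_P] at h5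
  simp only at h5
  rw [pl_vertex C.hB C.hp hk] at h5
  have := lineH_lt_of_dt hlt h3
  linarith [h5.2.2.1]

end Cfg

end Pool.Agent.KS6_47.VG
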