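import Mathlib

set_option autoImplicit false
set_option linter.unusedSectionVars false

namespace Pool.Agent.KS6_47.Helper448.Warren

open MvPolynomial

variable {σ : Type*} [Fintype σ] [DecidableEq σ]

/-- evaluation of polynomials on a finite set of points -/
noncomputable def evZ (Z : Finset (σ → ℝ)) : MvPolynomial σ ℝ →ₗ[ℝ] (Z → ℝ) where
  toFun p := fun z => eval z.1 p
  map_add' := by intros; ext; simp
  map_smul' := by intros; ext; simp [smul_eval]

omit [Fintype σ] [DecidableEq σ] in
lemma evZ_apply (Z : Finset (σ → ℝ)) (p : MvPolynomial σ ℝ) (z : Z) :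
    evZ Z p z = eval z.1 p := rfl

omit [DecidableEq σ] in
lemma evZ_monomial_mem (D : ℕ) (c : ℝ) (hc : c ≠ 0) (r : σ → MvPolynomial σ ℝ)
    (hr : ∀ j, (r j).totalDegree < D) (Z : Finset (σ → ℝ))
    (hZ : ∀ z ∈ Z, ∀ j, c * (z j) ^ D + eval z (r j) = 0) :
    ∀ (N : ℕ) (a : σ →₀ ℕ), a.degree = N →
      evZ Z (monomial a 1) ∈ Submodule.span ℝ (Set.range
        (fun b : σ → Fin D => (fun z : Z => ∏ j, (z.1 j) ^ (b j : ℕ)))) := by
  intro N
  induction N using Nat.strong_induction_on with
  | _ N ih =>
    intro a ha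
    by_cases h : ∀ j, a j < D
    · apply Submodule.subset_span
      refine ⟨fun j => ⟨a j, h j⟩, ?_⟩
      ext z
      simp [evZ_apply, eval_monomial, Finsupp.prod_fintype]
    · push Not at h
      obtain ⟨j, hj⟩ := h
      set b := a - Finsupp.single j D with hb
      have hab : a = b + Finsupp.single j D := by
        rw [hb]
        exact (tsub_add_cancel_of_le (by
          rw [Finsupp.single_le_iff]; exact hj)).symm
      have hdeg : b.degree + D = N := by
        rw [← ha, hab, map_add, Finsupp.degree_single]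
      have h1 : evZ Z (monomial a 1) = (-(1/c)) • evZ Z (monomial b 1 * r j) := by
        ext z
        have hz := hZ z.1 z.2 j
        have hzD : (z.1 j) ^ D = -(1/c) * eval z.1 (r j) := by
          field_simp
          linarith
        have e1 : (monomial a (1:ℝ)) = monomial b 1 * (X j) ^ D := by
          rw [X_pow_eq_monomial, monomial_mul, one_mul, ← hab]
        simp only [Pi.smul_apply, evZ_apply, e1, map_mul, map_pow, eval_X, smul_eq_mul]
        rw [hzD]; ring
      rw [h1]
      apply Submodule.smul_mem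
      have h2 : (monomial b 1 * r j).totalDegree < N := by
        calc (monomial b 1 * r j).totalDegree
            ≤ (monomial b (1:ℝ)).totalDegree + (r j).totalDegree := totalDegree_mul _ _
          _ < b.degree + D := by
              have : (monomial b (1:ℝ)).totalDegree = b.degree := by
                rw [totalDegree_monomial _ one_ne_zero]; rfl
              rw [this]
              have := hr j
              omega
          _ = N := hdeg
      rw [MvPolynomial.as_sum (monomial b 1 * r j), map_sum]
      apply Submodule.sum_mem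
      intro m hm
      have hmN : m.degree < N := lt_of_le_of_lt (le_totalDegree hm) h2
      have h3 : monomial m (coeff m (monomial b 1 * r j))
          = (coeff m (monomial b 1 * r j)) • monomial m (1:ℝ) := by
        rw [smul_monomial, smul_eq_mul, mul_one]
      rw [h3, map_smul]
      exact Submodule.smul_mem _ _ (ih m.degree hmN m rfl)

lemma evZ_mem (D : ℕ) (c : ℝ) (hc : c ≠ 0) (r : σ → MvPolynomial σ ℝ)
    (hr : ∀ j, (r j).totalDegree < D) (Z : Finset (σ → ℝ))
    (hZ : ∀ z ∈ Z, ∀ j, c * (z j) ^ D + eval z (r j) = 0) (p : MvPolynomial σ ℝ) :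
      evZ Z p ∈ Submodule.span ℝ (Set.range
        (fun b : σ → Fin D => (fun z : Z => ∏ j, (z.1 j) ^ (b j : ℕ)))) := by
  rw [p.as_sum, map_sum]
  apply Submodule.sum_mem
  intro m _
  have h3 : monomial m (coeff m p) = (coeff m p) • monomial m (1:ℝ) := by
    rw [smul_monomial, smul_eq_mul, mul_one]
  rw [h3, map_smul]
  exact Submodule.smul_mem _ _ (evZ_monomial_mem D c hc r hr Z hZ m.degree m rfl)

omit [Fintype σ] [DecidableEq σ] in
lemma evZ_surjective (Z : Finset (σ → ℝ)) : Function.Surjective (evZ Z) := by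
  classical
  -- separating linear factors
  have sep : ∀ z w : σ → ℝ, ∃ p : MvPolynomial σ ℝ, z ≠ w → (eval z p = 1 ∧ eval w p = 0) := by
    intro z w
    by_cases hzw : z = w
    · exact ⟨0, fun h => absurd hzw h⟩
    · obtain ⟨j, hj⟩ := Function.ne_iff.mp hzw
      refine ⟨C (1 / (z j - w j)) * (X j - C (w j)), fun _ => ⟨?_, ?_⟩⟩
      · have : z j - w j ≠ 0 := sub_ne_zero.mpr hj
        simp only [map_mul, eval_C, map_sub, eval_X]
        field_simp
      · simp
  choose P hP using sep
  have ind : ∀ z ∈ Z, ∀ w ∈ Z, eval w (∏ u ∈ Z.erase z, P z u) = if w = z then 1 else 0 := by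
    intro z hz w hw
    rw [map_prod]
    split_ifs with hwz
    · subst hwz
      apply Finset.prod_eq_one
      intro u hu
      exact (hP w u (Finset.ne_of_mem_erase hu).symm).1
    · apply Finset.prod_eq_zero (Finset.mem_erase.mpr ⟨hwz, hw⟩)
      exact (hP z w (fun h => hwz h.symm)).2
  intro f
  refine ⟨∑ z ∈ Z.attach, C (f z) * ∏ u ∈ Z.erase z.1, P z.1 u, ?_⟩
  ext w
  rw [evZ_apply, map_sum]
  rw [Finset.sum_eq_single w]
  · rw [map_mul, ind w.1 w.2 w.1 w.2]; simp
  · intro z _ hzw
    rw [map_mul, ind z.1 z.2 w.1 w.2, if_neg (fun h => hzw (Subtype.ext h.symm))]; simp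
  · intro h; exact absurd (Finset.mem_attach _ _) h

/-- A system whose leading parts are pure powers has few zeros. -/
theorem card_zeros_le (D : ℕ) (c : ℝ) (hc : c ≠ 0) (r : σ → MvPolynomial σ ℝ)
    (hr : ∀ j, (r j).totalDegree < D) (Z : Finset (σ → ℝ))
    (hZ : ∀ z ∈ Z, ∀ j, c * (z j) ^ D + eval z (r j) = 0) :
    Z.card ≤ D ^ Fintype.card σ := by
  classical
  have htop : Submodule.span ℝ (Set.range
        (fun b : σ → Fin D => (fun z : Z => ∏ j, (z.1 j) ^ (b j : ℕ)))) = ⊤ := by
    rw [eq_top_iff]
    intro f _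
    obtain ⟨p, rfl⟩ := evZ_surjective Z f
    exact evZ_mem D c hc r hr Z hZ p
  have h1 := finrank_range_le_card (R := ℝ)
    (fun b : σ → Fin D => (fun z : Z => ∏ j, (z.1 j) ^ (b j : ℕ)))
  rw [Set.finrank, htop, finrank_top] at h1
  simpa using h1

/-- derivative along a coordinate -/
lemma hasDerivAt_eval (p : MvPolynomial σ ℝ) (z : σ → ℝ) (j : σ) :
    HasDerivAt (fun s => eval (Function.update z j s) p) (eval z (pderiv j p)) (z j) := by
  induction p using MvPolynomial.induction_on with
  | C a => simpa using hasDerivAt_const (z j) a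
  | add p q hp hq =>
    simp only [map_add]
    exact hp.add hq
  | mul_X p i hp =>
    have hX : HasDerivAt (fun s => Function.update z j s i) (if i = j then 1 else 0) (z j) := by
      by_cases hij : i = j
      · subst hij
        simp only [Function.update_self, if_true]
        exact hasDerivAt_id' (z i)
      · simpa [hij] using hasDerivAt_const (z j) (z i)
    have := hp.mul hX
    rw [Function.update_eq_self] at this
    have e1 : eval z (pderiv j (p * X i)) =
        eval z (pderiv j p) * z i + eval z p * (if i = j then 1 else 0) := by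
      rw [pderiv_mul, map_add, map_mul, map_mul, eval_X, pderiv_X, Pi.single_apply]
      by_cases hij : i = j
      · simp [hij]
      · simp [hij]
    have e2 : (fun s => eval (Function.update z j s) (p * X i)) =
        fun s => eval (Function.update z j s) p * Function.update z j s i := by
      ext s; simp
    rw [e1, e2]
    exact this

lemma pderiv_eq_zero_of_isLocalMax (p : MvPolynomial σ ℝ) (z : σ → ℝ)
    (h : IsLocalMax (fun x => eval x p) z) (j : σ) : eval z (pderiv j p) = 0 := by
  have h1 : IsLocalMax (fun s => eval (Function.update z j s) p) (z j) := by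
    have ht : Filter.Tendsto (fun s => Function.update z j s) (nhds (z j)) (nhds z) := by
      have : Continuous (fun s => Function.update z j s) :=
        continuous_const.update j continuous_id
      have h2 := this.tendsto (z j)
      simpa using h2
    have h3 := ht.eventually h
    simpa [IsLocalMax, IsMaxFilter] using h3
  exact h1.hasDerivAt_eq_zero (hasDerivAt_eval p z j)


omit [DecidableEq σ] in
lemma totalDegree_pderiv_lt (p : MvPolynomial σ ℝ) (D : ℕ) (hD : 0 < D)
    (hp : p.totalDegree ≤ D) (j : σ) : (pderiv j p).totalDegree < D := by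
  classical
  rw [totalDegree, Finset.sup_lt_iff hD]
  intro m hm
  rw [mem_support_iff, coeff_pderiv] at hm
  have h1 : m + Finsupp.single j 1 ∈ p.support := by
    rw [mem_support_iff]
    exact left_ne_zero_of_mul hm
  have h2 := le_totalDegree h1
  have h3 : ((m + Finsupp.single j 1).sum fun _ e => e) = (m.sum fun _ e => e) + 1 := by
    have : (m + Finsupp.single j 1).degree = m.degree + 1 := by
      rw [map_add, Finsupp.degree_single]
    exact this
  omega

/-- Points realising pairwise distinct strict sign patterns. -/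
theorem card_strict_le {ι : Type*} [Fintype ι] (f : ι → MvPolynomial σ ℝ) (d : ℕ)
    (hd : ∀ i, (f i).totalDegree ≤ d) (P : Finset (σ → ℝ))
    (hne : ∀ x ∈ P, ∀ i, eval x (f i) ≠ 0)
    (hinj : ∀ x ∈ P, ∀ y ∈ P, (∀ i, 0 < eval x (f i) * eval y (f i)) → x = y) :
    P.card ≤ (2 * Fintype.card ι * d + 2) ^ Fintype.card σ := by
  classical
  rcases P.eq_empty_or_nonempty with hP | hP
  · simp [hP]
  set D := 2 * Fintype.card ι * d + 2 with hD
  set R2 : ℝ := 1 + ∑ x ∈ P, ∑ j, (x j) ^ 2 with hR2
  have hR2_1 : 1 ≤ R2 := by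
    have : 0 ≤ ∑ x ∈ P, ∑ j, (x j) ^ 2 :=
      Finset.sum_nonneg fun x _ => Finset.sum_nonneg fun j _ => sq_nonneg _
    linarith
  have hR2_x : ∀ x ∈ P, ∑ j, (x j) ^ 2 < R2 := by
    intro x hx
    have := Finset.single_le_sum (f := fun x : σ → ℝ => ∑ j, (x j) ^ 2)
      (fun x _ => Finset.sum_nonneg fun j _ => sq_nonneg _) hx
    linarith
  set g : MvPolynomial σ ℝ := (C R2 - ∑ j, X j ^ 2) * ∏ i, (f i) ^ 2 with hg
  have hgdeg : g.totalDegree ≤ D := by
    have h1 : (C R2 - ∑ j, X j ^ 2 : MvPolynomial σ ℝ).totalDegree ≤ 2 := by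
      refine (totalDegree_sub _ _).trans (max_le (by simp) ?_)
      refine totalDegree_finsetSum_le fun j _ => ?_
      rw [totalDegree_X_pow]
    have h2 : (∏ i, (f i) ^ 2).totalDegree ≤ 2 * Fintype.card ι * d := by
      refine (totalDegree_finsetProd _ _).trans ?_
      calc ∑ i, (f i ^ 2).totalDegree ≤ ∑ _i : ι, 2 * d :=
            Finset.sum_le_sum fun i _ => (totalDegree_pow _ _).trans
              (Nat.mul_le_mul_left 2 (hd i))
        _ = 2 * Fintype.card ι * d := by simp; ring
    refine (totalDegree_mul _ _).trans ?_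
    omega
  have hgev : ∀ x : σ → ℝ, eval x g = (R2 - ∑ j, (x j) ^ 2) * ∏ i, (eval x (f i)) ^ 2 := by
    intro x; simp [hg]
  have hgpos : ∀ x ∈ P, 0 < eval x g := by
    intro x hx
    rw [hgev]
    apply mul_pos (by linarith [hR2_x x hx])
    apply Finset.prod_pos
    intro i _
    have := hne x hx i
    positivity
  -- the compact ball
  set K : Set (σ → ℝ) := {x | ∑ j, (x j) ^ 2 ≤ R2} with hK
  have hKclosed : IsClosed K := isClosed_le (by fun_prop) continuous_const
  have hKcomp : IsCompact K := by
    refine IsCompact.of_isClosed_subset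
      (isCompact_univ_pi (fun _ : σ => isCompact_Icc (a := -R2) (b := R2))) hKclosed ?_
    intro x hx j _
    have h1 : (x j) ^ 2 ≤ ∑ j, (x j) ^ 2 :=
      Finset.single_le_sum (f := fun j => (x j) ^ 2) (fun j _ => sq_nonneg _) (Finset.mem_univ j)
    have h2 : (x j) ^ 2 ≤ R2 ^ 2 := by
      have : ∑ j, (x j) ^ 2 ≤ R2 := hx
      nlinarith
    exact abs_le.mp (abs_le_of_sq_le_sq h2 (by linarith))
  set S : MvPolynomial σ ℝ := ∑ j, X j ^ (D + 1) with hS
  have hScont : Continuous (fun x : σ → ℝ => eval x S) := MvPolynomial.continuous_eval S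
  obtain ⟨M, hM⟩ := hKcomp.exists_bound_of_continuousOn hScont.continuousOn
  obtain ⟨x0, hx0P, hx0⟩ := P.exists_min_image (fun x => eval x g) hP
  set m0 := eval x0 g with hm0
  have hm0pos : 0 < m0 := hgpos x0 hx0P
  have hPK : ∀ x ∈ P, x ∈ K := fun x hx => (hR2_x x hx).le
  have hM0 : 0 ≤ M := (norm_nonneg _).trans (hM x0 (hPK x0 hx0P))
  set t : ℝ := m0 / (2 * (M + 1)) with ht
  have htpos : 0 < t := by positivity
  have htM : t * M < m0 / 2 := by
    rw [ht, div_mul_eq_mul_div, div_lt_div_iff₀ (by positivity) (by norm_num)]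
    nlinarith
  set h : MvPolynomial σ ℝ := g + C t * S with hh
  have hhev : ∀ x : σ → ℝ, eval x h = eval x g + t * eval x S := by
    intro x; simp [hh]
  have hhcont : Continuous (fun x : σ → ℝ => eval x h) := MvPolynomial.continuous_eval h
  -- for each sample point a critical point in its cell
  have key : ∀ x ∈ P, ∃ z : σ → ℝ, (∀ i, 0 < eval x (f i) * eval z (f i)) ∧
      IsLocalMax (fun y => eval y h) z := by
    intro x hx
    set Cx : Set (σ → ℝ) := K ∩ {y | ∀ i, 0 ≤ eval x (f i) * eval y (f i)} with hCx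
    have hCclosed : IsClosed Cx := by
      apply hKclosed.inter
      rw [Set.ofPred_forall]
      exact isClosed_iInter fun i => isClosed_le continuous_const
        (continuous_const.mul (MvPolynomial.continuous_eval (f i)))
    have hCcomp : IsCompact Cx := IsCompact.of_isClosed_subset hKcomp hCclosed
      Set.inter_subset_left
    have hxC : x ∈ Cx := ⟨hPK x hx, fun i => mul_self_nonneg _⟩
    obtain ⟨z, hzC, hz⟩ := hCcomp.exists_isMaxOn ⟨x, hxC⟩ hhcont.continuousOn
    have hzx : eval x h ≤ eval z h := hz hxC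
    have hSx : -M ≤ eval x S := by
      have := hM x (hPK x hx)
      rw [Real.norm_eq_abs] at this
      exact (abs_le.mp this).1
    have hSz : eval z S ≤ M := by
      have := hM z hzC.1
      rw [Real.norm_eq_abs] at this
      exact (abs_le.mp this).2
    have hgz : 0 < eval z g := by
      have h1 : m0 ≤ eval x g := hx0 x hx
      have h2 := hhev x
      have h3 := hhev z
      nlinarith [mul_le_mul_of_nonneg_left hSz htpos.le, mul_le_mul_of_nonneg_left hSx htpos.le]
    rw [hgev] at hgz
    have hprod_nonneg : 0 ≤ ∏ i, (eval z (f i)) ^ 2 :=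
      Finset.prod_nonneg fun i _ => sq_nonneg _
    have hprod_pos : 0 < ∏ i, (eval z (f i)) ^ 2 := by
      rcases hprod_nonneg.eq_or_lt with h0 | h0
      · rw [← h0] at hgz; simp at hgz
      · exact h0
    have hRz : 0 < R2 - ∑ j, (z j) ^ 2 := (mul_pos_iff_of_pos_right hprod_pos).mp hgz
    have hfz : ∀ i, eval z (f i) ≠ 0 := by
      intro i hi
      have : ∏ i, (eval z (f i)) ^ 2 = 0 :=
        Finset.prod_eq_zero (Finset.mem_univ i) (by rw [hi]; simp)
      linarith
    have hsign : ∀ i, 0 < eval x (f i) * eval z (f i) := by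
      intro i
      exact lt_of_le_of_ne (hzC.2 i) (mul_ne_zero (hne x hx i) (hfz i)).symm
    refine ⟨z, hsign, ?_⟩
    have hopen : IsOpen ({y : σ → ℝ | 0 < R2 - ∑ j, (y j) ^ 2} ∩
        {y | ∀ i, 0 < eval x (f i) * eval y (f i)}) := by
      apply (isOpen_lt continuous_const (by fun_prop)).inter
      rw [Set.ofPred_forall]
      exact isOpen_iInter_of_finite fun i => isOpen_lt continuous_const
        (continuous_const.mul (MvPolynomial.continuous_eval (f i)))
    filter_upwards [hopen.mem_nhds ⟨hRz, hsign⟩] with y hy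
    apply hz
    refine ⟨?_, fun i => (hy.2 i).le⟩
    have : 0 < R2 - ∑ j, (y j) ^ 2 := hy.1
    simp only [hK, Set.mem_ofPred_eq]
    linarith
  choose! z hz1 hz2 using key
  have hzinj : Set.InjOn z P := by
    intro x hx y hy hxy
    apply hinj x hx y hy
    intro i
    have h1 := hz1 x hx i
    have h2 := hz1 y hy i
    rw [← hxy] at h2
    have h3 := mul_pos h1 h2
    have h4 : 0 < (eval (z x) (f i)) ^ 2 := by
      have : eval (z x) (f i) ≠ 0 := right_ne_zero_of_mul h1.ne'
      positivity
    have h5 : 0 < (eval x (f i) * eval y (f i)) * (eval (z x) (f i)) ^ 2 := by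
      nlinarith
    exact (mul_pos_iff_of_pos_right h4).mp h5
  rw [← Finset.card_image_of_injOn hzinj]
  refine card_zeros_le D (t * (D + 1)) (by positivity) (fun j => pderiv j g)
    (fun j => totalDegree_pderiv_lt g D (by omega) hgdeg j) _ ?_
  intro w hw j
  obtain ⟨x, hx, rfl⟩ := Finset.mem_image.mp hw
  have h1 := pderiv_eq_zero_of_isLocalMax h (z x) (hz2 x hx) j
  have h2 : pderiv j h = pderiv j g + C (t * (D + 1)) * X j ^ D := by
    rw [hh, map_add, pderiv_C_mul, hS, map_sum, Finset.sum_eq_single j]
    · rw [pderiv_pow]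
      simp only [pderiv_X_self, mul_one, add_tsub_cancel_right, map_mul, map_add, map_one]
      push_cast
      simp only [map_natCast]
      ring
    · intro i _ hij
      rw [pderiv_pow, pderiv_X_of_ne hij, mul_zero]
    · intro hj; exact absurd (Finset.mem_univ j) hj
  rw [h2] at h1
  simp only [map_add, map_mul, eval_C, map_pow, eval_X] at h1
  linarith


/-- **Weak Warren bound.** The number of sign patterns (zeros allowed). -/
theorem ncard_sign_patterns_le {ι : Type*} [Fintype ι] (f : ι → MvPolynomial σ ℝ) (d : ℕ)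
    (hd : ∀ i, (f i).totalDegree ≤ d) :
    (Set.range (fun x : σ → ℝ => fun i => SignType.sign (eval x (f i)))).ncard ≤
      (4 * Fintype.card ι * d + 2) ^ Fintype.card σ := by
  classical
  set φ : (σ → ℝ) → (ι → SignType) := fun x i => SignType.sign (eval x (f i)) with hφ
  have hfin : (Set.range φ).Finite := Set.toFinite _
  -- representatives
  have hrep : ∀ s : ι → SignType, ∃ x : σ → ℝ, s ∈ Set.range φ → φ x = s := by
    intro s
    by_cases hs : s ∈ Set.range φ
    · obtain ⟨x, hx⟩ := hs
      exact ⟨x, fun _ => hx⟩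
    · exact ⟨0, fun h => absurd h hs⟩
  choose rep hrep using hrep
  set P : Finset (σ → ℝ) := hfin.toFinset.image rep with hP
  have hPcard : P.card = (Set.range φ).ncard := by
    rw [hP, Finset.card_image_of_injOn, ← Set.ncard_eq_toFinset_card _ hfin]
    intro s hs s' hs' h
    have h1 := hrep s (by simpa using hs)
    have h2 := hrep s' (by simpa using hs')
    rw [← h1, ← h2, h]
  rw [← hPcard]
  have hPinj : ∀ x ∈ P, ∀ y ∈ P, φ x = φ y → x = y := by
    intro x hx y hy hxy
    obtain ⟨s, hs, rfl⟩ := Finset.mem_image.mp hx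
    obtain ⟨s', hs', rfl⟩ := Finset.mem_image.mp hy
    rw [hrep s (by simpa using hs), hrep s' (by simpa using hs')] at hxy
    rw [hxy]
  -- a small epsilon
  have heps : ∃ ε : ℝ, 0 < ε ∧ ∀ x ∈ P, ∀ i, eval x (f i) ≠ 0 → ε < |eval x (f i)| := by
    have : ∀ᶠ ε : ℝ in nhdsWithin 0 (Set.Ioi 0), ∀ x ∈ P, ∀ i, eval x (f i) ≠ 0 →
        ε < |eval x (f i)| := by
      rw [Filter.eventually_all_finset]
      intro x _
      rw [Filter.eventually_all]
      intro i
      by_cases h0 : eval x (f i) = 0
      · exact Filter.Eventually.of_forall fun _ h => absurd h0 h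
      · have h1 : ∀ᶠ ε : ℝ in nhdsWithin 0 (Set.Ioi 0), ε < |eval x (f i)| :=
          nhdsWithin_le_nhds (Iio_mem_nhds (abs_pos.mpr h0))
        filter_upwards [h1] with ε hε _ using hε
    obtain ⟨ε, h1, h2⟩ := (this.and self_mem_nhdsWithin).exists
    exact ⟨ε, h2, h1⟩
  obtain ⟨ε, hε, hεP⟩ := heps
  set F : ι ⊕ ι → MvPolynomial σ ℝ := Sum.elim (fun i => f i - C ε) (fun i => f i + C ε) with hF
  have hFdeg : ∀ i, (F i).totalDegree ≤ d := by
    rintro (i | i)
    · exact (totalDegree_sub _ _).trans (max_le (hd i) (by simp))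
    · exact (totalDegree_add _ _).trans (max_le (hd i) (by simp))
  have hFl : ∀ x i, eval x (F (Sum.inl i)) = eval x (f i) - ε := by intro x i; simp [hF]
  have hFr : ∀ x i, eval x (F (Sum.inr i)) = eval x (f i) + ε := by intro x i; simp [hF]
  have hFne : ∀ x ∈ P, ∀ i, eval x (F i) ≠ 0 := by
    rintro x hx (i | i)
    · rw [hFl]
      intro h0
      have h1 : eval x (f i) = ε := by linarith
      have h2 := hεP x hx i (by rw [h1]; exact hε.ne')
      rw [h1, abs_of_pos hε] at h2
      exact lt_irrefl _ h2
    · rw [hFr]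
      intro h0
      have h1 : eval x (f i) = -ε := by linarith
      have h2 := hεP x hx i (by rw [h1]; linarith)
      rw [h1, abs_neg, abs_of_pos hε] at h2
      exact lt_irrefl _ h2
  have := card_strict_le F d hFdeg P hFne (by
    intro x hx y hy hxy
    apply hPinj x hx y hy
    ext i
    have h1 := hxy (Sum.inl i)
    have h2 := hxy (Sum.inr i)
    rw [hFl, hFl] at h1
    rw [hFr, hFr] at h2
    simp only [hφ]
    -- trichotomy for both
    have tri : ∀ u ∈ P, (eval u (f i) = 0) ∨ (ε < eval u (f i)) ∨ (eval u (f i) < -ε) := by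
      intro u hu
      by_cases h0 : eval u (f i) = 0
      · exact Or.inl h0
      · have := hεP u hu i h0
        rcases lt_abs.mp this with h | h
        · exact Or.inr (Or.inl h)
        · exact Or.inr (Or.inr (by linarith))
    rcases tri x hx with hx0 | hx0 | hx0 <;> rcases tri y hy with hy0 | hy0 | hy0
    · rw [hx0, hy0]
    · exfalso; rw [hx0] at h1 h2; nlinarith
    · exfalso; rw [hx0] at h1 h2; nlinarith
    · exfalso; rw [hy0] at h1 h2; nlinarith
    · rw [sign_pos (by linarith), sign_pos (by linarith)]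
    · exfalso; nlinarith
    · exfalso; rw [hy0] at h1 h2; nlinarith
    · exfalso; nlinarith
    · rw [sign_neg (by linarith), sign_neg (by linarith)])
  refine this.trans (le_of_eq ?_)
  rw [Fintype.card_sum]
  congr 1
  ring

end Pool.Agent.KS6_47.Helper448.Warren
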