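import Pool.Agent.KS6_47.Vis.WStm
import Pool.Agent.KS6_47.Vis.Warren

/-!
# Project DSN, part FIB: the cells with a fixed set of active constraints
-/

set_option autoImplicit false

namespace Pool.Agent.KS6_47.W397.DSN

open MvPolynomial Pool.Agent.KS6_47.W599.DSN Pool.Agent.KS6_47.Helper448.Warren

theorem exists_pos_lower {V : ℕ} (B : Set (Fin V → ℝ)) (hB : IsCompact B)
    (q : (Fin V → ℝ) → ℝ) (hq : Continuous q) (hpos : ∀ z ∈ B, 0 < q z) :
    ∃ m : ℝ, 0 < m ∧ ∀ z ∈ B, m ≤ q z := by
  rcases B.eq_empty_or_nonempty with h | h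
  · refine ⟨1, one_pos, ?_⟩
    intro z hz
    rw [h] at hz
    exact absurd hz (Set.notMem_empty z)
  · obtain ⟨z, hz, hmin⟩ := hB.exists_isMinOn h hq.continuousOn
    exact ⟨q z, hpos z hz, fun w hw => hmin hw⟩

theorem pderiv_pert {V : ℕ} (δ : ℝ) (j : Fin V) :
    pderiv j (C δ * ∑ i, X i ^ 6 : MvPolynomial (Fin V) ℝ) = C (δ * 6) * X j ^ 5 := by
  rw [pderiv_C_mul, map_sum, Finset.sum_eq_single j]
  · rw [pderiv_pow, pderiv_X_self]
    have h6 : (C (δ * 6) : MvPolynomial (Fin V) ℝ) = C δ * 6 := by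
      rw [map_mul]
      congr 1
    rw [h6]
    push_cast
    ring
  · intro i _ hij
    rw [pderiv_pow, pderiv_X_of_ne hij, mul_zero]
  · intro hj; exact absurd (Finset.mem_univ j) hj

theorem fib : FIB := by
  intro V κ _ _ F e o0 R hdeg he ho0 S τ P hP
  classical
  set q : MvPolynomial (Fin V) ℝ := ∑ o ∈ S, (C (τ o) * F o - C (e o)) ^ 2 with hqdef
  have hqdeg : q.totalDegree ≤ 4 := by
    refine totalDegree_finsetSum_le fun o _ => ?_
    refine (totalDegree_pow _ _).trans ?_
    have h1 : (C (τ o) * F o - C (e o)).totalDegree ≤ 2 := by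
      refine (totalDegree_sub _ _).trans (max_le ?_ (by simp))
      refine (totalDegree_mul _ _).trans ?_
      rw [totalDegree_C, zero_add]
      exact hdeg o
    omega
  have hqev : ∀ z : Fin V → ℝ, eval z q = ∑ o ∈ S, (τ o * eval z (F o) - e o) ^ 2 := by
    intro z
    simp [hqdef]
  have hFc : ∀ o, Continuous fun z : Fin V → ℝ => eval z (F o) := fun o =>
    MvPolynomial.continuous_eval (F o)
  have hqc : Continuous fun z : Fin V → ℝ => eval z q := MvPolynomial.continuous_eval q
  -- the lower bounds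
  set bd : κ → ℝ := fun o => if o ∈ S then e o / 2 else e o with hbd
  have hbdS : ∀ o ∈ S, bd o = e o / 2 := fun o ho => by rw [hbd]; exact if_pos ho
  have hbdN : ∀ o, o ∉ S → bd o = e o := fun o ho => by rw [hbd]; exact if_neg ho
  have hbdpos : ∀ o, 0 < bd o := by
    intro o
    by_cases ho : o ∈ S
    · rw [hbdS o ho]; exact half_pos (he o)
    · rw [hbdN o ho]; exact he o
  have hbdle : ∀ o, bd o ≤ e o := by
    intro o
    by_cases ho : o ∈ S
    · rw [hbdS o ho]; exact (half_lt_self (he o)).le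
    · rw [hbdN o ho]
  -- the cells
  set K : (κ → ℝ) → Set (Fin V → ℝ) := fun s => ⋂ o, {z | bd o ≤ s o * eval z (F o)} with hK
  set B : (κ → ℝ) → Set (Fin V → ℝ) := fun s => K s ∩ ⋃ o, {z | s o * eval z (F o) = bd o}
    with hB
  have hKmem : ∀ s z, z ∈ K s ↔ ∀ o, bd o ≤ s o * eval z (F o) := by
    intro s z
    rw [hK]
    exact Set.mem_iInter
  have hBmem : ∀ s z, z ∈ B s ↔ z ∈ K s ∧ ∃ o, s o * eval z (F o) = bd o := by
    intro s z
    rw [hB]
    exact ⟨fun h => ⟨h.1, Set.mem_iUnion.1 h.2⟩, fun h => ⟨h.1, Set.mem_iUnion.2 h.2⟩⟩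
  have hKclosed : ∀ s, IsClosed (K s) := fun s =>
    isClosed_iInter fun o => isClosed_le continuous_const (continuous_const.mul (hFc o))
  have hBclosed : ∀ s, IsClosed (B s) := fun s =>
    (hKclosed s).inter (isClosed_iUnion_of_finite fun o =>
      isClosed_eq (continuous_const.mul (hFc o)) continuous_const)
  have hKcomp : ∀ s ∈ P, IsCompact (K s) := by
    intro s hs
    refine IsCompact.of_isClosed_subset
      (isCompact_univ_pi (fun _ : Fin V => isCompact_Icc (a := -(R + 1)) (b := R + 1)))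
      (hKclosed s) ?_
    intro z hz j _
    have h1 := (hKmem s z).1 hz o0
    rw [(hP s hs).2.1, one_mul, ho0] at h1
    have h2 : eval z (C R - ∑ j, X j ^ 2) = R - ∑ j, (z j) ^ 2 := by simp
    rw [h2] at h1
    have h3 := hbdpos o0
    have h4 : (z j) ^ 2 ≤ ∑ j, (z j) ^ 2 :=
      Finset.single_le_sum (f := fun j => (z j) ^ 2) (fun j _ => sq_nonneg _) (Finset.mem_univ j)
    have h5 : 0 ≤ (z j) ^ 2 := sq_nonneg _
    have hR : 0 ≤ R := by linarith
    have h6 : (z j) ^ 2 ≤ (R + 1) ^ 2 := by nlinarith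
    exact abs_le.mp (abs_le_of_sq_le_sq h6 (by linarith))
  -- sample points and lower bounds
  have hdata : ∀ s ∈ P, ∃ (t : Fin V → ℝ) (m : ℝ), t ∈ K s ∧ eval t q = 0 ∧ 0 < m ∧
      ∀ z ∈ B s, m ≤ eval z q := by
    intro s hs
    obtain ⟨-, -, hsτ, ⟨t, ht1, ht2⟩, hmax⟩ := hP s hs
    have hcomp : IsCompact (B s) :=
      IsCompact.of_isClosed_subset (hKcomp s hs) (hBclosed s) Set.inter_subset_left
    obtain ⟨m, hm0, hm⟩ := exists_pos_lower (B s) hcomp (fun z => eval z q) hqc (by
      intro z hz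
      obtain ⟨hzK, o₁, ho₁⟩ := (hBmem s z).1 hz
      rw [hKmem] at hzK
      have h0 : 0 ≤ eval z q := by
        rw [hqev]
        exact Finset.sum_nonneg fun o _ => sq_nonneg _
      rcases h0.lt_or_eq with h0 | h0
      · exact h0
      · exfalso
        rw [hqev, eq_comm, Finset.sum_eq_zero_iff_of_nonneg (fun o _ => sq_nonneg _)] at h0
        have h1 : ∀ o ∈ S, s o * eval z (F o) = e o := by
          intro o ho
          have h2 := pow_eq_zero_iff (two_ne_zero) |>.1 (h0 o ho)
          rw [hsτ o ho]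
          linarith
        by_cases hoS : o₁ ∈ S
        · have h2 := h1 o₁ hoS
          rw [ho₁, hbdS o₁ hoS] at h2
          have := he o₁
          linarith
        · refine hmax o₁ hoS ⟨z, ?_, h1, ?_⟩
          · intro o
            by_cases ho : o ∈ S
            · exact (h1 o ho).ge
            · have := hzK o
              rw [hbdN o ho] at this
              exact this
          · rw [ho₁, hbdN o₁ hoS])
    refine ⟨t, m, (hKmem s t).2 fun o => (hbdle o).trans (ht1 o), ?_, hm0, hm⟩
    rw [hqev]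
    apply Finset.sum_eq_zero
    intro o ho
    rw [← hsτ o ho, ht2 o ho, sub_self]
    norm_num
  choose! t m htK htq hm0 hmB using hdata
  -- the small parameter
  have hδ : ∃ δ : ℝ, 0 < δ ∧ ∀ s ∈ P, δ * ∑ j, (t s j) ^ 6 < m s := by
    have : ∀ᶠ δ : ℝ in nhdsWithin 0 (Set.Ioi 0), ∀ s ∈ P, δ * ∑ j, (t s j) ^ 6 < m s := by
      rw [Filter.eventually_all_finset]
      intro s hs
      have hc : Filter.Tendsto (fun δ : ℝ => δ * ∑ j, (t s j) ^ 6) (nhds 0)
          (nhds (0 * ∑ j, (t s j) ^ 6)) := (continuous_id.mul continuous_const).tendsto 0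
      rw [zero_mul] at hc
      exact (hc.mono_left nhdsWithin_le_nhds).eventually (Iio_mem_nhds (hm0 s hs))
    obtain ⟨δ, h1, h2⟩ := (this.and self_mem_nhdsWithin).exists
    exact ⟨δ, h2, h1⟩
  obtain ⟨δ, hδ0, hδ⟩ := hδ
  set h : MvPolynomial (Fin V) ℝ := q + C δ * ∑ j, X j ^ 6 with hh
  have hhev : ∀ z : Fin V → ℝ, eval z h = eval z q + δ * ∑ j, (z j) ^ 6 := by
    intro z
    simp [hh]
  have hhc : Continuous fun z : Fin V → ℝ => eval z h := MvPolynomial.continuous_eval h
  have key : ∀ s ∈ P, ∃ y : Fin V → ℝ, (∀ o, 0 < s o * eval y (F o)) ∧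
      IsLocalMax (fun x => eval x (-h)) y := by
    intro s hs
    obtain ⟨y, hyK, hy⟩ := (hKcomp s hs).exists_isMinOn ⟨t s, htK s hs⟩ hhc.continuousOn
    have h1 : eval y h ≤ eval (t s) h := hy (htK s hs)
    have h6 : 0 ≤ δ * ∑ j, (y j) ^ 6 := by
      apply mul_nonneg hδ0.le
      apply Finset.sum_nonneg
      intro j _
      have : (y j) ^ 6 = ((y j) ^ 3) ^ 2 := by ring
      rw [this]
      exact sq_nonneg _
    have h2 : eval y q < m s := by
      rw [hhev, hhev, htq s hs, zero_add] at h1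
      have := hδ s hs
      linarith
    have hyB : y ∉ B s := fun hyB => by
      have := hmB s hs y hyB
      linarith
    have hyK' := (hKmem s y).1 hyK
    have hstrict : ∀ o, bd o < s o * eval y (F o) := by
      intro o
      refine lt_of_le_of_ne (hyK' o) fun heq => ?_
      exact hyB ((hBmem s y).2 ⟨hyK, o, heq.symm⟩)
    refine ⟨y, fun o => (hbdpos o).trans (hstrict o), ?_⟩
    have hopen : IsOpen (⋂ o, {z : Fin V → ℝ | bd o < s o * eval z (F o)}) :=
      isOpen_iInter_of_finite fun o => isOpen_lt continuous_const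
        (continuous_const.mul (hFc o))
    have hmem : y ∈ (⋂ o, {z : Fin V → ℝ | bd o < s o * eval z (F o)}) :=
      Set.mem_iInter.2 hstrict
    filter_upwards [hopen.mem_nhds hmem] with z hz
    have hzK : z ∈ K s := (hKmem s z).2 fun o => le_of_lt (Set.mem_iInter.1 hz o)
    have h3 : eval y h ≤ eval z h := hy hzK
    rw [map_neg, map_neg]
    linarith
  choose! y hy1 hy2 using key
  have hyinj : Set.InjOn y P := by
    intro s hs s' hs' hyy
    funext o
    have h1 := hy1 s hs o
    have h2 := hy1 s' hs' o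
    rw [← hyy] at h2
    rcases (hP s hs).1 o with h3 | h3 <;> rcases (hP s' hs').1 o with h4 | h4 <;>
      rw [h3] at h1 ⊢ <;> rw [h4] at h2 ⊢ <;> linarith
  rw [← Finset.card_image_of_injOn hyinj]
  have hcard := card_zeros_le 5 (δ * 6) (by positivity) (fun j => pderiv j q)
    (fun j => totalDegree_pderiv_lt q 5 (by norm_num) (hqdeg.trans (by norm_num)) j)
    (P.image y) (by
      intro w hw j
      obtain ⟨s, hs, rfl⟩ := Finset.mem_image.mp hw
      have h1 := pderiv_eq_zero_of_isLocalMax (-h) (y s) (hy2 s hs) j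
      rw [map_neg, map_neg, neg_eq_zero] at h1
      have h2 : pderiv j h = pderiv j q + C (δ * 6) * X j ^ 5 := by
        rw [hh, map_add, pderiv_pert]
      rw [h2] at h1
      simp only [map_add, map_mul, eval_C, map_pow, eval_X] at h1
      change δ * 6 * y s j ^ 5 + eval (y s) (pderiv j q) = 0
      linarith)
  rw [Fintype.card_fin] at hcard
  exact hcard

end Pool.Agent.KS6_47.W397.DSN
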