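import Pool.Agent.KS6_47.Vis.WStm

/-!
# Project DSN: the Warren bound from its two parts
-/

set_option autoImplicit false

namespace Pool.Agent.KS6_47.W486.DSN

open MvPolynomial Pool.Agent.KS6_47.W599.DSN

lemma exists_eps {ι : Type*} (T : Finset ι) (g : ι → ℝ) (hg : ∀ i ∈ T, 0 < g i) :
    ∃ ε : ℝ, 0 < ε ∧ ∀ i ∈ T, ε ≤ g i := by
  classical
  induction T using Finset.induction_on with
  | empty => exact ⟨1, one_pos, by simp⟩
  | insert a s ha ih =>
    obtain ⟨ε, hε, h⟩ := ih fun i hi => hg i (Finset.mem_insert_of_mem hi)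
    refine ⟨min ε (g a), lt_min hε (hg a (Finset.mem_insert_self _ _)), fun i hi => ?_⟩
    rcases Finset.mem_insert.1 hi with rfl | hi
    · exact min_le_right _ _
    · exact (min_le_left _ _).trans (h i hi)

/-- extension of a sign vector by `1` -/
def ext1 {κ : Type} (s : κ → ℝ) : Option κ → ℝ := fun o => o.elim 1 s

lemma ext1_inj {κ : Type} : Function.Injective (ext1 (κ := κ)) := by
  intro s t h
  funext o
  exact congrFun h (some o)

lemma card_pairs (α : Type) [Fintype α] [DecidableEq α] (V : ℕ) :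
    (((Finset.univ : Finset (Finset α)).filter (fun S => S.card ≤ V)).sigma
      (fun S => S.powerset)).card =
      ∑ k ∈ Finset.range (V + 1), (Fintype.card α).choose k * 2 ^ k := by
  rw [Finset.card_sigma]
  have h1 : ∀ S ∈ (Finset.univ : Finset (Finset α)).filter (fun S => S.card ≤ V),
      S.card ∈ Finset.range (V + 1) := by
    intro S hS
    rw [Finset.mem_filter] at hS
    exact Finset.mem_range.2 (by omega)
  rw [← Finset.sum_fiberwise_of_maps_to h1]
  refine Finset.sum_congr rfl fun k hk => ?_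
  have h2 : ((Finset.univ : Finset (Finset α)).filter (fun S => S.card ≤ V)).filter
      (fun S => S.card = k) = (Finset.univ : Finset α).powersetCard k := by
    ext S
    simp only [Finset.mem_filter, Finset.mem_univ, true_and, Finset.mem_powersetCard,
      Finset.subset_univ]
    rw [Finset.mem_range] at hk
    omega
  rw [h2]
  have h3 : ∀ S ∈ (Finset.univ : Finset α).powersetCard k, S.powerset.card = 2 ^ k := by
    intro S hS
    rw [Finset.card_powerset, (Finset.mem_powersetCard.1 hS).2]
  rw [Finset.sum_congr rfl h3, Finset.sum_const, Finset.card_powersetCard, Finset.card_univ,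
    smul_eq_mul]

open Classical in
theorem war (hG : GEN) (hF : FIB) : WAR := by
  intro V κ _ _ f hf P hP
  choose! z hz using fun s (hs : s ∈ P) => (hP s hs).2
  set R : ℝ := 1 + ∑ s ∈ P, ∑ j, (z s j) ^ 2 with hR
  set F : Option κ → MvPolynomial (Fin V) ℝ :=
    fun o => o.elim (C R - ∑ j, X j ^ 2) f with hFdef
  have hFdeg : ∀ o, (F o).totalDegree ≤ 2 := by
    intro o
    cases o with
    | none =>
      refine (totalDegree_sub _ _).trans (max_le ?_ ?_)
      · rw [totalDegree_C]; exact Nat.zero_le _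
      · refine totalDegree_finsetSum_le fun j _ => ?_
        refine (totalDegree_pow _ _).trans ?_
        have := totalDegree_X (R := ℝ) j
        omega
    | some o => exact hf o
  have hpos : ∀ s ∈ P, ∀ o, 0 < ext1 s o * eval (z s) (F o) := by
    intro s hs o
    cases o with
    | none =>
      have h1 : eval (z s) (F none) = R - ∑ j, (z s j) ^ 2 := by
        simp [hFdef]
      have h2 : ∑ j, (z s j) ^ 2 ≤ ∑ s ∈ P, ∑ j, (z s j) ^ 2 :=
        Finset.single_le_sum (f := fun s => ∑ j, (z s j) ^ 2)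
          (fun i _ => Finset.sum_nonneg fun j _ => sq_nonneg _) hs
      show 0 < 1 * eval (z s) (F none)
      rw [h1, hR]
      linarith
    | some o => exact hz s hs o
  obtain ⟨e0, he0, he0'⟩ := exists_eps (P ×ˢ (Finset.univ : Finset (Option κ)))
    (fun p => ext1 p.1 p.2 * eval (z p.1) (F p.2))
    (fun p hp => hpos p.1 (Finset.mem_product.1 hp).1 p.2)
  have he0'' : ∀ s ∈ P, ∀ o, e0 ≤ ext1 s o * eval (z s) (F o) := fun s hs o =>
    he0' (s, o) (Finset.mem_product.2 ⟨hs, Finset.mem_univ _⟩)
  obtain ⟨e, he, hgen⟩ := hG V (Option κ) F e0 he0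
  have hsign : ∀ s ∈ P, ∀ o, ext1 s o = 1 ∨ ext1 s o = -1 := by
    intro s hs o
    cases o with
    | none => exact Or.inl rfl
    | some o => exact (hP s hs).1 o
  set A : (κ → ℝ) → Finset (Finset (Option κ)) := fun s => Finset.univ.filter fun S =>
    ∃ z : Fin V → ℝ, (∀ o, e o ≤ ext1 s o * eval z (F o)) ∧
      ∀ o ∈ S, ext1 s o * eval z (F o) = e o with hA
  have hAne : ∀ s ∈ P, (A s).Nonempty := by
    intro s hs
    refine ⟨∅, ?_⟩
    rw [hA, Finset.mem_filter]
    exact ⟨Finset.mem_univ _, z s, fun o => (he o).2.le.trans (he0'' s hs o), by simp⟩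
  choose! S hS hSmax using fun s (hs : s ∈ P) =>
    Finset.exists_max_image (A s) Finset.card (hAne s hs)
  have hSA : ∀ s ∈ P, ∃ z : Fin V → ℝ, (∀ o, e o ≤ ext1 s o * eval z (F o)) ∧
      ∀ o ∈ S s, ext1 s o * eval z (F o) = e o := by
    intro s hs
    have := hS s hs
    rw [hA, Finset.mem_filter] at this
    exact this.2
  have hSV : ∀ s ∈ P, (S s).card ≤ V := by
    intro s hs
    by_contra hlt
    push Not at hlt
    obtain ⟨w, -, hw⟩ := hSA s hs
    exact hgen (ext1 s) (hsign s hs) (S s) hlt ⟨w, hw⟩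
  set Q := ((Finset.univ : Finset (Finset (Option κ))).filter (fun S => S.card ≤ V)).sigma
    (fun S => S.powerset) with hQ
  set g : (κ → ℝ) → (Σ _ : Finset (Option κ), Finset (Option κ)) :=
    fun s => ⟨S s, (S s).filter fun o => ext1 s o = 1⟩ with hg
  have hmaps : ∀ s ∈ P, g s ∈ Q := by
    intro s hs
    rw [hQ, hg, Finset.mem_sigma, Finset.mem_filter, Finset.mem_powerset]
    exact ⟨⟨Finset.mem_univ _, hSV s hs⟩, Finset.filter_subset _ _⟩
  have hfib : ∀ q ∈ Q, (P.filter fun s => g s = q).card ≤ 5 ^ V := by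
    intro q _
    rw [← Finset.card_image_of_injective _ (ext1_inj (κ := κ))]
    refine hF V (Option κ) F e none R hFdeg (fun o => (he o).1) rfl q.1
      (fun o => if o ∈ q.2 then 1 else -1) _ ?_
    intro s' hs'
    obtain ⟨s, hs, rfl⟩ := Finset.mem_image.1 hs'
    obtain ⟨hsP, hgs⟩ := Finset.mem_filter.1 hs
    subst hgs
    refine ⟨hsign s hsP, rfl, ?_, hSA s hsP, ?_⟩
    · intro o ho
      by_cases h : o ∈ (g s).2
      · rw [if_pos h]
        exact (Finset.mem_filter.1 h).2
      · rw [if_neg h]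
        rcases hsign s hsP o with h1 | h1
        · exact absurd (Finset.mem_filter.2 ⟨ho, h1⟩) h
        · exact h1
    · rintro o₁ ho₁ ⟨w, hw1, hw2, hw3⟩
      have hmem : insert o₁ (S s) ∈ A s := by
        rw [hA, Finset.mem_filter]
        refine ⟨Finset.mem_univ _, w, hw1, fun o ho => ?_⟩
        rcases Finset.mem_insert.1 ho with rfl | ho
        · exact hw3
        · exact hw2 o ho
      have h1 := hSmax s hsP _ hmem
      have h2 : o₁ ∉ S s := ho₁
      rw [Finset.card_insert_of_notMem h2] at h1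
      omega
  have hfin := Finset.card_le_mul_card_image_of_maps_to hmaps (5 ^ V) hfib
  rw [hQ, card_pairs (Option κ) V, Fintype.card_option] at hfin
  rw [mul_comm]
  exact hfin

end Pool.Agent.KS6_47.W486.DSN
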