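import Pool.Agent.KS6_47.Vis.Exit
import Pool.Agent.KS6_47.Vis.WCount

/-!
# The upper bound
-/

namespace Pool.Agent.KS6_47.Vis

open Set MvPolynomial Filter

variable {n : ℕ}

/-- index set of the orientations and of the scalar products -/
abbrev Idx (n : ℕ) := Bool × Fin n × Fin n × Fin n

/-- signs of all orientations and scalar products -/
noncomputable def pat (v : Fin n → ℝ × ℝ) : Idx n → SignType := fun q =>
  SignType.sign (if q.1 then ori (v q.2.1) (v q.2.2.1) (v q.2.2.2)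
    else dotp (v q.2.1) (v q.2.2.1) (v q.2.2.2))

theorem pat_ori {v v' : Fin n → ℝ × ℝ} (h : pat v = pat v') (i j k : Fin n) :
    SignType.sign (ori (v i) (v j) (v k)) = SignType.sign (ori (v' i) (v' j) (v' k)) := by
  have := congrFun h (true, i, j, k)
  simpa [pat] using this

theorem pat_dot {v v' : Fin n → ℝ × ℝ} (h : pat v = pat v') (i j k : Fin n) :
    SignType.sign (dotp (v i) (v j) (v k)) = SignType.sign (dotp (v' i) (v' j) (v' k)) := by
  have := congrFun h (false, i, j, k)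
  simpa [pat] using this

theorem sgn_pos {x y : ℝ} (h : SignType.sign x = SignType.sign y) : 0 < x ↔ 0 < y := by
  rw [← sign_eq_one_iff, ← sign_eq_one_iff, h]

theorem sgn_neg {x y : ℝ} (h : SignType.sign x = SignType.sign y) : x < 0 ↔ y < 0 := by
  rw [← sign_eq_neg_one_iff, ← sign_eq_neg_one_iff, h]

theorem sgn_le {x y : ℝ} (h : SignType.sign x = SignType.sign y) : x ≤ 0 ↔ y ≤ 0 := by
  rw [← not_lt, ← not_lt, sgn_pos h]

theorem sgn_zero {x y : ℝ} (h : SignType.sign x = SignType.sign y) : x = 0 ↔ y = 0 := by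
  rw [← sign_eq_zero_iff (a := x), h, sign_eq_zero_iff]

theorem sgn_mul {x y x' y' : ℝ} (h : SignType.sign x = SignType.sign y)
    (h' : SignType.sign x' = SignType.sign y') :
    SignType.sign (x * x') = SignType.sign (y * y') := by
  rw [sign_mul, sign_mul, h, h']

theorem vexit_congr {v v' : Fin n → ℝ × ℝ} (h : pat v = pat v') {σ : ℝ} {i j k : Fin n}
    (he : VExit σ v i j k) : VExit σ v' i j k := by
  obtain ⟨h1, h2, h3, h4⟩ := he
  refine ⟨h1, (sgn_zero (pat_ori h i j k)).1 h2, (sgn_le (pat_dot h k i j)).1 h3, ?_⟩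
  have e1 : SignType.sign (-σ * cr (wd v k) (ud v k)) =
      SignType.sign (-σ * cr (wd v' k) (ud v' k)) :=
    sgn_mul rfl (pat_ori h k (sc k) (pd k))
  have e2 : SignType.sign (-σ * cr (wd v k) (v j - v k)) =
      SignType.sign (-σ * cr (wd v' k) (v' j - v' k)) :=
    sgn_mul rfl (pat_ori h k (sc k) j)
  have e3 : SignType.sign (-σ * cr (v j - v k) (ud v k)) =
      SignType.sign (-σ * cr (v' j - v' k) (ud v' k)) :=
    sgn_mul rfl (pat_ori h k j (pd k))
  rcases h4 with ⟨h5, h6, h7⟩ | ⟨h5, h6 | h6⟩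
  · exact Or.inl ⟨(sgn_pos e1).1 h5, (sgn_pos e2).1 h6, (sgn_pos e3).1 h7⟩
  · exact Or.inr ⟨(sgn_le e1).1 h5, Or.inl ((sgn_pos e2).1 h6)⟩
  · exact Or.inr ⟨(sgn_le e1).1 h5, Or.inr ((sgn_pos e3).1 h6)⟩

theorem eexit_congr {v v' : Fin n → ℝ × ℝ} (h : pat v = pat v') {σ : ℝ} {i j l : Fin n}
    (he : EExit σ v i j l) : EExit σ v' i j l := by
  obtain ⟨h1, h2, h3⟩ := he
  exact ⟨(sgn_pos (sgn_mul rfl (pat_ori h l (sc l) i))).1 h1,
    (sgn_neg (sgn_mul rfl (pat_ori h l (sc l) j))).1 h2,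
    (sgn_neg (sgn_mul (pat_ori h i j l) (pat_ori h i j (sc l)))).1 h3⟩

/-- side of the interior -/
def Side (σ : ℝ) (v : Fin n → ℝ × ℝ) (P : Set (ℝ × ℝ)) : Prop :=
  (∀ k, Ev v (interior P) σ k) ∧ (∀ k, Ev v Pᶜ (-σ) k)

/-- The visibility graph is determined by the signs and the side of the interior. -/
theorem visGraph_eq {v v' : Fin n → ℝ × ℝ} {P P' : Set (ℝ × ℝ)} (h : IsSimplePolygon v P)
    (h' : IsSimplePolygon v' P') {σ : ℝ} (hσ : σ = 1 ∨ σ = -1) (hs : Side σ v P)
    (hs' : Side σ v' P') (hp : pat v = pat v') : visGraph v P = visGraph v' P' := by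
  ext i j
  simp only [visGraph]
  apply and_congr_right
  intro hij
  rw [← not_iff_not]
  constructor
  · intro hnv
    apply not_visible_of_exit h' hσ hs'.2 hij
    rcases exit_of_not_visible h hσ hs.1 hs.2 hij hnv with ⟨k, hk⟩ | ⟨l, hl⟩
    · exact Or.inl ⟨k, vexit_congr hp hk⟩
    · exact Or.inr ⟨l, eexit_congr hp hl⟩
  · intro hnv
    apply not_visible_of_exit h hσ hs.2 hij
    rcases exit_of_not_visible h' hσ hs'.1 hs'.2 hij hnv with ⟨k, hk⟩ | ⟨l, hl⟩
    · exact Or.inl ⟨k, vexit_congr hp.symm hk⟩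
    · exact Or.inr ⟨l, eexit_congr hp.symm hl⟩

/-- the polynomials -/
noncomputable def poly' (q : Idx n) : MvPolynomial (Fin n × Bool) ℝ :=
  if q.1 then
    (X (q.2.2.1, false) - X (q.2.1, false)) * (X (q.2.2.2, true) - X (q.2.1, true)) -
    (X (q.2.2.1, true) - X (q.2.1, true)) * (X (q.2.2.2, false) - X (q.2.1, false))
  else
    (X (q.2.2.1, false) - X (q.2.1, false)) * (X (q.2.2.2, false) - X (q.2.1, false)) +
    (X (q.2.2.1, true) - X (q.2.1, true)) * (X (q.2.2.2, true) - X (q.2.1, true))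

theorem deg_aux (a b c d : Fin n × Bool) :
    ((X a - X b) * (X c - X d) : MvPolynomial (Fin n × Bool) ℝ).totalDegree ≤ 2 := by
  refine (totalDegree_mul _ _).trans ?_
  have h1 : ∀ a b : Fin n × Bool, (X a - X b : MvPolynomial (Fin n × Bool) ℝ).totalDegree ≤ 1 := by
    intro a b
    refine (totalDegree_sub _ _).trans ?_
    simp
  have := h1 a b
  have := h1 c d
  omega

theorem poly'_deg (q : Idx n) : (poly' q).totalDegree ≤ 2 := by
  unfold poly'
  split_ifs
  · exact (totalDegree_sub _ _).trans (max_le (deg_aux _ _ _ _) (deg_aux _ _ _ _))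
  · exact (totalDegree_add _ _).trans (max_le (deg_aux _ _ _ _) (deg_aux _ _ _ _))

/-- coordinates -/
def coor (v : Fin n → ℝ × ℝ) : Fin n × Bool → ℝ := fun p => if p.2 then (v p.1).2 else (v p.1).1

theorem pat_eq (v : Fin n → ℝ × ℝ) :
    pat v = fun q => SignType.sign (eval (coor v) (poly' q)) := by
  funext q
  unfold pat poly'
  split_ifs with h
  · congr 1
    simp [ori, cr, coor]
  · congr 1
    simp [dotp, coor]

/-- a bound for the partial binomial sum -/
theorem binom_bound (V M : ℕ) (hV : 0 < V) (h : V ≤ M) :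
    (∑ k ∈ Finset.range (V + 1), (M.choose k : ℝ) * 2 ^ k) ≤
      ((M : ℝ) / V) ^ V * Real.exp (2 * V) := by
  have hV' : (0 : ℝ) < V := by exact_mod_cast hV
  have hM' : (0 : ℝ) < M := by exact_mod_cast (lt_of_lt_of_le hV h)
  have hVM : (V : ℝ) ≤ M := by exact_mod_cast h
  set t : ℝ := (V : ℝ) / M with ht
  have ht0 : 0 < t := div_pos hV' hM'
  have ht1 : t ≤ 1 := (div_le_one hM').2 hVM
  have hinv : (M : ℝ) / V = 1 / t := by rw [ht]; field_simp
  rw [hinv]
  have h1 : ∀ k ∈ Finset.range (V + 1), (M.choose k : ℝ) * 2 ^ k ≤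
      (1 / t) ^ V * ((2 * t) ^ k * 1 ^ (M - k) * (M.choose k : ℝ)) := by
    intro k hk
    have hk' : k ≤ V := by
      rw [Finset.mem_range] at hk
      omega
    have h2 : (1 : ℝ) ≤ (1 / t) ^ V * t ^ k := by
      have h3 : (1 / t) ^ k ≤ (1 / t) ^ V :=
        pow_le_pow_right₀ (by rw [le_div_iff₀ ht0]; linarith) hk'
      calc (1 : ℝ) = (1 / t) ^ k * t ^ k := by
            rw [← mul_pow, one_div, inv_mul_cancel₀ ht0.ne', one_pow]
        _ ≤ (1 / t) ^ V * t ^ k := by gcongr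
    calc (M.choose k : ℝ) * 2 ^ k = 1 * ((M.choose k : ℝ) * 2 ^ k) := by ring
      _ ≤ ((1 / t) ^ V * t ^ k) * ((M.choose k : ℝ) * 2 ^ k) := by gcongr
      _ = (1 / t) ^ V * ((2 * t) ^ k * 1 ^ (M - k) * (M.choose k : ℝ)) := by
          rw [one_pow, mul_pow]
          ring
  have h5 : ((2 * t) + 1) ^ M = ∑ k ∈ Finset.range (M + 1),
      (2 * t) ^ k * 1 ^ (M - k) * (M.choose k : ℝ) := add_pow _ _ _
  calc (∑ k ∈ Finset.range (V + 1), (M.choose k : ℝ) * 2 ^ k)
      ≤ ∑ k ∈ Finset.range (V + 1), (1 / t) ^ V * ((2 * t) ^ k * 1 ^ (M - k) * (M.choose k : ℝ)) :=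
        Finset.sum_le_sum h1
    _ = (1 / t) ^ V * ∑ k ∈ Finset.range (V + 1),
        ((2 * t) ^ k * 1 ^ (M - k) * (M.choose k : ℝ)) := by
        rw [Finset.mul_sum]
    _ ≤ (1 / t) ^ V * ∑ k ∈ Finset.range (M + 1),
        ((2 * t) ^ k * 1 ^ (M - k) * (M.choose k : ℝ)) := by
        apply mul_le_mul_of_nonneg_left _ (by positivity)
        apply Finset.sum_le_sum_of_subset_of_nonneg
        · intro k hk
          rw [Finset.mem_range] at hk ⊢
          omega
        · intro k _ _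
          positivity
    _ = (1 / t) ^ V * ((2 * t) + 1) ^ M := by rw [h5]
    _ ≤ (1 / t) ^ V * (Real.exp (2 * t)) ^ M := by
        gcongr
        exact Real.add_one_le_exp _
    _ = (1 / t) ^ V * Real.exp (2 * V) := by
        rw [← Real.exp_nat_mul]
        congr 2
        rw [ht]
        field_simp

theorem sign_eq_of_le {x y : ℝ} (h1 : 0 ≤ x ↔ 0 ≤ y) (h2 : 0 ≤ -x ↔ 0 ≤ -y) :
    SignType.sign x = SignType.sign y := by
  rcases lt_trichotomy x 0 with h | h | h
  · have : ¬ 0 ≤ y := fun h' => absurd (h1.2 h') (not_le.2 h)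
    rw [sign_neg h, sign_neg (not_le.1 this)]
  · subst h
    have a1 := h1.1 le_rfl
    have a2 := h2.1 (by simp)
    have : y = 0 := by linarith
    rw [this]
  · have h3 : ¬ 0 ≤ -y := fun h' => by have := h2.2 h'; linarith
    have : 0 < y := by linarith
    rw [sign_pos h, sign_pos this]

theorem ncard_pat_le (n : ℕ) (hn : 0 < n) :
    (Set.range (pat : (Fin n → ℝ × ℝ) → Idx n → SignType)).ncard ≤
      (∑ k ∈ Finset.range (2 * n + 1), (4 * n ^ 3 + 1).choose k * 2 ^ k) * 5 ^ (2 * n) := by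
  classical
  have hfin : Fintype (Set.range (pat : (Fin n → ℝ × ℝ) → Idx n → SignType)) := Fintype.ofFinite _
  let e : Fin n × Bool ≃ Fin (2 * n) := Fintype.equivFinOfCardEq (by simp [Fintype.card_prod]; ring)
  let F : Idx n × Bool → MvPolynomial (Fin (2 * n)) ℝ := fun o =>
    if o.2 then rename e (poly' o.1) else - rename e (poly' o.1)
  have hdeg : ∀ o, (F o).totalDegree ≤ 2 := by
    intro o
    have h1 : (rename e (poly' o.1)).totalDegree ≤ 2 :=
      (totalDegree_rename_le _ _).trans (poly'_deg _)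
    show (if o.2 then rename e (poly' o.1) else - rename e (poly' o.1)).totalDegree ≤ 2
    split_ifs
    · exact h1
    · rw [totalDegree_neg]; exact h1
  let z : Set.range (pat : (Fin n → ℝ × ℝ) → Idx n → SignType) → Fin (2 * n) → ℝ :=
    fun a => coor a.2.choose ∘ e.symm
  have hz : ∀ (a : Set.range (pat : (Fin n → ℝ × ℝ) → Idx n → SignType)) (q : Idx n),
      a.1 q = SignType.sign (eval (z a) (rename e (poly' q))) := by
    intro a q
    have h1 := a.2.choose_spec
    have h2 := congrFun h1 q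
    rw [pat_eq] at h2
    rw [← h2, eval_rename]
    show SignType.sign (eval (coor a.2.choose) (poly' q)) =
      SignType.sign (eval ((coor a.2.choose ∘ e.symm) ∘ e) (poly' q))
    rw [Function.comp_assoc, Equiv.symm_comp_self, Function.comp_id]
  have key := Pool.Agent.KS6_47.SD.count_patterns (2 * n) (Idx n × Bool) F hdeg
    (Set.range (pat : (Fin n → ℝ × ℝ) → Idx n → SignType)) z (by
      intro a b hab
      apply Subtype.ext
      funext q
      rw [hz, hz]
      have h1 := hab (q, true)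
      have h2 := hab (q, false)
      simp only [F, if_true, Bool.false_eq_true, if_false, map_neg] at h1 h2
      exact sign_eq_of_le h1 h2)
  have hc : Fintype.card (Idx n × Bool) = 4 * n ^ 3 := by
    simp [Fintype.card_prod]; ring
  rw [hc, ← Nat.card_eq_fintype_card, Nat.card_coe_set_eq] at key
  exact key

theorem exp_four_lt : 5 ^ 2 * Real.exp 4 ≤ (11 : ℝ) ^ 4 / 9 := by
  have h : Real.exp 1 < 2.7182818286 := Real.exp_one_lt_d9
  have h4 : Real.exp 4 = Real.exp 1 ^ 4 := by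
    rw [← Real.exp_nat_mul]; norm_num
  have h5 : Real.exp 1 ^ 4 ≤ 2.7182818286 ^ 4 := pow_le_pow_left₀ (Real.exp_pos _).le h.le 4
  rw [h4]
  have h6 : (5 : ℝ) ^ 2 * 2.7182818286 ^ 4 ≤ 11 ^ 4 / 9 := by norm_num
  linarith

/-- Labelled visibility graphs. -/
def labelled (n : ℕ) : Set (SimpleGraph (Fin n)) :=
  {G | ∃ (v : Fin n → ℝ × ℝ) (P : Set (ℝ × ℝ)), IsSimplePolygon v P ∧ G = visGraph v P}

theorem N_upper_aux (n : ℕ) (hn : 0 < n) : N n ≤ 2 *
    ((∑ k ∈ Finset.range (2 * n + 1), (4 * n ^ 3 + 1).choose k * 2 ^ k) * 5 ^ (2 * n)) := by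
  classical
  -- every class comes with a side and a sign pattern
  have key : ∀ q : visClasses n, ∃ r : Bool × (Idx n → SignType),
      r.2 ∈ Set.range (pat : (Fin n → ℝ × ℝ) → Idx n → SignType) ∧
      ∃ (v : Fin n → ℝ × ℝ) (P : Set (ℝ × ℝ)), IsSimplePolygon v P ∧
        q.1 = Quotient.mk (isoSetoid n) (visGraph v P) ∧ pat v = r.2 ∧
        Side (if r.1 then 1 else -1) v P := by
    rintro ⟨q, v, P, h1, h2⟩
    obtain ⟨σ, hσ, h3, h4⟩ := oriented h1
    rcases hσ with rfl | rfl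
    · exact ⟨(true, pat v), ⟨v, rfl⟩, v, P, h1, h2, rfl, by simpa using ⟨h3, h4⟩⟩
    · exact ⟨(false, pat v), ⟨v, rfl⟩, v, P, h1, h2, rfl, by
        simp only [Bool.false_eq_true, if_false]; exact ⟨h3, h4⟩⟩
  choose r hr hv using key
  let Φ : visClasses n → Bool × (Set.range (pat : (Fin n → ℝ × ℝ) → Idx n → SignType)) :=
    fun q => ((r q).1, ⟨(r q).2, hr q⟩)
  have hΦ : Function.Injective Φ := by
    intro q q' hqq
    have h1 : (Φ q).1 = (Φ q').1 := congrArg Prod.fst hqq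
    have h2 : (Φ q).2.1 = (Φ q').2.1 := congrArg (fun x => (Prod.snd x).1) hqq
    change (r q).1 = (r q').1 at h1
    change (r q).2 = (r q').2 at h2
    obtain ⟨v, P, a1, a2, a3, a4⟩ := hv q
    obtain ⟨v', P', b1, b2, b3, b4⟩ := hv q'
    rw [← h1] at b4
    apply Subtype.ext
    rw [a2, b2]
    congr 1
    refine visGraph_eq a1 b1 ?_ a4 b4 (a3.trans (h2.trans b3.symm))
    split_ifs
    · exact Or.inl rfl
    · exact Or.inr rfl
  have h := Nat.card_le_card_of_injective Φ hΦ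
  rw [Nat.card_prod, Nat.card_coe_set_eq, Nat.card_coe_set_eq] at h
  have h2 : Nat.card Bool = 2 := by simp
  rw [h2] at h
  exact h.trans (Nat.mul_le_mul_left _ (ncard_pat_le n hn))

theorem N_upper (n : ℕ) : N n ≤ 2 * (11 * n) ^ (4 * n) := by
  rcases Nat.eq_zero_or_pos n with h0 | hn
  · subst h0
    have : N 0 = 0 := by
      have h : visClasses 0 = ∅ := by
        ext q
        simp only [Set.mem_empty_iff_false, iff_false]
        rintro ⟨v, P, h, -⟩
        exact absurd h.three_le (by norm_num)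
      unfold N
      rw [h, Set.ncard_empty]
    rw [this]
    exact Nat.zero_le _
  · have h1 := N_upper_aux n hn
    have h2 := binom_bound (2 * n) (4 * n ^ 3 + 1) (by omega) (by
      have : n ≤ n ^ 3 := Nat.le_self_pow (by norm_num) n
      omega)
    have hn1 : (1 : ℝ) ≤ n := by exact_mod_cast hn
    have h3 : (N n : ℝ) ≤ 2 * ((∑ k ∈ Finset.range (2 * n + 1),
        ((4 * n ^ 3 + 1).choose k : ℝ) * 2 ^ k) * 5 ^ (2 * n)) := by exact_mod_cast h1
    have h4 : (((4 * n ^ 3 + 1 : ℕ) : ℝ) / ((2 * n : ℕ) : ℝ)) ≤ 3 * (n : ℝ) ^ 2 := by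
      rw [div_le_iff₀ (by push_cast; linarith)]
      push_cast
      have : (1 : ℝ) ≤ (n : ℝ) ^ 3 := one_le_pow₀ hn1
      nlinarith
    have h5 : (∑ k ∈ Finset.range (2 * n + 1), ((4 * n ^ 3 + 1).choose k : ℝ) * 2 ^ k) *
        5 ^ (2 * n) ≤ ((11 : ℝ) * n) ^ (4 * n) := by
      calc (∑ k ∈ Finset.range (2 * n + 1), ((4 * n ^ 3 + 1).choose k : ℝ) * 2 ^ k) *
          5 ^ (2 * n) ≤ ((((4 * n ^ 3 + 1 : ℕ) : ℝ) / ((2 * n : ℕ) : ℝ)) ^ (2 * n) *
            Real.exp (2 * (2 * n : ℕ))) * 5 ^ (2 * n) := by gcongr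
        _ ≤ ((3 * (n : ℝ) ^ 2) ^ (2 * n) * Real.exp (2 * (2 * n : ℕ))) * 5 ^ (2 * n) := by
            gcongr
        _ = (9 * (n : ℝ) ^ 4 * (5 ^ 2 * Real.exp 4)) ^ n := by
            have e1 : Real.exp (2 * (2 * n : ℕ)) = Real.exp 4 ^ n := by
              rw [← Real.exp_nat_mul]; congr 1; push_cast; ring
            rw [e1, pow_mul, pow_mul (5 : ℝ) 2 n, ← mul_pow, ← mul_pow]
            congr 1; ring
        _ ≤ (9 * (n : ℝ) ^ 4 * ((11 : ℝ) ^ 4 / 9)) ^ n := by
            gcongr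
            exact exp_four_lt
        _ = ((11 : ℝ) * n) ^ (4 * n) := by
            rw [pow_mul]; congr 1; ring
    have h6 : (N n : ℝ) ≤ 2 * ((11 : ℝ) * n) ^ (4 * n) := h3.trans (by gcongr)
    exact_mod_cast h6

end Pool.Agent.KS6_47.Vis
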