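import Pool.Agent.KS6_47.Vis.Graphs
import Pool.Agent.KS6_47.Vis.Upper

/-!
# Counting the graphs of the family
-/

set_option autoImplicit false

namespace Pool.Agent.KS6_47.VG

open Pool.Agent.KS6_47.Vis Set

/-- the decoding of the number of neighbours in a set -/
theorem card_nbr {n N : ℕ} {G R : SimpleGraph (Fin n)} (φ : G ≃g R) (L : Fin N → Fin n)
    (hL : Function.Injective L) (x : Fin n) (c : ℕ) (hc : c ≤ N)
    (h : ∀ t, G.Adj x (L t) ↔ (t : ℕ) < c) :
    ({y | y ∈ {y | ∃ t, y = φ (L t)} ∧ R.Adj (φ x) y}).ncard = c := by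
  have hset : {y | y ∈ {y | ∃ t, y = φ (L t)} ∧ R.Adj (φ x) y} =
      Set.range (fun t : Fin c => φ (L ⟨t, by have := t.2; omega⟩)) := by
    ext y
    constructor
    · rintro ⟨⟨t, rfl⟩, h2⟩
      rw [φ.map_adj_iff, h] at h2
      exact ⟨⟨t, h2⟩, rfl⟩
    · rintro ⟨t, rfl⟩
      refine ⟨⟨_, rfl⟩, ?_⟩
      rw [φ.map_adj_iff, h]
      exact t.2
  rw [hset, Set.ncard_range_of_injective, Nat.card_eq_fintype_card, Fintype.card_fin]
  intro t t' h
  have h2 := hL (φ.injective h)
  have h3 := congrArg Fin.val h2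
  exact Fin.ext h3

theorem div_unique {m a b j j' : ℕ} (ha : a < m) (hb : b < m) (h : j * m + a = j' * m + b) :
    j = j' ∧ a = b := by
  have h1 : (j * m + a) / m = j := by
    rw [mul_comm, Nat.mul_add_div (by omega), Nat.div_eq_of_lt ha, add_zero]
  have h2 : (j' * m + b) / m = j' := by
    rw [mul_comm, Nat.mul_add_div (by omega), Nat.div_eq_of_lt hb, add_zero]
  have h3 : j = j' := by rw [← h1, h, h2]
  subst h3
  exact ⟨rfl, by omega⟩

theorem lower_abs (n p s m : ℕ) (U : Fin (p + 1) → Fin n) (V : Fin p → Fin s → Fin n)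
    (L R : Fin (s * m) → Fin n) (hL : Function.Injective L) (hR : Function.Injective R)
    (hf : ∀ f : Fin p → Fin s → Fin m × Fin m,
        ∃ (v : Fin n → ℝ × ℝ) (P : Set (ℝ × ℝ)), IsSimplePolygon v P ∧
          GeneralPosition v ∧
          (∀ i j, (visGraph v P).Adj (V i j) (U i.castSucc) ∧
            (visGraph v P).Adj (V i j) (U i.succ)) ∧
          (∀ i i' j, i ≠ i' → ¬ ((visGraph v P).Adj (V i' j) (U i.castSucc) ∧
            (visGraph v P).Adj (V i' j) (U i.succ))) ∧
          (∀ i j t, (visGraph v P).Adj (V i j) (L t) ↔ (t : ℕ) < j * m + (f i j).1) ∧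
          (∀ i j t, (visGraph v P).Adj (V i j) (R t) ↔ (t : ℕ) < (s - 1 - j) * m + (f i j).2)) :
    m ^ (2 * s * p) ≤ NGP n * (n ^ (p + 1) * 8 ^ n) := by
  classical
  let F := Fin p → Fin s → Fin m × Fin m
  choose v P h1 h2 h3 h4 h5 h6 using hf
  let Gr : F → SimpleGraph (Fin n) := fun f => visGraph (v f) (P f)
  let cls : F → Quotient (isoSetoid n) := fun f => Quotient.mk (isoSetoid n) (Gr f)
  have hiso : ∀ f, Nonempty (Gr f ≃g (cls f).out) := by
    intro f
    have h1 : (isoSetoid n) ((cls f).out) (Gr f) := Quotient.mk_out (s := isoSetoid n) (Gr f)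
    obtain ⟨e⟩ := h1
    exact ⟨e.symm⟩
  let φ : ∀ f, Gr f ≃g (cls f).out := fun f => (hiso f).some
  have hmem : ∀ f, cls f ∈ visClassesGP n := fun f => ⟨v f, P f, h1 f, h2 f, rfl⟩
  let SL : F → Set (Fin n) := fun f => {y | ∃ t, y = φ f (L t)}
  let SR : F → Set (Fin n) := fun f => {y | ∃ t, y = φ f (R t)}
  let SV : F → Set (Fin n) := fun f => {y | ∃ i j, y = φ f (V i j)}
  let pos : F → (Fin (p + 1) → Fin n) := fun f i => φ f (U i)
  let Φ : F → visClassesGP n × ((Fin (p + 1) → Fin n) ×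
      (Set (Fin n) × (Set (Fin n) × Set (Fin n)))) := fun f =>
    (⟨cls f, hmem f⟩, (pos f, (SL f, (SR f, SV f))))
  have jm : ∀ j : Fin s, (j : ℕ) * m + m ≤ s * m := by
    intro j
    have h : ((j : ℕ) + 1) * m ≤ s * m := Nat.mul_le_mul_right m j.2
    have e : ((j : ℕ) + 1) * m = j * m + m := by ring
    omega
  have jm' : ∀ j : Fin s, (s - 1 - (j : ℕ)) * m + m ≤ s * m := by
    intro j
    have h : (s - 1 - (j : ℕ) + 1) * m ≤ s * m := Nat.mul_le_mul_right m (by omega)
    have e : (s - 1 - (j : ℕ) + 1) * m = (s - 1 - (j : ℕ)) * m + m := by ring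
    omega
  have cL : ∀ (f : F) (i : Fin p) (j : Fin s),
      ({y | y ∈ SL f ∧ (cls f).out.Adj (φ f (V i j)) y}).ncard = j * m + (f i j).1 := by
    intro f i j
    exact card_nbr (φ f) L hL (V i j) _ (by have := (f i j).1.2; have := jm j; omega)
      (fun t => h5 f i j t)
  have cR : ∀ (f : F) (i : Fin p) (j : Fin s),
      ({y | y ∈ SR f ∧ (cls f).out.Adj (φ f (V i j)) y}).ncard =
        (s - 1 - j) * m + (f i j).2 := by
    intro f i j
    exact card_nbr (φ f) R hR (V i j) _ (by have := (f i j).2.2; have := jm' j; omega)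
      (fun t => h6 f i j t)
  -- the vertices of the pocket `i`
  have hW : ∀ (f : F) (i : Fin p) (x : Fin n), (x ∈ SV f ∧ (cls f).out.Adj x (pos f i.castSucc) ∧
      (cls f).out.Adj x (pos f i.succ)) ↔ ∃ j, x = φ f (V i j) := by
    intro f i x
    constructor
    · rintro ⟨⟨i', j, rfl⟩, a1, a2⟩
      by_cases hii : i = i'
      · subst hii; exact ⟨j, rfl⟩
      · exfalso
        rw [show pos f i.castSucc = φ f (U i.castSucc) from rfl, (φ f).map_adj_iff] at a1
        rw [show pos f i.succ = φ f (U i.succ) from rfl, (φ f).map_adj_iff] at a2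
        exact h4 f i i' j hii ⟨a1, a2⟩
    · rintro ⟨j, rfl⟩
      refine ⟨⟨i, j, rfl⟩, ?_, ?_⟩
      · rw [show pos f i.castSucc = φ f (U i.castSucc) from rfl, (φ f).map_adj_iff]
        exact (h3 f i j).1
      · rw [show pos f i.succ = φ f (U i.succ) from rfl, (φ f).map_adj_iff]
        exact (h3 f i j).2
  have hinj : Function.Injective Φ := by
    intro f f' h
    have e1 : cls f = cls f' := congrArg Subtype.val (congrArg Prod.fst h)
    have e2 : pos f = pos f' := congrArg (fun z => z.2.1) h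
    have e3 : SL f = SL f' := congrArg (fun z => z.2.2.1) h
    have e4 : SR f = SR f' := congrArg (fun z => z.2.2.2.1) h
    have e5 : SV f = SV f' := congrArg (fun z => z.2.2.2.2) h
    funext i j
    have hx : ∃ j', φ f (V i j) = φ f' (V i j') := by
      rw [← hW f' i (φ f (V i j)), ← e5, ← e1, ← e2]
      exact (hW f i _).2 ⟨j, rfl⟩
    obtain ⟨j', hj'⟩ := hx
    have k1 : (j : ℕ) * m + (f i j).1 = j' * m + (f' i j').1 := by
      rw [← cL f i j, ← cL f' i j', hj', e1, e3]
    have k2 : (s - 1 - (j : ℕ)) * m + (f i j).2 = (s - 1 - j') * m + (f' i j').2 := by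
      rw [← cR f i j, ← cR f' i j', hj', e1, e4]
    obtain ⟨k3, k4⟩ := div_unique (f i j).1.2 (f' i j').1.2 k1
    have k5 : j = j' := Fin.ext k3
    subst k5
    obtain ⟨-, k6⟩ := div_unique (f i j).2.2 (f' i j).2.2 k2
    exact Prod.ext (Fin.ext k4) (Fin.ext k6)
  have hfin : Finite (visClassesGP n) := by
    have : Finite (Quotient (isoSetoid n)) := Quotient.finite _
    exact Subtype.finite
  have hc := Nat.card_le_card_of_injective Φ hinj
  rw [Nat.card_prod, Nat.card_prod, Nat.card_prod, Nat.card_prod, Nat.card_coe_set_eq] at hc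
  have c1 : Nat.card F = m ^ (2 * s * p) := by
    simp only [F, Nat.card_eq_fintype_card, Fintype.card_pi, Fintype.card_prod, Fintype.card_fin,
      Finset.prod_const, Finset.card_univ]
    rw [← pow_two, ← pow_mul, ← pow_mul, mul_assoc]
  have c2 : Nat.card (Fin (p + 1) → Fin n) = n ^ (p + 1) := by
    simp [Nat.card_eq_fintype_card]
  have c3 : Nat.card (Set (Fin n)) = 2 ^ n := by
    simp [Nat.card_eq_fintype_card, Fintype.card_set]
  rw [c1, c2, c3] at hc
  calc m ^ (2 * s * p) ≤ (visClassesGP n).ncard * (n ^ (p + 1) * (2 ^ n * (2 ^ n * 2 ^ n))) := hc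
    _ = NGP n * (n ^ (p + 1) * 8 ^ n) := by
      rw [← mul_pow, ← mul_pow]; rfl

theorem lower_count (p s m g : ℕ) (hs : 1 ≤ s) (hm : 1 ≤ m) :
    m ^ (2 * s * p) ≤ NGP (p * (s + 1) + 4 * (s * m) + g + 1) *
      ((p * (s + 1) + 4 * (s * m) + g + 1) ^ (p + 1) * 8 ^ (p * (s + 1) + 4 * (s * m) + g + 1)) := by
  obtain ⟨U, V, L, R, hL, hR, hf⟩ := exists_graphs p s m g hs hm
  rw [← nv_eq p s m g hs hm]
  exact lower_abs _ p s m U V L R hL hR hf

theorem NGP_le_N (n : ℕ) : NGP n ≤ N n := by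
  have hfin : (visClasses n).Finite := by
    have : Finite (Quotient (isoSetoid n)) := Quotient.finite _
    exact Set.toFinite _
  apply Set.ncard_le_ncard _ hfin
  rintro q ⟨v, P, h1, -, h3⟩
  exact ⟨v, P, h1, h3⟩

end Pool.Agent.KS6_47.VG
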