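import Mathlib

/-!
# Visibility graphs of simple polygons: definitions
-/

namespace Pool.Agent.KS6_47.Vis

/-- The `i`-th edge of the closed polygonal curve with the consecutive vertices
`v 0, v 1, …, v (n - 1)`: the segment from `v i` to the cyclically next vertex. -/
def edge {n : ℕ} (v : Fin n → ℝ × ℝ) (i : Fin n) : Set (ℝ × ℝ) :=
  segment ℝ (v i) (v (finRotate n i))

/-- The closed polygonal curve with consecutive vertices `v 0, …, v (n - 1)`. -/
def curve {n : ℕ} (v : Fin n → ℝ × ℝ) : Set (ℝ × ℝ) := ⋃ i, edge v i

/-- `P` is a simple polygon in the plane with the `n` vertices `v 0, …, v (n - 1)` (in boundary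
order): the closed region bounded by the closed polygonal curve through these vertices, which has
no self-intersections. -/
structure IsSimplePolygon {n : ℕ} (v : Fin n → ℝ × ℝ) (P : Set (ℝ × ℝ)) : Prop where
  /-- there are at least three vertices -/
  three_le : 3 ≤ n
  /-- the vertices are distinct -/
  injective : Function.Injective v
  /-- two different edges meet at most in a common endpoint -/
  simple : ∀ i j, i ≠ j →
    edge v i ∩ edge v j ⊆ {v i, v (finRotate n i)} ∩ {v j, v (finRotate n j)}
  /-- the region is compact -/
  compact : IsCompact P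
  /-- the region is the closure of its interior -/
  regular : closure (interior P) = P
  /-- the region is bounded by the curve -/
  boundary : frontier P = curve v

/-- The visibility graph: two vertices are adjacent iff the closed segment joining them lies in the
polygon (boundary included). -/
def visGraph {n : ℕ} (v : Fin n → ℝ × ℝ) (P : Set (ℝ × ℝ)) : SimpleGraph (Fin n) where
  Adj i j := i ≠ j ∧ segment ℝ (v i) (v j) ⊆ P
  symm := ⟨fun i j h => ⟨h.1.symm, by rw [segment_symm]; exact h.2⟩⟩
  loopless := ⟨fun i h => h.1 rfl⟩

/-- Isomorphism of graphs on `n` labelled vertices. -/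
def isoSetoid (n : ℕ) : Setoid (SimpleGraph (Fin n)) where
  r G H := Nonempty (G ≃g H)
  iseqv := ⟨fun _ => ⟨SimpleGraph.Iso.refl⟩, fun ⟨e⟩ => ⟨e.symm⟩, fun ⟨e⟩ ⟨f⟩ => ⟨e.trans f⟩⟩

/-- The isomorphism classes of graphs that arise as visibility graph of a simple polygon with `n`
vertices. -/
def visClasses (n : ℕ) : Set (Quotient (isoSetoid n)) :=
  {q | ∃ (v : Fin n → ℝ × ℝ) (P : Set (ℝ × ℝ)), IsSimplePolygon v P ∧
    q = Quotient.mk (isoSetoid n) (visGraph v P)}

/-- `N n`: the number of isomorphism classes of visibility graphs of simple polygons with `n`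
vertices. -/
noncomputable def N (n : ℕ) : ℕ := (visClasses n).ncard

/-- No three of the points `v i` are collinear. -/
def GeneralPosition {n : ℕ} (v : Fin n → ℝ × ℝ) : Prop :=
  ∀ i j k, i ≠ j → j ≠ k → i ≠ k → ¬ Collinear ℝ {v i, v j, v k}

/-- The isomorphism classes of visibility graphs of simple polygons with `n` vertices, no three of
them collinear. -/
def visClassesGP (n : ℕ) : Set (Quotient (isoSetoid n)) :=
  {q | ∃ (v : Fin n → ℝ × ℝ) (P : Set (ℝ × ℝ)), IsSimplePolygon v P ∧ GeneralPosition v ∧
    q = Quotient.mk (isoSetoid n) (visGraph v P)}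

/-- The number of isomorphism classes of visibility graphs of simple polygons with `n` vertices, no
three of them collinear. -/
noncomputable def NGP (n : ℕ) : ℕ := (visClassesGP n).ncard

end Pool.Agent.KS6_47.Vis
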