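import Pool.Agent.KS6_47.Vis.Orient

/-!
# Invisibility means that the segment leaves the polygon somewhere, and this is a condition on
# orientations
-/

namespace Pool.Agent.KS6_47.Vis

open Set

variable {n : ℕ} {v : Fin n → ℝ × ℝ} {P : Set (ℝ × ℝ)}

/-- orientation of three points -/
def ori (A B C : ℝ × ℝ) : ℝ := cr (B - A) (C - A)

/-- scalar product of `B - A` and `C - A` -/
def dotp (A B C : ℝ × ℝ) : ℝ := (B.1 - A.1) * (C.1 - A.1) + (B.2 - A.2) * (C.2 - A.2)

/-- the segment from `v i` to `v j` leaves the polygon at the vertex `k` -/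
def VExit (σ : ℝ) (v : Fin n → ℝ × ℝ) (i j k : Fin n) : Prop :=
  k ≠ j ∧ ori (v i) (v j) (v k) = 0 ∧ dotp (v k) (v i) (v j) ≤ 0 ∧
    v j - v k ∈ Sec (-σ) (wd v k) (ud v k)

/-- the segment from `v i` to `v j` leaves the polygon through the edge `l` -/
def EExit (σ : ℝ) (v : Fin n → ℝ × ℝ) (i j l : Fin n) : Prop :=
  0 < σ * ori (v l) (v (sc l)) (v i) ∧ σ * ori (v l) (v (sc l)) (v j) < 0 ∧
    ori (v i) (v j) (v l) * ori (v i) (v j) (v (sc l)) < 0

theorem seg_param {A B q : ℝ × ℝ} :
    q ∈ segment ℝ A B ↔ ∃ t : ℝ, 0 ≤ t ∧ t ≤ 1 ∧ q = A + t • (B - A) := by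
  rw [segment_eq_image']
  simp only [mem_image, mem_Icc]
  constructor
  · rintro ⟨a, ⟨h1, h2⟩, h3⟩; exact ⟨a, h1, h2, h3.symm⟩
  · rintro ⟨a, h1, h2, h3⟩; exact ⟨a, ⟨h1, h2⟩, h3.symm⟩

theorem between {A B C : ℝ × ℝ} (hAB : A ≠ B) (h1 : ori A B C = 0) (h2 : dotp C A B ≤ 0) :
    ∃ t : ℝ, 0 ≤ t ∧ t ≤ 1 ∧ C = A + t • (B - A) := by
  have hz : B - A ≠ 0 := sub_ne_zero.2 hAB.symm
  obtain ⟨t, ht⟩ := parallel hz h1
  have hC : C = A + t • (B - A) := by rw [← ht]; abel
  have hn := norm2_pos hz
  refine ⟨t, ?_, ?_, hC⟩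
  all_goals
    rw [hC] at h2
    have h3 : dotp (A + t • (B - A)) A B = -(t * (1 - t)) * ((B - A).1 ^ 2 + (B - A).2 ^ 2) := by
      simp [dotp]; ring
    rw [h3] at h2
    have h4 : 0 ≤ t * (1 - t) := by
      by_contra hc
      push Not at hc
      have := mul_pos (neg_pos.2 hc) hn
      linarith
    nlinarith

section
variable (h : IsSimplePolygon v P)
include h

theorem cross_ev {Q : Set (ℝ × ℝ)} (hQ : Absorbs v Q) {σ : ℝ} (hσ : σ ^ 2 = 1) {l : Fin n}
    (hev : Ev v Q σ l) {a : ℝ} (h0 : 0 < a) (h1 : a < 1) {z : ℝ × ℝ}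
    (hz : 0 < σ * cr (wd v l) z) :
    ∃ δ > 0, ∀ s : ℝ, 0 < s → s < δ → v l + a • wd v l + s • z ∈ Q := by
  have hn := norm2_pos (wd_ne h l)
  set D := (wd v l).1 ^ 2 + (wd v l).2 ^ 2 with hD
  set α : ℝ := ((wd v l).1 * z.1 + (wd v l).2 * z.2) / D with hα
  set β : ℝ := σ * cr (wd v l) z / D with hβ
  have hβp : 0 < β := div_pos hz hn
  have hdec : z = α • wd v l + (β * σ) • rot (wd v l) := by
    have hσ' : β * σ = cr (wd v l) z / D := by
      rw [hβ, div_mul_eq_mul_div]
      congr 1
      have : σ * cr (wd v l) z * σ = σ ^ 2 * cr (wd v l) z := by ring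
      rw [this, hσ, one_mul]
    rw [hσ', hα]
    have hD' : D ≠ 0 := hn.ne'
    ext
    · simp only [Prod.fst_add, Prod.smul_fst, smul_eq_mul, rot]
      field_simp
      rw [hD]; unfold cr; ring
    · simp only [Prod.snd_add, Prod.smul_snd, smul_eq_mul, rot]
      field_simp
      rw [hD]; unfold cr; ring
  obtain ⟨δ, hδ, hs⟩ := strip_ev h hQ hσ hev (a1 := a / 2) (a2 := (a + 1) / 2) (by linarith)
    (by linarith) (by linarith)
  set m : ℝ := min (a / 2) ((1 - a) / 2) with hm
  have hmp : 0 < m := lt_min (by linarith) (by linarith)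
  refine ⟨min (δ / β) (m / (|α| + 1)), lt_min (by positivity) (by positivity), ?_⟩
  intro s hs0 hs1
  have e1 : s < δ / β := lt_of_lt_of_le hs1 (min_le_left _ _)
  have e2 : s < m / (|α| + 1) := lt_of_lt_of_le hs1 (min_le_right _ _)
  rw [lt_div_iff₀ hβp] at e1
  rw [lt_div_iff₀ (by positivity)] at e2
  have e3 : |s * α| ≤ m := by
    rw [abs_mul, abs_of_pos hs0]
    nlinarith
  have e4 := abs_le.1 e3
  have m1 : m ≤ a / 2 := min_le_left _ _
  have m2 : m ≤ (1 - a) / 2 := min_le_right _ _
  have := hs (a + s * α) (s * β) (by linarith) (by linarith) (mul_pos hs0 hβp) e1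
  have heq : v l + a • wd v l + s • z =
      v l + (a + s * α) • wd v l + (s * β * σ) • rot (wd v l) := by
    conv_lhs => rw [hdec]
    rw [smul_add, smul_smul, smul_smul, add_smul, ← mul_assoc]; abel
  rwa [heq]

omit h in
theorem vertex_ev {Q : Set (ℝ × ℝ)} {σ : ℝ} {k : Fin n}
    (hev : Ev v Q σ k) {z : ℝ × ℝ} (hz : z ∈ Sec σ (wd v k) (ud v k)) :
    ∃ δ > 0, ∀ s : ℝ, 0 < s → s < δ → v k + s • z ∈ Q := by
  obtain ⟨δ, hδ, h1⟩ := hev
  refine ⟨δ / (‖z‖ + 1), by positivity, ?_⟩
  intro s hs0 hs1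
  rw [lt_div_iff₀ (by positivity)] at hs1
  apply h1 _ (smul_mem_sec hs0 hz)
  rw [norm_smul, Real.norm_of_nonneg hs0.le]
  nlinarith [norm_nonneg z]

/-- a direction along an edge stays on the curve for a while -/
theorem ray_ev {k : Fin n} {z : ℝ × ℝ}
    (hz : (∃ a : ℝ, 0 ≤ a ∧ z = a • wd v k) ∨ (∃ a : ℝ, 0 ≤ a ∧ z = a • ud v k)) :
    ∃ δ > 0, ∀ s : ℝ, 0 < s → s < δ → v k + s • z ∈ P := by
  rcases hz with ⟨a, ha, rfl⟩ | ⟨a, ha, rfl⟩
  · refine ⟨1 / (a + 1), by positivity, ?_⟩
    intro s hs0 hs1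
    rw [lt_div_iff₀ (by positivity)] at hs1
    apply curve_subset h
    refine mem_iUnion.2 ⟨k, ?_⟩
    rw [edge_eq]
    refine ⟨s * a, by positivity, by nlinarith, by rw [smul_smul]⟩
  · refine ⟨1 / (a + 1), by positivity, ?_⟩
    intro s hs0 hs1
    rw [lt_div_iff₀ (by positivity)] at hs1
    apply curve_subset h
    refine mem_iUnion.2 ⟨pd k, ?_⟩
    rw [edge_eq']
    refine ⟨s * a, by positivity, by nlinarith, by rw [smul_smul]⟩

variable {σ : ℝ} (hσ : σ = 1 ∨ σ = -1) (hint : ∀ k, Ev v (interior P) σ k)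
  (hext : ∀ k, Ev v Pᶜ (-σ) k)
include hσ hint hext

theorem exit_of_not_visible {i j : Fin n} (hij : i ≠ j) (hnv : ¬ segment ℝ (v i) (v j) ⊆ P) :
    (∃ k, VExit σ v i j k) ∨ (∃ l, EExit σ v i j l) := by
  rw [Set.not_subset] at hnv
  obtain ⟨q, hq, hqP⟩ := hnv
  obtain ⟨t1, ht10, ht11, hq1⟩ := seg_param.1 hq
  set z := v j - v i with hz
  have hσ2 : σ ^ 2 = 1 := by rcases hσ with rfl | rfl <;> norm_num
  have hz0 : z ≠ 0 := sub_ne_zero.2 fun h' => hij (h.injective h').symm
  -- last point on the curve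
  set T : Set ℝ := {t | t ∈ Icc 0 t1 ∧ v i + t • z ∈ curve v} with hT
  have hcc : IsClosed (curve v) := by rw [← h.boundary]; exact isClosed_frontier
  have hTc : IsCompact T := by
    have h1 : T = Icc 0 t1 ∩ (fun t : ℝ => v i + t • z) ⁻¹' (curve v) := rfl
    rw [h1]
    exact isCompact_Icc.inter_right (hcc.preimage (by fun_prop))
  have hT0 : T.Nonempty := ⟨0, ⟨le_rfl, ht10⟩, by
    rw [zero_smul, add_zero]; exact mem_iUnion.2 ⟨i, vertex_mem_edge i⟩⟩
  have hmem := hTc.sSup_mem hT0
  set t0 := sSup T with ht0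
  obtain ⟨⟨ht00, ht01⟩, hc⟩ := hmem
  have hlt : t0 < t1 := by
    rcases lt_or_eq_of_le ht01 with h1 | h1
    · exact h1
    · exfalso
      apply hqP
      rw [hq1, ← h1]; exact curve_subset h hc
  have hafter : ∀ s, 0 < s → s < t1 - t0 → (v i + t0 • z) + s • z ∈ Pᶜ := by
    set S : Set (ℝ × ℝ) := (fun t : ℝ => v i + t • z) '' Ioc t0 t1 with hS
    have h1 : S ⊆ Pᶜ := by
      apply absorbs_ext h S
      · exact isPreconnected_Ioc.image _ (by fun_prop)
      · rw [Set.disjoint_left]
        rintro _ ⟨t, ⟨ht, ht'⟩, rfl⟩ hcur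
        have : t ≤ t0 := le_csSup hTc.bddAbove ⟨⟨by linarith, ht'⟩, hcur⟩
        linarith
      · exact ⟨q, ⟨t1, ⟨hlt, le_rfl⟩, hq1.symm⟩, hqP⟩
    intro s hs0 hs1
    apply h1
    refine ⟨t0 + s, ⟨by linarith, by linarith⟩, ?_⟩
    simp only
    rw [add_smul]; abel
  have hc' := hc
  simp only [curve, mem_iUnion] at hc'
  obtain ⟨l, hl⟩ := hc'
  rw [edge_eq] at hl
  obtain ⟨a, ha0, ha1, hca⟩ := hl
  have ht0lt1 : t0 < 1 := by linarith
  -- the vertex case
  have hvert : ∀ k, v i + t0 • z = v k → VExit σ v i j k := by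
    intro k hk
    have hjk : v j - v k = (1 - t0) • z := by
      rw [← hk, sub_smul, one_smul, hz]; abel
    have hzs : z ∈ Sec (-σ) (wd v k) (ud v k) := by
      rw [hk] at hafter
      have hcontra : ∀ {Q : Set (ℝ × ℝ)}, Q ⊆ P →
          (∃ δ > 0, ∀ s : ℝ, 0 < s → s < δ → v k + s • z ∈ Q) → False := by
        rintro Q hQ ⟨δ, hδ, hs⟩
        have hm : 0 < min (δ / 2) ((t1 - t0) / 2) := lt_min (by linarith) (by linarith)
        have h2 := hs _ hm (lt_of_le_of_lt (min_le_left _ _) (by linarith))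
        have h3 := hafter _ hm (lt_of_le_of_lt (min_le_right _ _) (by linarith))
        exact h3 (hQ h2)
      rcases sec_trichotomy (wd_ne h k) (ud_ne h k) (not_same_dir h k) z with h1 | h1 | h1
      · rcases hσ with rfl | rfl
        · exact (hcontra interior_subset (vertex_ev (hint k) h1)).elim
        · simpa using h1
      · rcases hσ with rfl | rfl
        · exact h1
        · exact (hcontra interior_subset (vertex_ev (hint k) h1)).elim
      · exact (hcontra Subset.rfl (ray_ev h h1)).elim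
    refine ⟨?_, ?_, ?_, ?_⟩
    · rintro rfl
      rw [sub_self] at hjk
      rcases smul_eq_zero.1 hjk.symm with h1 | h1
      · linarith
      · exact hz0 h1
    · rw [ori, ← hk]
      have : v i + t0 • z - v i = t0 • z := by abel
      rw [this, ← hz, cr_smul_right, cr_self, mul_zero]
    · have e1 : dotp (v k) (v i) (v j) = -(t0 * (1 - t0)) * (z.1 ^ 2 + z.2 ^ 2) := by
        rw [← hk, hz]; simp [dotp]; ring
      rw [e1]
      have h2 : 0 ≤ t0 * (1 - t0) := mul_nonneg ht00 (by linarith)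
      have h3 := norm2_pos hz0
      nlinarith
    · rw [hjk]; exact smul_mem_sec (by linarith) hzs
  rcases eq_or_lt_of_le ha0 with ha0' | ha0'
  · left
    exact ⟨l, hvert l (by rw [hca, ← ha0', zero_smul, add_zero])⟩
  rcases eq_or_lt_of_le ha1 with ha1' | ha1'
  · left
    exact ⟨sc l, hvert (sc l) (by rw [hca, ha1', one_smul]; unfold wd; abel)⟩
  -- the edge case
  right
  refine ⟨l, ?_⟩
  have hcontra : ∀ {Q : Set (ℝ × ℝ)}, Q ⊆ P →
      (∃ δ > 0, ∀ s : ℝ, 0 < s → s < δ → v l + a • wd v l + s • z ∈ Q) → False := by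
    rintro Q hQ ⟨δ, hδ, hs⟩
    have hm : 0 < min (δ / 2) ((t1 - t0) / 2) := lt_min (by linarith) (by linarith)
    have h2 := hs _ hm (lt_of_le_of_lt (min_le_left _ _) (by linarith))
    have h3 := hafter _ hm (lt_of_le_of_lt (min_le_right _ _) (by linarith))
    rw [hca] at h3
    exact h3 (hQ h2)
  have hneg : σ * cr (wd v l) z < 0 := by
    rcases lt_trichotomy (σ * cr (wd v l) z) 0 with h1 | h1 | h1
    · exact h1
    · exfalso
      have hσ0 : σ ≠ 0 := by rcases hσ with rfl | rfl <;> norm_num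
      have h2 : cr (wd v l) z = 0 := by
        rcases mul_eq_zero.1 h1 with h3 | h3
        · exact absurd h3 hσ0
        · exact h3
      obtain ⟨c, hcz⟩ := parallel (wd_ne h l) h2
      apply hcontra (Q := P) Subset.rfl
      set m : ℝ := min a (1 - a) with hm
      have hmp : 0 < m := lt_min ha0' (by linarith)
      refine ⟨m / (|c| + 1), by positivity, ?_⟩
      intro s hs0 hs1
      rw [lt_div_iff₀ (by positivity)] at hs1
      have e3 : |s * c| ≤ m := by
        rw [abs_mul, abs_of_pos hs0]; nlinarith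
      have e4 := abs_le.1 e3
      have m1 : m ≤ a := min_le_left _ _
      have m2 : m ≤ 1 - a := min_le_right _ _
      apply curve_subset h
      refine mem_iUnion.2 ⟨l, ?_⟩
      rw [edge_eq]
      refine ⟨a + s * c, by linarith, by linarith, ?_⟩
      rw [hcz, smul_smul, add_smul]; abel
    · exact (hcontra interior_subset
        (cross_ev h (absorbs_int h) hσ2 (hint l) ha0' ha1' h1)).elim
  have hcrne : cr (wd v l) z ≠ 0 := by
    intro h0; rw [h0, mul_zero] at hneg; exact lt_irrefl _ hneg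
  have ht0pos : 0 < t0 := by
    rcases eq_or_lt_of_le ht00 with h1 | h1
    · exfalso
      rw [← h1, zero_smul, add_zero] at hca
      have hvi : v i ∈ edge v l := by rw [edge_eq]; exact ⟨a, ha0, ha1, hca⟩
      rcases vertex_edge h hvi with h2 | h2
      · subst h2
        have : a • wd v l = 0 := by simpa using hca.symm
        rcases smul_eq_zero.1 this with h3 | h3
        · linarith
        · exact wd_ne h l h3
      · have h3 : sc l = i := by rw [h2, sc_pd]
        have h4 : v i = v l + wd v l := by rw [← h3]; unfold wd; abel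
        have h5 : (1 - a) • wd v l = 0 := by
          rw [sub_smul, one_smul, sub_eq_zero]
          exact add_left_cancel (h4.symm.trans hca)
        rcases smul_eq_zero.1 h5 with h6 | h6
        · linarith
        · exact wd_ne h l h6
    · exact h1
  have evi : v i - v l = a • wd v l - t0 • z := by
    have : v i = v l + a • wd v l - t0 • z := by rw [← hca]; abel
    rw [this]; abel
  have evj : v j - v l = a • wd v l + (1 - t0) • z := by
    have : v j = v i + z := by rw [hz]; abel
    rw [this, sub_smul, one_smul]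
    have h2 : v i + z - v l = (v i - v l) + z := by abel
    rw [h2, evi]; abel
  have wdl : v (sc l) - v l = wd v l := rfl
  refine ⟨?_, ?_, ?_⟩
  · have e1 : σ * ori (v l) (v (sc l)) (v i) = -t0 * (σ * cr (wd v l) z) := by
      rw [ori, wdl, evi]; simp [cr]; ring
    rw [e1]; nlinarith
  · have e1 : σ * ori (v l) (v (sc l)) (v j) = (1 - t0) * (σ * cr (wd v l) z) := by
      rw [ori, wdl, evj]; simp [cr]; ring
    rw [e1]; nlinarith
  · have e1 : ori (v i) (v j) (v l) = a * cr (wd v l) z := by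
      rw [ori, ← hz]
      have : v l - v i = t0 • z - a • wd v l := by
        have h3 : v l - v i = -(v i - v l) := by abel
        rw [h3, evi]; abel
      rw [this]; simp [cr]; ring
    have e2 : ori (v i) (v j) (v (sc l)) = (a - 1) * cr (wd v l) z := by
      rw [ori, ← hz]
      have : v (sc l) - v i = t0 • z - a • wd v l + wd v l := by
        have h3 : v (sc l) - v i = -(v i - v l) + wd v l := by unfold wd; abel
        rw [h3, evi]; abel
      rw [this]; simp [cr]; ring
    rw [e1, e2]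
    have h3 : 0 < (cr (wd v l) z) ^ 2 := by positivity
    have h4 : 0 < a * (1 - a) := mul_pos ha0' (by linarith)
    have h5 : a * cr (wd v l) z * ((a - 1) * cr (wd v l) z) =
      -((a * (1 - a)) * (cr (wd v l) z) ^ 2) := by ring
    rw [h5]
    have := mul_pos h4 h3
    linarith

omit hint in
theorem not_visible_of_exit {i j : Fin n} (hij : i ≠ j)
    (hex : (∃ k, VExit σ v i j k) ∨ (∃ l, EExit σ v i j l)) : ¬ segment ℝ (v i) (v j) ⊆ P := by
  intro hsub
  have hσ2 : (-σ) ^ 2 = 1 := by rcases hσ with rfl | rfl <;> norm_num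
  have hvij : v i ≠ v j := fun h' => hij (h.injective h')
  rcases hex with ⟨k, hkj, h1, h2, h3⟩ | ⟨l, h1, h2, h3⟩
  · obtain ⟨t, ht0, ht1, ht⟩ := between hvij h1 h2
    obtain ⟨δ, hδ, hs⟩ := vertex_ev (hext k) h3
    have hm : 0 < min (δ / 2) 1 := lt_min (by linarith) one_pos
    set s := min (δ / 2) 1 with hsdef
    have h4 := hs s hm (lt_of_le_of_lt (min_le_left _ _) (by linarith))
    apply h4
    apply hsub
    rw [seg_param]
    have hs1 : s ≤ 1 := min_le_right _ _
    refine ⟨t + s * (1 - t), by nlinarith, by nlinarith, ?_⟩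
    rw [ht]
    have : v j - (v i + t • (v j - v i)) = (1 - t) • (v j - v i) := by
      rw [sub_smul, one_smul]; abel
    rw [this, smul_smul, add_smul]; abel
  · -- the crossing point
    set z := v j - v i with hz
    set p := ori (v l) (v (sc l)) (v i) with hp
    set q := ori (v l) (v (sc l)) (v j) with hq
    set α := ori (v i) (v j) (v l) with hα
    set β := ori (v i) (v j) (v (sc l)) with hβ
    have hcr : cr (wd v l) z = q - p := by
      rw [hq, hp, ori, ori, hz]; simp [cr, wd]; ring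
    have hcr2 : cr (wd v l) z = α - β := by
      rw [hα, hβ, ori, ori, hz]; simp [cr, wd]; ring
    have hneg : 0 < (-σ) * cr (wd v l) z := by rw [hcr]; nlinarith
    have hcrne : cr (wd v l) z ≠ 0 := by
      intro h0; rw [h0, mul_zero] at hneg; exact lt_irrefl _ hneg
    have hqp : q - p ≠ 0 := by rw [← hcr]; exact hcrne
    have hαβ : α - β ≠ 0 := by rw [← hcr2]; exact hcrne
    -- parameters
    set a := α / (α - β) with ha
    set t := -p / (q - p) with ht
    have ha01 : 0 < a ∧ a < 1 := by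
      rcases mul_neg_iff.1 h3 with ⟨hα0, hβ0⟩ | ⟨hα0, hβ0⟩
      · have : 0 < α - β := by linarith
        exact ⟨div_pos hα0 this, by rw [ha, div_lt_one this]; linarith⟩
      · have : α - β < 0 := by linarith
        exact ⟨div_pos_of_neg_of_neg hα0 this, by rw [ha, div_lt_one_of_neg this]; linarith⟩
    have ht01 : 0 < t ∧ t < 1 := by
      rcases hσ with rfl | rfl
      · have h5 : q - p < 0 := by linarith
        exact ⟨div_pos_of_neg_of_neg (by linarith) h5, by
          rw [ht, div_lt_one_of_neg h5]; linarith⟩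
      · have h5 : 0 < q - p := by linarith
        exact ⟨div_pos (by linarith) h5, by rw [ht, div_lt_one h5]; linarith⟩
    have hpt : v l + a • wd v l = v i + t • z := by
      have e1 : a * (α - β) = α := by rw [ha]; exact div_mul_cancel₀ _ hαβ
      have e2 : t * (q - p) = -p := by rw [ht]; exact div_mul_cancel₀ _ hqp
      set e := v l + a • wd v l - (v i + t • z) with he
      have c1 : cr (wd v l) e = 0 := by
        have : cr (wd v l) e = -p - t * cr (wd v l) z := by
          rw [he, hp, ori]; simp [cr, wd]; ring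
        rw [this, hcr]; linarith
      have c2 : cr e z = 0 := by
        have : cr e z = - α + a * cr (wd v l) z := by
          rw [he, hα, ori, ← hz]; simp [cr]; ring
        rw [this, hcr2]; linarith
      have := cramer hcrne e
      rw [c1, c2] at this
      simp only [zero_div, zero_smul, add_zero] at this
      exact sub_eq_zero.1 (he ▸ this)
    obtain ⟨δ, hδ, hs⟩ := cross_ev h (absorbs_ext h) hσ2 (hext l) ha01.1 ha01.2 hneg
    set s := min (δ / 2) (1 - t) with hsdef
    have hm : 0 < s := lt_min (by linarith) (by linarith [ht01.2])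
    have h4 := hs s hm (lt_of_le_of_lt (min_le_left _ _) (by linarith))
    apply h4
    apply hsub
    rw [seg_param, hpt]
    have hs1 : s ≤ 1 - t := min_le_right _ _
    refine ⟨t + s, by linarith [ht01.1], by linarith, ?_⟩
    rw [add_smul]; abel

end

end Pool.Agent.KS6_47.Vis
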