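import Pool.Agent.KS6_47.Vis.Pert

/-!
# A family of polygons: pockets with several vertices, each with its own view
-/

set_option autoImplicit false

namespace Pool.Agent.KS6_47.VG

open Pool.Agent.KS6_47.Vis Set

/-! ## algebra -/

theorem alg_l1 {X c al d x y : ℝ} (hX : X ≤ c) (hal : c - X < al) (hd : 0 < d) (hy : y ≤ 0)
    (hx : x ≤ c) : dt (X, 1) (c + al * d, -d) (x, y) < 0 := by
  unfold dt
  simp only
  have h1 : 0 ≤ c - X := by linarith
  have h2 : 0 ≤ (c + al * d - X) * (-y) := mul_nonneg (by nlinarith) (by linarith)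
  have h3 : (x - X) * (1 + d) ≤ (c - X) * (1 + d) := by nlinarith
  have h4 : 0 < d * (al - (c - X)) := mul_pos hd (by linarith)
  nlinarith

theorem alg_l2 {X c al be d am bm dm : ℝ} (hX : X ≤ c) (hal : c - X < al) (hbe : 0 < be)
    (ham : 0 < am) (hmal : am < al) (hbm : be ≤ bm) (hd : d * (al + be) = 1)
    (hdm : dm * (am + bm) = 1) : dt (X, 1) (c + al * d, -d) (c + am * dm, -dm) < 0 := by
  have hd0 : 0 < d := by
    by_contra h
    push Not at h
    nlinarith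
  have hdm0 : 0 < dm := by
    by_contra h
    push Not at h
    nlinarith
  unfold dt
  simp only
  have key : (c + al * d - X) * (-dm - 1) - (c + am * dm - X) * (-d - 1) =
      d * dm * (-(al - am) * ((c - X) + be + 1) - (bm - be) * (al - (c - X))) := by
    have e1 : d * (al + be) * (dm * (am - (c - X))) = dm * (am - (c - X)) := by rw [hd, one_mul]
    have e2 : dm * (am + bm) * (d * (al - (c - X))) = d * (al - (c - X)) := by rw [hdm, one_mul]
    linear_combination e2 - e1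
  rw [key]
  have h1 : 0 < (al - am) * ((c - X) + be + 1) := mul_pos (by linarith) (by linarith)
  have h2 : 0 ≤ (bm - be) * (al - (c - X)) := mul_nonneg (by linarith) (by linarith)
  have h3 : 0 < d * dm := mul_pos hd0 hdm0
  nlinarith

theorem alg_l3 {X c al d : ℝ} (hal : al < c - X) (hd : 0 < d) :
    0 < dt (X, 1) (c + al * d, -d) (c, 0) := by
  unfold dt
  simp only
  have : 0 < d * (c - X - al) := mul_pos hd (by linarith)
  nlinarith

theorem alg_r1 {X c be d x y : ℝ} (hX : c ≤ X) (hbe : X - c < be) (hd : 0 < d) (hy : y ≤ 0)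
    (hx : c ≤ x) : dt (c - be * d, -d) (X, 1) (x, y) < 0 := by
  unfold dt
  simp only
  have h1 : 0 ≤ X - c := by linarith
  have h2 : 0 ≤ (X - c + be * d) * (-y) := mul_nonneg (by nlinarith) (by linarith)
  have h3 : 0 ≤ (x - c) * (1 + d) := mul_nonneg (by linarith) (by linarith)
  have h4 : 0 < d * (be - (X - c)) := mul_pos hd (by linarith)
  nlinarith

theorem alg_r2 {X c al be d am bm dm : ℝ} (hX : c ≤ X) (hbe : X - c < be) (hal : 0 < al)
    (hbm : 0 < bm) (hmbe : bm < be) (ham : al ≤ am) (hd : d * (al + be) = 1)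
    (hdm : dm * (am + bm) = 1) : dt (c - be * d, -d) (X, 1) (c - bm * dm, -dm) < 0 := by
  have hd0 : 0 < d := by
    by_contra h
    push Not at h
    nlinarith
  have hdm0 : 0 < dm := by
    by_contra h
    push Not at h
    nlinarith
  unfold dt
  simp only
  have key : (X - (c - be * d)) * (-dm - -d) - (c - bm * dm - (c - be * d)) * (1 - -d) =
      d * dm * (-(be - bm) * ((X - c) + al + 1) - (am - al) * (be - (X - c))) := by
    have e1 : d * (al + be) * (dm * (bm - (X - c))) = dm * (bm - (X - c)) := by rw [hd, one_mul]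
    have e2 : dm * (am + bm) * (d * (be - (X - c))) = d * (be - (X - c)) := by rw [hdm, one_mul]
    linear_combination e2 - e1
  rw [key]
  have h1 : 0 < (be - bm) * ((X - c) + al + 1) := mul_pos (by linarith) (by linarith)
  have h2 : 0 ≤ (am - al) * (be - (X - c)) := mul_nonneg (by linarith) (by linarith)
  have h3 : 0 < d * dm := mul_pos hd0 hdm0
  nlinarith

theorem alg_r3 {X c be d : ℝ} (hbe : be < X - c) (hd : 0 < d) :
    0 < dt (c - be * d, -d) (X, 1) (c, 0) := by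
  unfold dt
  simp only
  have : 0 < d * (X - c - be) := mul_pos hd (by linarith)
  nlinarith

/-! ## the parameters -/

/-- the parameters of the family: `p` pockets with `s` vertices each, `K` targets on both sides,
`g` additional vertices; the `j`-th vertex of the `i`-th pocket sees `l i j` targets on the left and
`r i j` targets on the right -/
structure Par where
  p : ℕ
  s : ℕ
  K : ℕ
  g : ℕ
  l : ℕ → ℕ → ℕ
  r : ℕ → ℕ → ℕ
  hK : 1 ≤ K
  hl : ∀ i j j', i < p → j < j' → j' < s → l i j < l i j'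
  hr : ∀ i j j', i < p → j < j' → j' < s → r i j' < r i j

namespace Par

variable (Q : Par)

noncomputable def al (i j : ℕ) : ℝ := i + Q.l i j + 1 / 2
noncomputable def be (i j : ℕ) : ℝ := Q.p - i - 1 + Q.r i j + 1 / 2
noncomputable def dep (i j : ℕ) : ℝ := 1 / (Q.al i j + Q.be i j)

theorem al_pos (i j : ℕ) : 0 < Q.al i j := by unfold al; positivity

theorem be_pos {i : ℕ} (hi : i < Q.p) (j : ℕ) : 0 < Q.be i j := by
  unfold be
  have h1 : (i : ℝ) + 1 ≤ Q.p := by exact_mod_cast hi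
  have h2 : (0 : ℝ) ≤ Q.r i j := Nat.cast_nonneg _
  linarith

theorem dep_pos {i : ℕ} (hi : i < Q.p) (j : ℕ) : 0 < Q.dep i j := by
  have h1 := Q.al_pos i j
  have h2 := Q.be_pos hi j
  unfold dep
  positivity

theorem dep_mul {i : ℕ} (hi : i < Q.p) (j : ℕ) : Q.dep i j * (Q.al i j + Q.be i j) = 1 := by
  have h1 := Q.al_pos i j
  have h2 := Q.be_pos hi j
  unfold dep
  rw [one_div, inv_mul_cancel₀ (by linarith : Q.al i j + Q.be i j ≠ 0).symm.symm]

theorem al_lt {i j j' : ℕ} (hi : i < Q.p) (hj : j < j') (hj' : j' < Q.s) :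
    Q.al i j < Q.al i j' := by
  have : (Q.l i j : ℝ) < Q.l i j' := by exact_mod_cast Q.hl i j j' hi hj hj'
  unfold al
  linarith

theorem be_lt {i j j' : ℕ} (hi : i < Q.p) (hj : j < j') (hj' : j' < Q.s) :
    Q.be i j' < Q.be i j := by
  have : (Q.r i j' : ℝ) < Q.r i j := by exact_mod_cast Q.hr i j j' hi hj hj'
  unfold be
  linarith

/-- abscissa of the `j`-th vertex of the pocket `i` -/
noncomputable def xi (i j : ℕ) : ℝ := Q.K + i + Q.al i j * Q.dep i j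

theorem xi_eq {i : ℕ} (hi : i < Q.p) (j : ℕ) :
    Q.xi i j = Q.K + i + 1 - Q.be i j * Q.dep i j := by
  have := Q.dep_mul hi j
  unfold xi
  linarith

theorem xi_gt {i : ℕ} (hi : i < Q.p) (j : ℕ) : (Q.K : ℝ) + i < Q.xi i j := by
  have h1 := mul_pos (Q.al_pos i j) (Q.dep_pos hi j)
  unfold xi
  linarith

theorem xi_lt {i : ℕ} (hi : i < Q.p) (j : ℕ) : Q.xi i j < Q.K + i + 1 := by
  have h1 := mul_pos (Q.be_pos hi j) (Q.dep_pos hi j)
  rw [Q.xi_eq hi]
  linarith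

theorem xi_mono {i j j' : ℕ} (hi : i < Q.p) (hj : j < j') (hj' : j' < Q.s) :
    Q.xi i j < Q.xi i j' := by
  have h1 := Q.al_lt hi hj hj'
  have h2 := Q.be_lt hi hj hj'
  have a1 := Q.al_pos i j
  have a2 := Q.al_pos i j'
  have b1 := Q.be_pos hi j
  have b2 := Q.be_pos hi j'
  unfold xi dep
  have : Q.al i j * (1 / (Q.al i j + Q.be i j)) < Q.al i j' * (1 / (Q.al i j' + Q.be i j')) := by
    rw [mul_one_div, mul_one_div, div_lt_div_iff₀ (by linarith) (by linarith)]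
    nlinarith
  linarith

/-- the lower vertices -/
noncomputable def wb (k : ℕ) : ℝ × ℝ :=
  if k = 0 then (0, 0)
  else if (k - 1) / (Q.s + 1) < Q.p then
    if (k - 1) % (Q.s + 1) = 0 then ((Q.K : ℝ) + ((k - 1) / (Q.s + 1) : ℕ), 0)
    else (Q.xi ((k - 1) / (Q.s + 1)) ((k - 1) % (Q.s + 1) - 1),
      - Q.dep ((k - 1) / (Q.s + 1)) ((k - 1) % (Q.s + 1) - 1))
  else ((Q.K : ℝ) + Q.p + ((k - 1 - Q.p * (Q.s + 1) : ℕ) : ℝ) * (Q.K / (Q.g + 1)), 0)

/-- the upper vertices, from left to right -/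
noncomputable def wt (m : ℕ) : ℝ × ℝ :=
  if m ≤ 2 * Q.K - 2 then ((m : ℝ) / 2, if m % 2 = 0 then 1 else 2)
  else ((Q.K : ℝ) + Q.p + 1 + ((m - (2 * Q.K - 1) : ℕ) : ℝ) / 2,
    if (m - (2 * Q.K - 1)) % 2 = 0 then 1 else 2)

/-- number of lower edges -/
def B : ℕ := Q.p * (Q.s + 1) + Q.g + 2
/-- number of upper edges -/
def T : ℕ := 4 * Q.K - 3

/-- all vertices in boundary order -/
noncomputable def w (k : ℕ) : ℝ × ℝ := if k ≤ Q.B then Q.wb k else Q.wt (Q.B + 1 + Q.T - k)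

/-- index of a peak -/
def iU (i : ℕ) : ℕ := 1 + i * (Q.s + 1)
/-- index of a pocket vertex -/
def iV (i j : ℕ) : ℕ := 1 + i * (Q.s + 1) + (j + 1)
/-- index of a left target -/
def iL (t : ℕ) : ℕ := Q.B + 1 + Q.T - 2 * (Q.K - t)
/-- index of a right target -/
def iR (t : ℕ) : ℕ := Q.B + 1 + Q.T - (2 * Q.K - 1 + 2 * (t - 1))

theorem wb_zero : Q.wb 0 = (0, 0) := if_pos rfl

theorem divs (i j : ℕ) (hj : j ≤ Q.s) : (1 + i * (Q.s + 1) + j - 1) / (Q.s + 1) = i ∧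
    (1 + i * (Q.s + 1) + j - 1) % (Q.s + 1) = j := by
  have e : 1 + i * (Q.s + 1) + j - 1 = j + (Q.s + 1) * i := by
    rw [mul_comm i]; omega
  rw [e]
  constructor
  · rw [Nat.add_mul_div_left _ _ (Nat.succ_pos _), Nat.div_eq_of_lt (by omega), zero_add]
  · rw [Nat.add_mul_mod_self_left, Nat.mod_eq_of_lt (by omega)]

theorem wb_pad (t : ℕ) : Q.wb (1 + Q.p * (Q.s + 1) + t) =
    ((Q.K : ℝ) + Q.p + (t : ℝ) * (Q.K / (Q.g + 1)), 0) := by
  unfold wb
  rw [if_neg (by omega), if_neg]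
  · congr 4
    omega
  · rw [not_lt, Nat.le_div_iff_mul_le (Nat.succ_pos _)]
    have : Q.p * (Q.s + 1) = Q.p * Q.s.succ := rfl
    omega

theorem wb_U {i : ℕ} (hi : i ≤ Q.p) : Q.wb (Q.iU i) = ((Q.K : ℝ) + i, 0) := by
  rcases Nat.eq_or_lt_of_le hi with h | h
  · subst h
    have := Q.wb_pad 0
    simp only [Nat.cast_zero, zero_mul, add_zero] at this
    exact this
  · unfold wb iU
    obtain ⟨h1, h2⟩ := Q.divs i 0 (Nat.zero_le _)
    rw [add_zero] at h1 h2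
    rw [if_neg (by omega), h1, h2, if_pos h, if_pos rfl]

theorem wb_V {i j : ℕ} (hi : i < Q.p) (hj : j < Q.s) :
    Q.wb (Q.iV i j) = (Q.xi i j, - Q.dep i j) := by
  unfold wb iV
  obtain ⟨h1, h2⟩ := Q.divs i (j + 1) hj
  rw [if_neg (by omega), h1, h2, if_pos hi, if_neg (by omega)]
  rfl

theorem wb_nonpos (k : ℕ) : (Q.wb k).2 ≤ 0 := by
  unfold wb
  split_ifs with h1 h2 h3
  · exact le_rfl
  · exact le_rfl
  · have := Q.dep_pos h2 ((k - 1) % (Q.s + 1) - 1)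
    simp only
    linarith
  · exact le_rfl

theorem one_le_wt (m : ℕ) : 1 ≤ (Q.wt m).2 := by
  unfold wt
  split_ifs <;> norm_num

/-- all indices of lower vertices -/
theorem cases_bot {k : ℕ} (hk : k ≤ Q.B) : k = 0 ∨ (∃ i j, i < Q.p ∧ j ≤ Q.s ∧
    k = 1 + i * (Q.s + 1) + j) ∨ ∃ t, t ≤ Q.g + 1 ∧ k = 1 + Q.p * (Q.s + 1) + t := by
  rcases Nat.eq_zero_or_pos k with h | h
  · exact Or.inl h
  · right
    by_cases h2 : (k - 1) / (Q.s + 1) < Q.p
    · left
      refine ⟨(k - 1) / (Q.s + 1), (k - 1) % (Q.s + 1), h2, ?_, ?_⟩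
      · have := Nat.mod_lt (k - 1) (Nat.succ_pos Q.s)
        have e : Q.s.succ = Q.s + 1 := rfl
        rw [e] at this
        omega
      · have := Nat.div_add_mod (k - 1) (Q.s + 1)
        rw [mul_comm] at this
        omega
    · right
      rw [not_lt, Nat.le_div_iff_mul_le (Nat.succ_pos _)] at h2
      have e : Q.p * Q.s.succ = Q.p * (Q.s + 1) := rfl
      rw [e] at h2
      unfold B at hk
      exact ⟨k - 1 - Q.p * (Q.s + 1), by omega, by omega⟩

theorem K_pos : (1 : ℝ) ≤ Q.K := by exact_mod_cast Q.hK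

theorem wb_step {k : ℕ} (hk : k < Q.B) : (Q.wb k).1 < (Q.wb (k + 1)).1 := by
  have hK := Q.K_pos
  rcases Q.cases_bot hk.le with rfl | ⟨i, j, hi, hj, rfl⟩ | ⟨t, ht, rfl⟩
  · have h := Q.wb_U (Nat.zero_le Q.p)
    have e : Q.iU 0 = 0 + 1 := by unfold iU; ring
    rw [e] at h
    rw [wb_zero, h]
    push_cast
    linarith
  · rcases Nat.eq_zero_or_pos j with h | h
    · subst h
      have h1 := Q.wb_U hi.le
      unfold iU at h1
      rw [add_zero, h1]
      rcases Nat.eq_zero_or_pos Q.s with hs | hs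
      · have h2 := Q.wb_U (i := i + 1) hi
        have e : Q.iU (i + 1) = 1 + i * (Q.s + 1) + 1 := by unfold iU; rw [hs]; ring
        rw [e] at h2
        rw [h2]
        push_cast
        linarith
      · have h2 := Q.wb_V (j := 0) hi hs
        unfold iV at h2
        rw [zero_add] at h2
        rw [h2]
        exact Q.xi_gt hi 0
    · obtain ⟨j, rfl⟩ : ∃ j', j = j' + 1 := ⟨j - 1, by omega⟩
      have h1 := Q.wb_V (j := j) hi (by omega)
      unfold iV at h1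
      rw [h1]
      rcases Nat.lt_or_ge (j + 1) Q.s with h2 | h2
      · have h3 := Q.wb_V hi h2
        unfold iV at h3
        rw [show 1 + i * (Q.s + 1) + (j + 1) + 1 = 1 + i * (Q.s + 1) + (j + 1 + 1) by ring, h3]
        exact Q.xi_mono hi (Nat.lt_succ_self j) h2
      · have h2' : j + 1 = Q.s := by omega
        have h3 := Q.wb_U (i := i + 1) hi
        have e : Q.iU (i + 1) = 1 + i * (Q.s + 1) + (j + 1) + 1 := by
          unfold iU; rw [← h2']; ring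
        rw [e] at h3
        rw [h3]
        have := Q.xi_lt hi j
        push_cast
        linarith
  · rw [show 1 + Q.p * (Q.s + 1) + t + 1 = 1 + Q.p * (Q.s + 1) + (t + 1) by ring, wb_pad, wb_pad]
    have : (0 : ℝ) < Q.K / (Q.g + 1) := by positivity
    push_cast
    linarith

theorem wb_lt {i j : ℕ} (hij : i < j) (hj : j ≤ Q.B) : (Q.wb i).1 < (Q.wb j).1 := by
  induction j, hij using Nat.le_induction with
  | base => exact Q.wb_step hj
  | succ j hij ih => exact (ih (by omega)).trans (Q.wb_step (by omega))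

theorem wt_step {m : ℕ} (_hm : m < Q.T) : (Q.wt m).1 < (Q.wt (m + 1)).1 := by
  have hK := Q.K_pos
  have hK' := Q.hK
  unfold wt
  by_cases h1 : m + 1 ≤ 2 * Q.K - 2
  · rw [if_pos (by omega), if_pos h1]
    push_cast
    linarith
  · by_cases h2 : m ≤ 2 * Q.K - 2
    · rw [if_pos h2, if_neg h1]
      have h3 : m = 2 * Q.K - 2 := by omega
      have h4 : (m : ℝ) ≤ 2 * Q.K := by
        have : m ≤ 2 * Q.K := by omega
        exact_mod_cast this
      have h5 : (0 : ℝ) ≤ ((m + 1 - (2 * Q.K - 1) : ℕ) : ℝ) / 2 := by positivity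
      have h6 : (0 : ℝ) ≤ Q.p := Nat.cast_nonneg _
      simp only
      linarith
    · rw [if_neg h2, if_neg h1]
      have h3 : m + 1 - (2 * Q.K - 1) = m - (2 * Q.K - 1) + 1 := by omega
      rw [h3]
      push_cast
      linarith

theorem w_bot {k : ℕ} (hk : k ≤ Q.B) : Q.w k = Q.wb k := if_pos hk

theorem w_top {m : ℕ} (hm : m ≤ Q.T) : Q.w (Q.B + 1 + Q.T - m) = Q.wt m := by
  unfold w
  rw [if_neg (by omega)]
  congr 1
  omega

theorem hp {k : ℕ} (hk : k < Q.B) : (Q.w k).1 < (Q.w (k + 1)).1 := by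
  rw [Q.w_bot hk.le, Q.w_bot hk]
  exact Q.wb_step hk

theorem hq {k : ℕ} (h1 : Q.B + 1 ≤ k) (h2 : k < Q.B + 1 + Q.T) :
    (Q.w (k + 1)).1 < (Q.w k).1 := by
  obtain ⟨m, hm, rfl⟩ : ∃ m, m < Q.T ∧ k = Q.B + 1 + Q.T - (m + 1) :=
    ⟨Q.B + 1 + Q.T - k - 1, by omega, by omega⟩
  rw [Q.w_top hm, show Q.B + 1 + Q.T - (m + 1) + 1 = Q.B + 1 + Q.T - m by omega, Q.w_top hm.le]
  exact Q.wt_step hm

theorem h0 : (Q.w 0).1 = (Q.w (Q.B + 1 + Q.T)).1 := by
  have h := Q.w_top (Nat.zero_le Q.T)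
  rw [Nat.sub_zero] at h
  rw [h, Q.w_bot (Nat.zero_le _), wb_zero]
  unfold wt
  rw [if_pos (Nat.zero_le _)]
  simp

theorem h1 : (Q.w Q.B).1 = (Q.w (Q.B + 1)).1 := by
  have h := Q.w_top (le_refl Q.T)
  rw [Nat.add_sub_cancel] at h
  rw [h, Q.w_bot le_rfl]
  have e : Q.B = 1 + Q.p * (Q.s + 1) + (Q.g + 1) := by unfold B; ring
  rw [e, wb_pad]
  have hK := Q.hK
  unfold wt
  rw [if_neg (by unfold T; omega)]
  have e2 : Q.T - (2 * Q.K - 1) = 2 * (Q.K - 1) := by unfold T; omega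
  rw [e2]
  push_cast [Nat.cast_sub hK]
  have : (Q.g : ℝ) + 1 ≠ 0 := by positivity
  field_simp
  ring

theorem sp {k : ℕ} (hk : k ≤ Q.B) : (Q.w k).2 < 1 / 2 := by
  rw [Q.w_bot hk]
  have := Q.wb_nonpos k
  linarith

theorem one_le_w {k : ℕ} (h1 : Q.B + 1 ≤ k) (h2 : k ≤ Q.B + 1 + Q.T) : 1 ≤ (Q.w k).2 := by
  obtain ⟨m, hm, rfl⟩ : ∃ m, m ≤ Q.T ∧ k = Q.B + 1 + Q.T - m :=
    ⟨Q.B + 1 + Q.T - k, by omega, by omega⟩
  rw [Q.w_top hm]
  exact Q.one_le_wt m

theorem sq {k : ℕ} (h1 : Q.B + 1 ≤ k) (h2 : k ≤ Q.B + 1 + Q.T) : 1 / 2 < (Q.w k).2 := by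
  have := Q.one_le_w h1 h2
  linarith

theorem iU_le {i : ℕ} (hi : i ≤ Q.p) : Q.iU i ≤ Q.B := by
  unfold iU B
  have := Nat.mul_le_mul_right (Q.s + 1) hi
  omega

theorem iV_lt {i j : ℕ} (hj : j < Q.s) : Q.iV i j < Q.iU (i + 1) := by
  unfold iV iU
  have : (i + 1) * (Q.s + 1) = i * (Q.s + 1) + (Q.s + 1) := by ring
  omega

theorem iV_le {i j : ℕ} (hi : i < Q.p) (hj : j < Q.s) : Q.iV i j ≤ Q.B :=
  (Q.iV_lt hj).le.trans (Q.iU_le hi)

theorem w_U {i : ℕ} (hi : i ≤ Q.p) : Q.w (Q.iU i) = ((Q.K : ℝ) + i, 0) := by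
  rw [Q.w_bot (Q.iU_le hi), Q.wb_U hi]

theorem w_V {i j : ℕ} (hi : i < Q.p) (hj : j < Q.s) :
    Q.w (Q.iV i j) = ((Q.K : ℝ) + i + Q.al i j * Q.dep i j, - Q.dep i j) := by
  rw [Q.w_bot (Q.iV_le hi hj), Q.wb_V hi hj]
  rfl

theorem w_V' {i j : ℕ} (hi : i < Q.p) (hj : j < Q.s) :
    Q.w (Q.iV i j) = ((Q.K : ℝ) + i + 1 - Q.be i j * Q.dep i j, - Q.dep i j) := by
  rw [Q.w_bot (Q.iV_le hi hj), Q.wb_V hi hj, Q.xi_eq hi]

theorem w_L {t : ℕ} (h1 : 1 ≤ t) (h2 : t ≤ Q.K) : Q.w (Q.iL t) = ((Q.K : ℝ) - t, 1) := by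
  unfold iL
  rw [Q.w_top (by unfold T; omega)]
  unfold wt
  rw [if_pos (by omega), if_pos (by omega)]
  push_cast [Nat.cast_sub h2]
  congr 1
  ring

theorem w_R {t : ℕ} (h1 : 1 ≤ t) (h2 : t ≤ Q.K) : Q.w (Q.iR t) = ((Q.K : ℝ) + Q.p + t, 1) := by
  unfold iR
  rw [Q.w_top (by unfold T; omega)]
  unfold wt
  have e : 2 * Q.K - 1 + 2 * (t - 1) - (2 * Q.K - 1) = 2 * (t - 1) := by omega
  rw [if_neg (by omega), e, if_pos (by omega)]
  push_cast [Nat.cast_sub h1]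
  congr 1
  ring

/-- visible, with strict inequalities -/
def Vis0 (a b : ℕ) : Prop := (Q.w a).1 < (Q.w b).1 ∧
  (∀ k, k ≤ Q.B → (Q.w a).1 < (Q.w k).1 → (Q.w k).1 < (Q.w b).1 → dt (Q.w a) (Q.w b) (Q.w k) < 0) ∧
  (∀ k, Q.B + 1 ≤ k → k ≤ Q.B + 1 + Q.T → (Q.w a).1 < (Q.w k).1 → (Q.w k).1 < (Q.w b).1 →
    0 < dt (Q.w a) (Q.w b) (Q.w k))

/-- blocked, with strict inequalities -/
def Blk0 (a b : ℕ) : Prop := (Q.w a).1 < (Q.w b).1 ∧
  ∃ k, k ≤ Q.B ∧ (Q.w a).1 < (Q.w k).1 ∧ (Q.w k).1 < (Q.w b).1 ∧ 0 < dt (Q.w a) (Q.w b) (Q.w k)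

/-- comparison of indices -/
theorem idx_lt {a b : ℕ} (ha : a ≤ Q.B) (h : (Q.w a).1 < (Q.w b).1) (hb : b ≤ Q.B) : a < b := by
  by_contra hc
  push Not at hc
  rw [Q.w_bot ha, Q.w_bot hb] at h
  rcases Nat.eq_or_lt_of_le hc with h1 | h1
  · subst h1; exact absurd h (lt_irrefl _)
  · exact absurd h (not_lt.2 (Q.wb_lt h1 ha).le)

theorem between_left {i j k : ℕ} (h1 : Q.iU i < k) (h2 : k < Q.iV i j) :
    ∃ m, m < j ∧ k = Q.iV i m := by
  unfold iU at h1
  unfold iV at h2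
  exact ⟨k - (1 + i * (Q.s + 1)) - 1, by omega, by unfold iV; omega⟩

theorem between_right {i j k : ℕ} (h1 : Q.iV i j < k) (h2 : k < Q.iU (i + 1)) :
    ∃ m, j < m ∧ m < Q.s ∧ k = Q.iV i m := by
  unfold iU at h2
  unfold iV at h1
  have : (i + 1) * (Q.s + 1) = i * (Q.s + 1) + (Q.s + 1) := by ring
  exact ⟨k - (1 + i * (Q.s + 1)) - 1, by omega, by omega, by unfold iV; omega⟩

theorem x_le {i k : ℕ} (hi : i ≤ Q.p) (hk : k ≤ Q.iU i) : (Q.w k).1 ≤ Q.K + i := by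
  have h := Q.w_U hi
  rcases Nat.eq_or_lt_of_le hk with h1 | h1
  · rw [h1, h]
  · have h2 := Q.wb_lt h1 (Q.iU_le hi)
    rw [← Q.w_bot (Q.iU_le hi), h, ← Q.w_bot (h1.le.trans (Q.iU_le hi))] at h2
    exact h2.le

theorem le_x {i k : ℕ} (hi : i ≤ Q.p) (hk : Q.iU i ≤ k) (hkB : k ≤ Q.B) :
    (Q.K : ℝ) + i ≤ (Q.w k).1 := by
  have h := Q.w_U hi
  rcases Nat.eq_or_lt_of_le hk with h1 | h1
  · rw [← h1, h]
  · have h2 := Q.wb_lt h1 hkB
    rw [← Q.w_bot (Q.iU_le hi), h, ← Q.w_bot hkB] at h2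
    exact h2.le

theorem w_nonpos {k : ℕ} (hk : k ≤ Q.B) : (Q.w k).2 ≤ 0 := by
  rw [Q.w_bot hk]; exact Q.wb_nonpos k

/-- a peak sees the vertices of the pocket to its right -/
theorem visU1 {i j : ℕ} (hi : i < Q.p) (hj : j < Q.s) : Q.Vis0 (Q.iU i) (Q.iV i j) := by
  have hd := Q.dep_pos hi j
  have ha := Q.al_pos i j
  have hU := Q.w_U hi.le
  have hV := Q.w_V hi hj
  refine ⟨?_, ?_, ?_⟩
  · rw [hU, hV]
    have := mul_pos ha hd
    simp only
    linarith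
  · intro k hk h1 h2
    obtain ⟨m, hm, rfl⟩ := Q.between_left (Q.idx_lt (Q.iU_le hi.le) h1 hk)
      (Q.idx_lt hk h2 (Q.iV_le hi hj))
    rw [hU, hV, Q.w_V hi (hm.trans hj)]
    have hdm := Q.dep_pos hi m
    have hal := Q.al_lt hi hm hj
    unfold dt
    simp only
    have := mul_pos (mul_pos hd hdm) (sub_pos.2 hal)
    nlinarith
  · intro k hk1 hk2 h1 h2
    have hy := Q.one_le_w hk1 hk2
    rw [hU] at h1
    rw [hU, hV]
    unfold dt
    simp only at h1 ⊢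
    have e1 := mul_pos ha hd
    have e2 : 0 < (Q.al i j * Q.dep i j) * (Q.w k).2 := mul_pos e1 (by linarith)
    have e3 : 0 ≤ ((Q.w k).1 - (Q.K + i)) * Q.dep i j := mul_nonneg (by linarith) hd.le
    nlinarith

/-- a peak sees the vertices of the pocket to its left -/
theorem visU2 {i j : ℕ} (hi : i < Q.p) (hj : j < Q.s) : Q.Vis0 (Q.iV i j) (Q.iU (i + 1)) := by
  have hd := Q.dep_pos hi j
  have hb := Q.be_pos hi j
  have hU := Q.w_U (i := i + 1) hi
  have hV := Q.w_V' hi hj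
  push_cast at hU
  refine ⟨?_, ?_, ?_⟩
  · rw [hU, hV]
    have := mul_pos hb hd
    simp only
    linarith
  · intro k hk h1 h2
    obtain ⟨m, hm, hms, rfl⟩ := Q.between_right (Q.idx_lt (Q.iV_le hi hj) h1 hk)
      (Q.idx_lt hk h2 (Q.iU_le hi))
    rw [hU, hV, Q.w_V' hi hms]
    have hdm := Q.dep_pos hi m
    have hbe := Q.be_lt hi hm hms
    unfold dt
    simp only
    have := mul_pos (mul_pos hd hdm) (sub_pos.2 hbe)
    nlinarith
  · intro k hk1 hk2 h1 h2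
    have hy := Q.one_le_w hk1 hk2
    rw [hU] at h2
    rw [hU, hV]
    unfold dt
    simp only at h2 ⊢
    have e1 := mul_pos hb hd
    have e2 : 0 < (Q.be i j * Q.dep i j) * (Q.w k).2 := mul_pos e1 (by linarith)
    have e3 : 0 ≤ (Q.K + i + 1 - (Q.w k).1) * Q.dep i j := mul_nonneg (by linarith) hd.le
    nlinarith

/-- a peak does not see the vertices of the pockets further right -/
theorem blkU1 {i i' j : ℕ} (hi : i < i') (hi' : i' < Q.p) (hj : j < Q.s) :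
    Q.Blk0 (Q.iU i) (Q.iV i' j) := by
  have hd := Q.dep_pos hi' j
  have ha := Q.al_pos i' j
  have hU := Q.w_U (hi.le.trans hi'.le)
  have hU' := Q.w_U hi'.le
  have hV := Q.w_V hi' hj
  have hii : (i : ℝ) < i' := by exact_mod_cast hi
  have h1 := mul_pos ha hd
  refine ⟨?_, Q.iU i', Q.iU_le hi'.le, ?_, ?_, ?_⟩
  · rw [hU, hV]; simp only; linarith
  · rw [hU, hU']; simp only; linarith
  · rw [hU', hV]; simp only; linarith
  · rw [hU, hU', hV]
    unfold dt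
    simp only
    have := mul_pos (sub_pos.2 hii) hd
    nlinarith

theorem blkU2 {i i' j : ℕ} (hi : i' < i) (hip : i < Q.p) (hj : j < Q.s) :
    Q.Blk0 (Q.iV i' j) (Q.iU (i + 1)) := by
  have hi' : i' < Q.p := hi.trans hip
  have hd := Q.dep_pos hi' j
  have hb := Q.be_pos hi' j
  have hU := Q.w_U (i := i + 1) hip
  have hU' := Q.w_U (i := i' + 1) hi'
  have hV := Q.w_V' hi' hj
  push_cast at hU hU'
  have hii : (i' : ℝ) < i := by exact_mod_cast hi
  have h1 := mul_pos hb hd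
  refine ⟨?_, Q.iU (i' + 1), Q.iU_le hi', ?_, ?_, ?_⟩
  · rw [hU, hV]; simp only; linarith
  · rw [hU', hV]; simp only; linarith
  · rw [hU, hU']; simp only; linarith
  · rw [hU, hU', hV]
    unfold dt
    simp only
    have := mul_pos (sub_pos.2 hii) hd
    nlinarith

/-- left targets -/
theorem visL {i j t : ℕ} (hi : i < Q.p) (hj : j < Q.s) (ht1 : 1 ≤ t) (ht2 : t ≤ Q.K)
    (h : t ≤ Q.l i j) : Q.Vis0 (Q.iL t) (Q.iV i j) := by
  have hd := Q.dep_pos hi j
  have ha := Q.al_pos i j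
  have hb := Q.be_pos hi j
  have hL := Q.w_L ht1 ht2
  have hV := Q.w_V hi hj
  have h' : (t : ℝ) ≤ Q.l i j := by exact_mod_cast h
  have ht1' : (1 : ℝ) ≤ t := by exact_mod_cast ht1
  have hi0 : (0 : ℝ) ≤ i := Nat.cast_nonneg _
  have hal : (Q.K : ℝ) + i - (Q.K - t) < Q.al i j := by unfold al; linarith
  have e1 := mul_pos ha hd
  refine ⟨?_, ?_, ?_⟩
  · rw [hL, hV]; simp only; linarith
  · intro k hk h1 h2
    rw [hL, hV]
    by_cases hkU : k ≤ Q.iU i
    · have := alg_l1 (X := (Q.K : ℝ) - t) (c := Q.K + i) (x := (Q.w k).1) (y := (Q.w k).2)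
        (by linarith) hal hd (Q.w_nonpos hk) (Q.x_le hi.le hkU)
      exact this
    · obtain ⟨m, hm, rfl⟩ := Q.between_left (not_le.1 hkU) (Q.idx_lt hk h2 (Q.iV_le hi hj))
      rw [Q.w_V hi (hm.trans hj)]
      exact alg_l2 (by linarith) hal hb (Q.al_pos i m) (Q.al_lt hi hm hj)
        (Q.be_lt hi hm hj).le (Q.dep_mul hi j) (Q.dep_mul hi m)
  · intro k hk1 hk2 h1 h2
    have hy := Q.one_le_w hk1 hk2
    rw [hL] at h1
    rw [hV] at h2
    rw [hL, hV]
    unfold dt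
    simp only at h1 h2 ⊢
    have e2 : 0 < ((Q.w k).1 - (Q.K - t)) * (1 + Q.dep i j) := mul_pos (by linarith) (by linarith)
    have e3 : 0 ≤ (Q.K + i + Q.al i j * Q.dep i j - (Q.K - t)) * ((Q.w k).2 - 1) :=
      mul_nonneg (by linarith) (by linarith)
    nlinarith

theorem blkL {i j t : ℕ} (hi : i < Q.p) (hj : j < Q.s) (ht1 : 1 ≤ t) (ht2 : t ≤ Q.K)
    (h : Q.l i j < t) : Q.Blk0 (Q.iL t) (Q.iV i j) := by
  have hd := Q.dep_pos hi j
  have ha := Q.al_pos i j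
  have hL := Q.w_L ht1 ht2
  have hV := Q.w_V hi hj
  have hU := Q.w_U hi.le
  have h' : (Q.l i j : ℝ) + 1 ≤ t := by exact_mod_cast h
  have ht1' : (1 : ℝ) ≤ t := by exact_mod_cast ht1
  have hi0 : (0 : ℝ) ≤ i := Nat.cast_nonneg _
  have hal : Q.al i j < (Q.K : ℝ) + i - (Q.K - t) := by unfold al; linarith
  have e1 := mul_pos ha hd
  refine ⟨?_, Q.iU i, Q.iU_le hi.le, ?_, ?_, ?_⟩
  · rw [hL, hV]; simp only; linarith
  · rw [hL, hU]; simp only; linarith
  · rw [hU, hV]; simp only; linarith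
  · rw [hL, hV, hU]
    exact alg_l3 hal hd

/-- right targets -/
theorem visR {i j t : ℕ} (hi : i < Q.p) (hj : j < Q.s) (ht1 : 1 ≤ t) (ht2 : t ≤ Q.K)
    (h : t ≤ Q.r i j) : Q.Vis0 (Q.iV i j) (Q.iR t) := by
  have hd := Q.dep_pos hi j
  have ha := Q.al_pos i j
  have hb := Q.be_pos hi j
  have hR := Q.w_R ht1 ht2
  have hV := Q.w_V' hi hj
  have h' : (t : ℝ) ≤ Q.r i j := by exact_mod_cast h
  have ht1' : (1 : ℝ) ≤ t := by exact_mod_cast ht1
  have hi0 : (i : ℝ) + 1 ≤ Q.p := by exact_mod_cast hi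
  have hbe : (Q.K : ℝ) + Q.p + t - (Q.K + i + 1) < Q.be i j := by unfold be; linarith
  have e1 := mul_pos hb hd
  refine ⟨?_, ?_, ?_⟩
  · rw [hR, hV]; simp only; linarith
  · intro k hk h1 h2
    rw [hR, hV]
    by_cases hkU : Q.iU (i + 1) ≤ k
    · have h3 := Q.le_x (i := i + 1) hi hkU hk
      push_cast at h3
      have := alg_r1 (X := (Q.K : ℝ) + Q.p + t) (c := Q.K + i + 1) (x := (Q.w k).1)
        (y := (Q.w k).2) (by linarith) hbe hd (Q.w_nonpos hk) (by linarith)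
      exact this
    · obtain ⟨m, hm, hms, rfl⟩ := Q.between_right (Q.idx_lt (Q.iV_le hi hj) h1 hk) (not_le.1 hkU)
      rw [Q.w_V' hi hms]
      exact alg_r2 (by linarith) hbe ha (Q.be_pos hi m) (Q.be_lt hi hm hms)
        (Q.al_lt hi hm hms).le (Q.dep_mul hi j) (Q.dep_mul hi m)
  · intro k hk1 hk2 h1 h2
    have hy := Q.one_le_w hk1 hk2
    rw [hR] at h2
    rw [hV] at h1
    rw [hR, hV]
    unfold dt
    simp only at h1 h2 ⊢
    have e2 : 0 < (Q.K + Q.p + t - (Q.w k).1) * (1 + Q.dep i j) :=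
      mul_pos (by linarith) (by linarith)
    have e3 : 0 ≤ (Q.K + Q.p + t - (Q.K + i + 1 - Q.be i j * Q.dep i j)) * ((Q.w k).2 - 1) :=
      mul_nonneg (by linarith) (by linarith)
    nlinarith

theorem blkR {i j t : ℕ} (hi : i < Q.p) (hj : j < Q.s) (ht1 : 1 ≤ t) (ht2 : t ≤ Q.K)
    (h : Q.r i j < t) : Q.Blk0 (Q.iV i j) (Q.iR t) := by
  have hd := Q.dep_pos hi j
  have hb := Q.be_pos hi j
  have hR := Q.w_R ht1 ht2
  have hV := Q.w_V' hi hj
  have hU := Q.w_U (i := i + 1) hi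
  push_cast at hU
  have h' : (Q.r i j : ℝ) + 1 ≤ t := by exact_mod_cast h
  have ht1' : (1 : ℝ) ≤ t := by exact_mod_cast ht1
  have hi0 : (i : ℝ) + 1 ≤ Q.p := by exact_mod_cast hi
  have hbe : Q.be i j < (Q.K : ℝ) + Q.p + t - (Q.K + i + 1) := by unfold be; linarith
  have e1 := mul_pos hb hd
  rw [add_assoc (Q.K : ℝ) i 1] at hV hbe
  refine ⟨?_, Q.iU (i + 1), Q.iU_le hi, ?_, ?_, ?_⟩
  · rw [hR, hV]; simp only; linarith
  · rw [hV, hU]; simp only; linarith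
  · rw [hU, hR]; simp only; linarith
  · rw [hR, hV, hU]
    exact alg_r3 hbe hd

end Par

end Pool.Agent.KS6_47.VG
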