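import Pool.Agent.KS6_47.Vis.Fam

/-!
# The graphs of the family
-/

set_option autoImplicit false

namespace Pool.Agent.KS6_47.VG

open Pool.Agent.KS6_47.Vis Set

theorem dt_eq_zero_of_collinear {A B C : ℝ × ℝ} (h : Collinear ℝ {A, B, C}) : dt A B C = 0 := by
  rw [collinear_iff_of_mem (p₀ := A) (by simp)] at h
  obtain ⟨v, hv⟩ := h
  obtain ⟨r, hr⟩ := hv B (by simp)
  obtain ⟨s, hs⟩ := hv C (by simp)
  unfold dt
  rw [hr, hs]
  simp
  ring

theorem Par.exists_polygon (Q : Par) :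
    ∃ (v : Fin (Q.B + Q.T + 2) → ℝ × ℝ) (P : Set (ℝ × ℝ)), IsSimplePolygon v P ∧
      GeneralPosition v ∧ (∀ a b : Fin (Q.B + Q.T + 2), Q.Vis0 a b → (visGraph v P).Adj a b) ∧
      (∀ a b : Fin (Q.B + Q.T + 2), Q.Blk0 a b → ¬ (visGraph v P).Adj a b) := by
  obtain ⟨C, hCB, hCT, hx, hpos, hneg, hgp⟩ := exists_cfg Q.B Q.T Q.w (1 / 2)
    (by unfold Par.B; omega) (by have := Q.hK; unfold Par.T; omega) (fun k hk => Q.hp hk)
    (fun k h1 h2 => Q.hq h1 h2) Q.h0 Q.h1 (fun k hk => Q.sp hk) (fun k h1 h2 => Q.sq h1 h2)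
  have hsimp := C.isSimplePolygon
  rw [hCB, hCT] at hsimp
  refine ⟨fun i => C.w i, C.P, hsimp, ?_, ?_, ?_⟩
  · intro i j k hij hjk hik hcol
    have h := dt_eq_zero_of_collinear hcol
    exact hgp i j k (by have := i.2; omega) (by have := j.2; omega) (by have := k.2; omega)
      (fun h => hij (Fin.ext h)) (fun h => hjk (Fin.ext h)) (fun h => hik (Fin.ext h)) h
  · intro a b h
    have ha : (a : ℕ) ≤ Q.B + 1 + Q.T := by have := a.2; omega
    have hb : (b : ℕ) ≤ Q.B + 1 + Q.T := by have := b.2; omega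
    obtain ⟨h1, h2, h3⟩ := h
    have hmem : ∀ k, k ≤ Q.B + 1 + Q.T → C.w k ∈ C.P := by
      intro k hk
      by_cases hkB : k ≤ Q.B
      · rw [C.w_bot (by rw [hCB]; exact hkB)]
        exact C.p_mem (by rw [hCB]; exact hkB)
      · have := C.w_top (k := Q.B + 1 + Q.T - k) (by rw [hCT]; omega)
        rw [hCB, hCT, show Q.B + 1 + Q.T - (Q.B + 1 + Q.T - k) = k by omega] at this
        rw [this]
        exact C.q_mem (by rw [hCT]; omega)
    refine ⟨fun h => ?_, ?_⟩
    · rw [h] at h1; exact absurd h1 (lt_irrefl _)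
    · apply C.vis_of (hmem a ha) (hmem b hb)
      · rw [hx a ha, hx b hb]; exact h1
      · intro k hk e1 e2
        rw [hCB] at hk
        rw [← C.w_bot (by rw [hCB]; exact hk)] at e1 e2 ⊢
        rw [hx a ha, hx k (by omega)] at e1
        rw [hx b hb, hx k (by omega)] at e2
        exact hneg a b k ha hb (by omega) (h2 k hk e1 e2)
      · intro k hk e1 e2
        have h5 := C.w_top hk
        rw [hCT] at hk
        rw [hCB, hCT] at h5
        rw [← h5] at e1 e2 ⊢
        rw [hx a ha, hx _ (by omega)] at e1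
        rw [hx b hb, hx _ (by omega)] at e2
        exact hpos a b _ ha hb (by omega) (h3 _ (by omega) (by omega) e1 e2)
  · rintro a b ⟨h1, k, hk, h2, h3, h4⟩ ⟨-, h5⟩
    have ha : (a : ℕ) ≤ Q.B + 1 + Q.T := by have := a.2; omega
    have hb : (b : ℕ) ≤ Q.B + 1 + Q.T := by have := b.2; omega
    have e : C.w k = C.p k := C.w_bot (by rw [hCB]; exact hk)
    refine C.not_vis_of (A := C.w a) (B := C.w b) (k := k) ?_ (by rw [hCB]; exact hk) ?_ ?_ ?_ h5
    · rw [hx a ha, hx b hb]; exact h1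
    · rw [← e, hx a ha, hx k (by omega)]; exact h2
    · rw [← e, hx b hb, hx k (by omega)]; exact h3
    · rw [← e]; exact hpos a b k ha hb (by omega) h4

/-- the number of vertices -/
def nv (p s m g : ℕ) : ℕ := p * (s + 1) + g + 2 + (4 * (s * m) - 3) + 2

theorem nv_eq (p s m g : ℕ) (hs : 1 ≤ s) (hm : 1 ≤ m) :
    nv p s m g = p * (s + 1) + 4 * (s * m) + g + 1 := by
  have : 1 ≤ s * m := Nat.mul_pos hs hm
  unfold nv
  omega

/-- the parameters for a function -/
def mkPar (p s m g : ℕ) (hs : 1 ≤ s) (hm : 1 ≤ m) (f : Fin p → Fin s → Fin m × Fin m) : Par where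
  p := p
  s := s
  K := s * m
  g := g
  l := fun i j => if h : i < p ∧ j < s then j * m + (f ⟨i, h.1⟩ ⟨j, h.2⟩).1 else 0
  r := fun i j => if h : i < p ∧ j < s then (s - 1 - j) * m + (f ⟨i, h.1⟩ ⟨j, h.2⟩).2 else 0
  hK := Nat.mul_pos hs hm
  hl := by
    intro i j j' hi hj hj'
    rw [dif_pos ⟨hi, hj.trans hj'⟩, dif_pos ⟨hi, hj'⟩]
    have h1 := (f ⟨i, hi⟩ ⟨j, hj.trans hj'⟩).1.2
    have h2 : (j + 1) * m ≤ j' * m := Nat.mul_le_mul_right m hj
    have h3 : (j + 1) * m = j * m + m := by ring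
    omega
  hr := by
    intro i j j' hi hj hj'
    rw [dif_pos ⟨hi, hj'⟩, dif_pos ⟨hi, hj.trans hj'⟩]
    have h1 := (f ⟨i, hi⟩ ⟨j', hj'⟩).2.2
    have h2 : (s - 1 - j' + 1) * m ≤ (s - 1 - j) * m := Nat.mul_le_mul_right m (by omega)
    have h3 : (s - 1 - j' + 1) * m = (s - 1 - j') * m + m := by ring
    omega

theorem exists_graphs (p s m g : ℕ) (hs : 1 ≤ s) (hm : 1 ≤ m) :
    ∃ (U : Fin (p + 1) → Fin (nv p s m g)) (V : Fin p → Fin s → Fin (nv p s m g))
      (L R : Fin (s * m) → Fin (nv p s m g)), Function.Injective L ∧ Function.Injective R ∧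
      ∀ f : Fin p → Fin s → Fin m × Fin m,
        ∃ (v : Fin (nv p s m g) → ℝ × ℝ) (P : Set (ℝ × ℝ)), IsSimplePolygon v P ∧
          GeneralPosition v ∧
          (∀ i j, (visGraph v P).Adj (V i j) (U i.castSucc) ∧
            (visGraph v P).Adj (V i j) (U i.succ)) ∧
          (∀ i i' j, i ≠ i' → ¬ ((visGraph v P).Adj (V i' j) (U i.castSucc) ∧
            (visGraph v P).Adj (V i' j) (U i.succ))) ∧
          (∀ i j t, (visGraph v P).Adj (V i j) (L t) ↔ (t : ℕ) < j * m + (f i j).1) ∧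
          (∀ i j t, (visGraph v P).Adj (V i j) (R t) ↔ (t : ℕ) < (s - 1 - j) * m + (f i j).2) := by
  have hK : 1 ≤ s * m := Nat.mul_pos hs hm
  have hU : ∀ i : Fin (p + 1), 1 + (i : ℕ) * (s + 1) < nv p s m g := by
    intro i
    have h1 : (i : ℕ) * (s + 1) ≤ p * (s + 1) := Nat.mul_le_mul_right _ (by have := i.2; omega)
    unfold nv
    omega
  have hV : ∀ (i : Fin p) (j : Fin s), 1 + (i : ℕ) * (s + 1) + (j + 1) < nv p s m g := by
    intro i j
    have h1 : ((i : ℕ) + 1) * (s + 1) ≤ p * (s + 1) :=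
      Nat.mul_le_mul_right _ (by have := i.2; omega)
    have h2 : ((i : ℕ) + 1) * (s + 1) = i * (s + 1) + (s + 1) := by ring
    have := j.2
    unfold nv
    omega
  refine ⟨fun i => ⟨1 + (i : ℕ) * (s + 1), hU i⟩, fun i j => ⟨1 + (i : ℕ) * (s + 1) + (j + 1), hV i j⟩,
    fun t => ⟨p * (s + 1) + g + 2 + 1 + (4 * (s * m) - 3) - 2 * (s * m - (t + 1)), by
      unfold nv; omega⟩,
    fun t => ⟨p * (s + 1) + g + 2 + 1 + (4 * (s * m) - 3) - (2 * (s * m) - 1 + 2 * (t + 1 - 1)), by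
      unfold nv; omega⟩, ?_, ?_, ?_⟩
  · intro t t' h
    have h1 := congrArg Fin.val h
    simp only at h1
    have := t.2
    have := t'.2
    apply Fin.ext
    omega
  · intro t t' h
    have h1 := congrArg Fin.val h
    simp only at h1
    have := t.2
    have := t'.2
    apply Fin.ext
    omega
  · intro f
    obtain ⟨v, P, h1, h2, h3, h4⟩ := (mkPar p s m g hs hm f).exists_polygon
    have hl : ∀ (i : Fin p) (j : Fin s), (mkPar p s m g hs hm f).l i j = j * m + (f i j).1 := by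
      intro i j
      show (if h : (i : ℕ) < p ∧ (j : ℕ) < s then _ else _) = _
      rw [dif_pos ⟨i.2, j.2⟩]
    have hr : ∀ (i : Fin p) (j : Fin s), (mkPar p s m g hs hm f).r i j =
        (s - 1 - j) * m + (f i j).2 := by
      intro i j
      show (if h : (i : ℕ) < p ∧ (j : ℕ) < s then _ else _) = _
      rw [dif_pos ⟨i.2, j.2⟩]
    refine ⟨v, P, h1, h2, ?_, ?_, ?_, ?_⟩
    · intro i j
      constructor
      · apply SimpleGraph.Adj.symm
        exact h3 _ _ ((mkPar p s m g hs hm f).visU1 i.2 j.2)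
      · exact h3 _ _ ((mkPar p s m g hs hm f).visU2 i.2 j.2)
    · rintro i i' j hii ⟨a1, a2⟩
      rcases lt_or_gt_of_ne (fun h => hii (Fin.ext h) : (i : ℕ) ≠ i') with h | h
      · exact h4 _ _ ((mkPar p s m g hs hm f).blkU1 h i'.2 j.2) a1.symm
      · exact h4 _ _ ((mkPar p s m g hs hm f).blkU2 h i.2 j.2) a2
    · intro i j t
      rw [← hl]
      have ht : (t : ℕ) + 1 ≤ s * m := t.2
      constructor
      · intro ha
        by_contra hc
        exact h4 _ _ ((mkPar p s m g hs hm f).blkL (t := t + 1) i.2 j.2 (by omega) ht (by omega))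
          ha.symm
      · intro ha
        apply SimpleGraph.Adj.symm
        exact h3 _ _ ((mkPar p s m g hs hm f).visL (t := t + 1) i.2 j.2 (by omega) ht (by omega))
    · intro i j t
      rw [← hr]
      have ht : (t : ℕ) + 1 ≤ s * m := t.2
      constructor
      · intro ha
        by_contra hc
        exact h4 _ _ ((mkPar p s m g hs hm f).blkR (t := t + 1) i.2 j.2 (by omega) ht (by omega)) ha
      · intro ha
        exact h3 _ _ ((mkPar p s m g hs hm f).visR (t := t + 1) i.2 j.2 (by omega) ht (by omega))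

end Pool.Agent.KS6_47.VG
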