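import Pool.Agent.KS6_47.Vis.Local

/-!
# Polygons bounded by the graphs of two piecewise linear functions
-/

set_option autoImplicit false

namespace Pool.Agent.KS6_47.VG

open Pool.Agent.KS6_47.Vis Set

/-- the region between the graphs of `L` and `U` over `[a, b]` -/
def Reg (L U : ℝ → ℝ) (a b : ℝ) : Set (ℝ × ℝ) :=
  {z | a ≤ z.1 ∧ z.1 ≤ b ∧ L z.1 ≤ z.2 ∧ z.2 ≤ U z.1}

/-- the open region between the graphs of `L` and `U` over `(a, b)` -/
def RegO (L U : ℝ → ℝ) (a b : ℝ) : Set (ℝ × ℝ) :=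
  {z | a < z.1 ∧ z.1 < b ∧ L z.1 < z.2 ∧ z.2 < U z.1}

/-- `f` is affine on `[a, b]` -/
def Aff (f : ℝ → ℝ) (a b : ℝ) : Prop := ∃ s t : ℝ, ∀ x, a ≤ x → x ≤ b → f x = s * x + t

theorem seg_graph {f : ℝ → ℝ} {a b : ℝ} (hab : a ≤ b) (hf : Aff f a b) :
    segment ℝ ((a, f a) : ℝ × ℝ) (b, f b) = {z | a ≤ z.1 ∧ z.1 ≤ b ∧ z.2 = f z.1} := by
  obtain ⟨s, t, h⟩ := hf
  ext ⟨x, y⟩
  rw [segment_eq_image]
  constructor
  · rintro ⟨θ, ⟨h0, h1⟩, hz⟩
    have e1 : (1 - θ) * a + θ * b = x := congrArg Prod.fst hz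
    have e2 : (1 - θ) * f a + θ * f b = y := congrArg Prod.snd hz
    have h2 : a ≤ x := by rw [← e1]; nlinarith
    have h3 : x ≤ b := by rw [← e1]; nlinarith
    refine ⟨h2, h3, ?_⟩
    show y = f x
    rw [h x h2 h3, ← e2, h a le_rfl hab, h b hab le_rfl, ← e1]
    ring
  · rintro ⟨h2, h3, h4⟩
    have h2' : a ≤ x := h2
    have h3' : x ≤ b := h3
    have h4' : y = f x := h4
    rcases eq_or_lt_of_le hab with hab' | hab'
    · have : x = a := le_antisymm (hab' ▸ h3') h2'
      refine ⟨0, ⟨le_rfl, zero_le_one⟩, ?_⟩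
      rw [h4', this]
      simp
    · have hpos : 0 < b - a := sub_pos.2 hab'
      refine ⟨(x - a) / (b - a), ⟨div_nonneg (by linarith) hpos.le, (div_le_one hpos).2 (by linarith)⟩, ?_⟩
      have e1 : (1 - (x - a) / (b - a)) * a + (x - a) / (b - a) * b = x := by
        field_simp; ring
      apply Prod.ext
      · exact e1
      · show (1 - (x - a) / (b - a)) * f a + (x - a) / (b - a) * f b = y
        rw [h4', h x h2' h3', h a le_rfl hab, h b hab le_rfl]
        calc _ = s * ((1 - (x - a) / (b - a)) * a + (x - a) / (b - a) * b) + t := by ring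
          _ = _ := by rw [e1]

theorem seg_vert {a c d : ℝ} (hcd : c ≤ d) :
    segment ℝ ((a, c) : ℝ × ℝ) (a, d) = {z | z.1 = a ∧ c ≤ z.2 ∧ z.2 ≤ d} := by
  ext ⟨x, y⟩
  rw [segment_eq_image]
  constructor
  · rintro ⟨θ, ⟨h0, h1⟩, hz⟩
    have e1 : (1 - θ) * a + θ * a = x := congrArg Prod.fst hz
    have e2 : (1 - θ) * c + θ * d = y := congrArg Prod.snd hz
    refine ⟨?_, ?_, ?_⟩
    · show x = a
      rw [← e1]; ring
    · show c ≤ y
      rw [← e2]; nlinarith
    · show y ≤ d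
      rw [← e2]; nlinarith
  · rintro ⟨h1, h2, h3⟩
    have h1' : x = a := h1
    have h2' : c ≤ y := h2
    have h3' : y ≤ d := h3
    rcases eq_or_lt_of_le hcd with h | h
    · refine ⟨0, ⟨le_rfl, zero_le_one⟩, ?_⟩
      have : y = c := le_antisymm (h ▸ h3') h2'
      rw [h1', this]; simp
    · have hpos : 0 < d - c := sub_pos.2 h
      refine ⟨(y - c) / (d - c), ⟨div_nonneg (by linarith) hpos.le, (div_le_one hpos).2 (by linarith)⟩, ?_⟩
      apply Prod.ext
      · show (1 - (y - c) / (d - c)) * a + (y - c) / (d - c) * a = x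
        rw [h1']; ring
      · show (1 - (y - c) / (d - c)) * c + (y - c) / (d - c) * d = y
        field_simp; ring

section region

variable {L U : ℝ → ℝ} {a b : ℝ} (hL : Continuous L) (hU : Continuous U) (hab : a < b)
  (hLU : ∀ x, a ≤ x → x ≤ b → L x < U x)

include hL hU hab hLU

theorem reg_image : Reg L U a b =
    (fun q : ℝ × ℝ => (q.1, L q.1 + q.2 * (U q.1 - L q.1))) '' (Icc a b ×ˢ Icc 0 1) := by
  ext ⟨x, y⟩
  constructor
  · rintro ⟨h1, h2, h3, h4⟩
    have h1' : a ≤ x := h1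
    have h2' : x ≤ b := h2
    have h3' : L x ≤ y := h3
    have h4' : y ≤ U x := h4
    have hpos : 0 < U x - L x := sub_pos.2 (hLU x h1' h2')
    refine ⟨(x, (y - L x) / (U x - L x)), ⟨⟨h1', h2'⟩, div_nonneg (by linarith) hpos.le,
      (div_le_one hpos).2 (by linarith)⟩, ?_⟩
    apply Prod.ext
    · rfl
    · show L x + (y - L x) / (U x - L x) * (U x - L x) = y
      rw [div_mul_cancel₀ _ hpos.ne']; ring
  · rintro ⟨⟨x', s⟩, ⟨⟨h1, h2⟩, h3, h4⟩, hz⟩
    have e1 : x' = x := congrArg Prod.fst hz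
    have e2 : L x' + s * (U x' - L x') = y := congrArg Prod.snd hz
    subst e1
    have h1' : a ≤ x' := h1
    have h2' : x' ≤ b := h2
    have h3' : 0 ≤ s := h3
    have h4' : s ≤ 1 := h4
    have hpos : 0 < U x' - L x' := sub_pos.2 (hLU x' h1' h2')
    refine ⟨h1', h2', ?_, ?_⟩
    · show L x' ≤ y
      rw [← e2]; nlinarith
    · show y ≤ U x'
      rw [← e2]; nlinarith

theorem reg_compact : IsCompact (Reg L U a b) := by
  rw [reg_image hL hU hab hLU]
  exact (isCompact_Icc.prod isCompact_Icc).image (by fun_prop)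

theorem reg_subset_closure : Reg L U a b ⊆ closure (RegO L U a b) := by
  rw [reg_image hL hU hab hLU]
  have h1 : (Icc a b ×ˢ Icc (0 : ℝ) 1) = closure (Ioo a b ×ˢ Ioo (0 : ℝ) 1) := by
    rw [closure_prod_eq, closure_Ioo hab.ne, closure_Ioo (by norm_num)]
  rw [h1]
  refine (image_closure_subset_closure_image (by fun_prop)).trans (closure_mono ?_)
  rintro _ ⟨⟨x, s⟩, ⟨⟨h1, h2⟩, h3, h4⟩, rfl⟩
  have h1' : a < x := h1
  have h2' : x < b := h2
  have h3' : 0 < s := h3
  have h4' : s < 1 := h4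
  have hpos : 0 < U x - L x := sub_pos.2 (hLU x h1'.le h2'.le)
  refine ⟨h1', h2', ?_, ?_⟩
  · show L x < L x + s * (U x - L x)
    have := mul_pos h3' hpos
    linarith
  · show L x + s * (U x - L x) < U x
    nlinarith

omit hab hLU in
theorem regO_open : IsOpen (RegO L U a b) := by
  have : RegO L U a b = {z : ℝ × ℝ | a < z.1} ∩ {z | z.1 < b} ∩ {z | L z.1 < z.2} ∩
      {z | z.2 < U z.1} := by
    ext z
    simp only [RegO, mem_inter_iff]
    constructor
    · rintro ⟨h1, h2, h3, h4⟩; exact ⟨⟨⟨h1, h2⟩, h3⟩, h4⟩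
    · rintro ⟨⟨⟨h1, h2⟩, h3⟩, h4⟩; exact ⟨h1, h2, h3, h4⟩
  rw [this]
  refine IsOpen.inter (IsOpen.inter (IsOpen.inter ?_ ?_) ?_) ?_
  · exact isOpen_lt continuous_const continuous_fst
  · exact isOpen_lt continuous_fst continuous_const
  · exact isOpen_lt (hL.comp continuous_fst) continuous_snd
  · exact isOpen_lt continuous_snd (hU.comp continuous_fst)

omit hL hU hab hLU in
theorem regO_subset : RegO L U a b ⊆ Reg L U a b :=
  fun _ ⟨h1, h2, h3, h4⟩ => ⟨h1.le, h2.le, h3.le, h4.le⟩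

omit hab hLU in
theorem interior_reg : interior (Reg L U a b) = RegO L U a b := by
  apply Subset.antisymm
  · rintro ⟨x, y⟩ hz
    rw [mem_interior_iff_mem_nhds, Metric.mem_nhds_iff] at hz
    obtain ⟨ε, hε, hb⟩ := hz
    have key : ∀ p q : ℝ, |p| < ε → |q| < ε → (x + p, y + q) ∈ Reg L U a b := by
      intro p q hp hq
      apply hb
      rw [Metric.mem_ball, Prod.dist_eq]
      simp only [Real.dist_eq, add_sub_cancel_left]
      exact max_lt hp hq
    have hh : |ε / 2| < ε := by rw [abs_of_pos (by linarith)]; linarith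
    have hh' : |-(ε / 2)| < ε := by rw [abs_neg]; exact hh
    have h0 : |(0 : ℝ)| < ε := by simpa using hε
    have k1 := (key (-(ε / 2)) 0 hh' h0).1
    have k2 := (key (ε / 2) 0 hh h0).2.1
    have k3 := (key 0 (-(ε / 2)) h0 hh').2.2.1
    have k4 := (key 0 (ε / 2) h0 hh).2.2.2
    simp only [add_zero] at k1 k2 k3 k4
    refine ⟨?_, ?_, ?_, ?_⟩
    · show a < x
      linarith
    · show x < b
      linarith
    · show L x < y
      linarith
    · show y < U x
      linarith
  · exact interior_maximal regO_subset (regO_open hL hU)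

theorem reg_regular : closure (interior (Reg L U a b)) = Reg L U a b := by
  apply Subset.antisymm
  · have := closure_mono (interior_subset (s := Reg L U a b))
    rwa [(reg_compact hL hU hab hLU).isClosed.closure_eq] at this
  · rw [interior_reg hL hU]
    exact reg_subset_closure hL hU hab hLU

theorem frontier_reg : frontier (Reg L U a b) =
    {z | z ∈ Reg L U a b ∧ (z.1 = a ∨ z.1 = b ∨ z.2 = L z.1 ∨ z.2 = U z.1)} := by
  rw [frontier, (reg_compact hL hU hab hLU).isClosed.closure_eq, interior_reg hL hU]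
  ext ⟨x, y⟩
  constructor
  · rintro ⟨h, h'⟩
    refine ⟨h, ?_⟩
    by_contra hc
    simp only [not_or] at hc
    obtain ⟨h1, h2, h3, h4⟩ := h
    exact h' ⟨lt_of_le_of_ne h1 (Ne.symm hc.1), lt_of_le_of_ne h2 hc.2.1,
      lt_of_le_of_ne h3 (Ne.symm hc.2.2.1), lt_of_le_of_ne h4 hc.2.2.2⟩
  · rintro ⟨h, h'⟩
    refine ⟨h, fun ho => ?_⟩
    obtain ⟨h1, h2, h3, h4⟩ := ho
    rcases h' with h' | h' | h' | h'
    · exact absurd h' h1.ne'
    · exact absurd h' h2.ne
    · exact absurd h' h3.ne'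
    · exact absurd h' h4.ne

end region

/-- a subdivision of an interval covers it -/
theorem cover_inc {b : ℕ → ℝ} {B : ℕ} (hB : 1 ≤ B) {x : ℝ} (h0 : b 0 ≤ x) (h1 : x ≤ b B) :
    ∃ k < B, b k ≤ x ∧ x ≤ b (k + 1) := by
  by_contra hc
  push Not at hc
  have : ∀ k ≤ B, b k ≤ x ∧ (1 ≤ k → b k < x) := by
    intro k hk
    induction k with
    | zero => exact ⟨h0, fun h => absurd h (by norm_num)⟩
    | succ k ih =>
      have h2 := hc k (by omega) (ih (by omega)).1
      exact ⟨h2.le, fun _ => h2⟩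
  exact absurd h1 (not_le.2 ((this B le_rfl).2 hB))

theorem cover_dec {c : ℕ → ℝ} {T : ℕ} (hT : 1 ≤ T) {x : ℝ} (h0 : x ≤ c 0) (h1 : c T ≤ x) :
    ∃ k < T, c (k + 1) ≤ x ∧ x ≤ c k := by
  obtain ⟨k, hk, h2, h3⟩ := cover_inc (b := fun k => - c k) hT (x := -x) (neg_le_neg h0)
    (neg_le_neg h1)
  exact ⟨k, hk, neg_le_neg_iff.1 h3, neg_le_neg_iff.1 h2⟩

/-- the data of a polygon between two graphs -/
structure Dat where
  L : ℝ → ℝ
  U : ℝ → ℝ
  B : ℕ
  T : ℕ
  b : ℕ → ℝ
  c : ℕ → ℝ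
  hL : Continuous L
  hU : Continuous U
  hB : 1 ≤ B
  hT : 1 ≤ T
  hb : ∀ k, k < B → b k < b (k + 1)
  hc : ∀ k, k < T → c (k + 1) < c k
  h0 : c T = b 0
  h1 : c 0 = b B
  hLU : ∀ x, b 0 ≤ x → x ≤ b B → L x < U x
  affL : ∀ k, k < B → Aff L (b k) (b (k + 1))
  affU : ∀ k, k < T → Aff U (c (k + 1)) (c k)

namespace Dat

variable (D : Dat)

/-- the vertices -/
noncomputable def vtx (k : ℕ) : ℝ × ℝ :=
  if k ≤ D.B then (D.b k, D.L (D.b k)) else (D.c (k - (D.B + 1)), D.U (D.c (k - (D.B + 1))))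

/-- the number of vertices -/
def num : ℕ := D.B + D.T + 2

noncomputable def v : Fin D.num → ℝ × ℝ := fun i => D.vtx i

/-- the polygon -/
def P : Set (ℝ × ℝ) := Reg D.L D.U (D.b 0) (D.b D.B)

theorem b_lt {i j : ℕ} (hij : i < j) (hj : j ≤ D.B) : D.b i < D.b j := by
  induction j, hij using Nat.le_induction with
  | base => exact D.hb i hj
  | succ j hij ih => exact (ih (by omega)).trans (D.hb j (by omega))

theorem b_le {i j : ℕ} (hij : i ≤ j) (hj : j ≤ D.B) : D.b i ≤ D.b j := by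
  rcases Nat.eq_or_lt_of_le hij with h | h
  · rw [h]
  · exact (D.b_lt h hj).le

theorem c_lt {i j : ℕ} (hij : i < j) (hj : j ≤ D.T) : D.c j < D.c i := by
  induction j, hij using Nat.le_induction with
  | base => exact D.hc i hj
  | succ j hij ih => exact (D.hc j (by omega)).trans (ih (by omega))

theorem c_le {i j : ℕ} (hij : i ≤ j) (hj : j ≤ D.T) : D.c j ≤ D.c i := by
  rcases Nat.eq_or_lt_of_le hij with h | h
  · rw [h]
  · exact (D.c_lt h hj).le

theorem b0_lt : D.b 0 < D.b D.B := D.b_lt (by have := D.hB; omega) le_rfl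

theorem vtx_bot {k : ℕ} (hk : k ≤ D.B) : D.vtx k = (D.b k, D.L (D.b k)) := if_pos hk

theorem vtx_top (k : ℕ) : D.vtx (D.B + 1 + k) = (D.c k, D.U (D.c k)) := by
  unfold vtx
  rw [if_neg (by omega)]
  have : D.B + 1 + k - (D.B + 1) = k := by omega
  rw [this]

theorem c_mem {k : ℕ} (hk : k ≤ D.T) : D.b 0 ≤ D.c k ∧ D.c k ≤ D.b D.B := by
  rw [← D.h0, ← D.h1]
  exact ⟨D.c_le hk le_rfl, D.c_le (Nat.zero_le _) hk⟩

theorem b_mem {k : ℕ} (hk : k ≤ D.B) : D.b 0 ≤ D.b k ∧ D.b k ≤ D.b D.B :=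
  ⟨D.b_le (Nat.zero_le _) hk, D.b_le hk le_rfl⟩

/-- the edges as sets -/
def E (k : ℕ) : Set (ℝ × ℝ) :=
  if k < D.B then {z | D.b k ≤ z.1 ∧ z.1 ≤ D.b (k + 1) ∧ z.2 = D.L z.1}
  else if k = D.B then {z | z.1 = D.b D.B ∧ D.L (D.b D.B) ≤ z.2 ∧ z.2 ≤ D.U (D.b D.B)}
  else if k < D.B + 1 + D.T then
    {z | D.c (k - (D.B + 1) + 1) ≤ z.1 ∧ z.1 ≤ D.c (k - (D.B + 1)) ∧ z.2 = D.U z.1}
  else {z | z.1 = D.b 0 ∧ D.L (D.b 0) ≤ z.2 ∧ z.2 ≤ D.U (D.b 0)}

theorem E_bot {k : ℕ} (hk : k < D.B) :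
    D.E k = {z | D.b k ≤ z.1 ∧ z.1 ≤ D.b (k + 1) ∧ z.2 = D.L z.1} := if_pos hk

theorem E_right : D.E D.B = {z | z.1 = D.b D.B ∧ D.L (D.b D.B) ≤ z.2 ∧ z.2 ≤ D.U (D.b D.B)} := by
  unfold E
  rw [if_neg (lt_irrefl _), if_pos rfl]

theorem E_top {k : ℕ} (hk : k < D.T) :
    D.E (D.B + 1 + k) = {z | D.c (k + 1) ≤ z.1 ∧ z.1 ≤ D.c k ∧ z.2 = D.U z.1} := by
  unfold E
  rw [if_neg (by omega), if_neg (by omega), if_pos (by omega)]
  have : D.B + 1 + k - (D.B + 1) = k := by omega
  rw [this]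

theorem E_left : D.E (D.B + 1 + D.T) =
    {z | z.1 = D.b 0 ∧ D.L (D.b 0) ≤ z.2 ∧ z.2 ≤ D.U (D.b 0)} := by
  unfold E
  rw [if_neg (by omega), if_neg (by omega), if_neg (by omega)]

theorem v_sc (i : Fin D.num) : D.v (sc i) = D.vtx (if (i : ℕ) + 1 < D.num then i + 1 else 0) := by
  show D.vtx _ = _
  rw [sc_val]

theorem edge_eq_E (i : Fin D.num) : edge D.v i = D.E i := by
  show segment ℝ (D.v i) (D.v (sc i)) = _
  rw [v_sc]
  show segment ℝ (D.vtx i) _ = _
  obtain ⟨i, hi⟩ := i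
  show segment ℝ (D.vtx i) (D.vtx (if i + 1 < D.num then i + 1 else 0)) = D.E i
  have hn : D.num = D.B + D.T + 2 := rfl
  rcases lt_trichotomy i D.B with h | h | h
  · rw [if_pos (by omega), vtx_bot D h.le, vtx_bot D h, E_bot D h]
    exact seg_graph (D.hb i h).le (D.affL i h)
  · subst h
    rw [if_pos (by omega), vtx_bot D le_rfl, show D.B + 1 = D.B + 1 + 0 from rfl, vtx_top, D.h1,
      E_right]
    exact seg_vert (D.hLU _ D.b0_lt.le le_rfl).le
  · obtain ⟨k, rfl⟩ : ∃ k, i = D.B + 1 + k := ⟨i - (D.B + 1), by omega⟩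
    by_cases hk : k < D.T
    · rw [if_pos (by omega), vtx_top, show D.B + 1 + k + 1 = D.B + 1 + (k + 1) from rfl, vtx_top,
        E_top D hk, segment_symm]
      exact seg_graph (D.hc k hk).le (D.affU k hk)
    · have hkT : k = D.T := by omega
      subst hkT
      rw [if_neg (by omega), vtx_top, vtx_bot D (Nat.zero_le _), E_left, D.h0, segment_symm]
      exact seg_vert (D.hLU _ le_rfl D.b0_lt.le).le

theorem injective : Function.Injective D.v := by
  rintro ⟨i, hi⟩ ⟨j, hj⟩ hij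
  have hn : D.num = D.B + D.T + 2 := rfl
  have hij' : D.vtx i = D.vtx j := hij
  have key : ∀ i j, i < j → j < D.num → D.vtx i ≠ D.vtx j := by
    intro i j hlt hj h
    by_cases h1 : j ≤ D.B
    · rw [vtx_bot D h1, vtx_bot D (by omega)] at h
      exact absurd (congrArg Prod.fst h) (D.b_lt hlt h1).ne
    · obtain ⟨k, rfl⟩ : ∃ k, j = D.B + 1 + k := ⟨j - (D.B + 1), by omega⟩
      rw [vtx_top] at h
      by_cases h2 : i ≤ D.B
      · rw [vtx_bot D h2] at h
        have e1 : D.b i = D.c k := congrArg Prod.fst h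
        have e2 : D.L (D.b i) = D.U (D.c k) := congrArg Prod.snd h
        rw [← e1] at e2
        exact absurd e2 (D.hLU _ (D.b_mem h2).1 (D.b_mem h2).2).ne
      · obtain ⟨l, rfl⟩ : ∃ l, i = D.B + 1 + l := ⟨i - (D.B + 1), by omega⟩
        rw [vtx_top] at h
        exact absurd (congrArg Prod.fst h) (D.c_lt (by omega) (by omega)).ne'
  rcases lt_trichotomy i j with h | h | h
  · exact absurd hij' (key i j h hj)
  · exact Fin.ext h
  · exact absurd hij'.symm (key j i h hi)

theorem E_inter {i j : ℕ} (hij : i < j) (hj : j < D.num) {z : ℝ × ℝ} (h1 : z ∈ D.E i)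
    (h2 : z ∈ D.E j) :
    (z = D.vtx i ∨ z = D.vtx (i + 1)) ∧ (z = D.vtx j ∨ z = D.vtx (if j + 1 < D.num then j + 1 else 0)) := by
  have hn : D.num = D.B + D.T + 2 := rfl
  obtain ⟨x, y⟩ := z
  rcases lt_trichotomy j D.B with h | h | h
  · rw [E_bot D h] at h2
    rw [E_bot D (hij.trans h)] at h1
    obtain ⟨a1, a2, a3⟩ := h1
    obtain ⟨b1, b2, b3⟩ := h2
    have a1' : D.b i ≤ x := a1
    have a2' : x ≤ D.b (i + 1) := a2
    have a3' : y = D.L x := a3
    have b1' : D.b j ≤ x := b1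
    have e1 : i + 1 = j := by
      by_contra hne
      have := D.b_lt (i := i + 1) (j := j) (by omega) (by omega)
      linarith
    have e2 : x = D.b j := le_antisymm (e1 ▸ a2') b1'
    have e3 : ((x, y) : ℝ × ℝ) = D.vtx j := by
      rw [vtx_bot D h.le, a3', e2]
    exact ⟨Or.inr (by rw [e1]; exact e3), Or.inl e3⟩
  · subst h
    rw [E_right] at h2
    rw [E_bot D hij] at h1
    obtain ⟨a1, a2, a3⟩ := h1
    obtain ⟨b1, b2, b3⟩ := h2
    have a2' : x ≤ D.b (i + 1) := a2
    have a3' : y = D.L x := a3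
    have b1' : x = D.b D.B := b1
    have e1 : i + 1 = D.B := by
      by_contra hne
      have := D.b_lt (i := i + 1) (j := D.B) (by omega) le_rfl
      linarith
    have e3 : ((x, y) : ℝ × ℝ) = D.vtx D.B := by
      rw [vtx_bot D le_rfl, a3', b1']
    exact ⟨Or.inr (by rw [e1]; exact e3), Or.inl e3⟩
  · obtain ⟨k, rfl⟩ : ∃ k, j = D.B + 1 + k := ⟨j - (D.B + 1), by omega⟩
    by_cases hk : k < D.T
    · rw [E_top D hk] at h2
      obtain ⟨b1, b2, b3⟩ := h2
      have b1' : D.c (k + 1) ≤ x := b1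
      have b2' : x ≤ D.c k := b2
      have b3' : y = D.U x := b3
      have hx1 := (D.c_mem (show k + 1 ≤ D.T by omega)).1
      have hx2 := (D.c_mem (show k ≤ D.T by omega)).2
      rcases lt_trichotomy i D.B with h' | h' | h'
      · rw [E_bot D h'] at h1
        obtain ⟨a1, a2, a3⟩ := h1
        have a3' : y = D.L x := a3
        have := D.hLU x (by linarith) (by linarith)
        linarith
      · subst h'
        rw [E_right] at h1
        obtain ⟨a1, a2, a3⟩ := h1
        have a1' : x = D.b D.B := a1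
        have hk0 : k = 0 := by
          by_contra hne
          have := D.c_lt (i := 0) (j := k) (by omega) (by omega)
          rw [D.h1] at this
          linarith
        subst hk0
        have e3 : ((x, y) : ℝ × ℝ) = D.vtx (D.B + 1) := by
          rw [show D.B + 1 = D.B + 1 + 0 from rfl, vtx_top, D.h1, b3', a1']
        exact ⟨Or.inr e3, Or.inl e3⟩
      · obtain ⟨l, rfl⟩ : ∃ l, i = D.B + 1 + l := ⟨i - (D.B + 1), by omega⟩
        rw [E_top D (by omega)] at h1
        obtain ⟨a1, a2, a3⟩ := h1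
        have a1' : D.c (l + 1) ≤ x := a1
        have e1 : l + 1 = k := by
          by_contra hne
          have := D.c_lt (i := l + 1) (j := k) (by omega) (by omega)
          linarith
        have e2 : x = D.c k := le_antisymm b2' (e1 ▸ a1')
        have e3 : ((x, y) : ℝ × ℝ) = D.vtx (D.B + 1 + k) := by
          rw [vtx_top, b3', e2]
        refine ⟨Or.inr ?_, Or.inl e3⟩
        rw [show D.B + 1 + l + 1 = D.B + 1 + (l + 1) from rfl, e1]
        exact e3
    · have hkT : k = D.T := by omega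
      subst hkT
      rw [E_left] at h2
      obtain ⟨b1, b2, b3⟩ := h2
      have b1' : x = D.b 0 := b1
      rw [if_neg (by omega)]
      rcases lt_trichotomy i D.B with h' | h' | h'
      · rw [E_bot D h'] at h1
        obtain ⟨a1, a2, a3⟩ := h1
        have a1' : D.b i ≤ x := a1
        have a3' : y = D.L x := a3
        have hi0 : i = 0 := by
          by_contra hne
          have := D.b_lt (i := 0) (j := i) (by omega) (by omega)
          linarith
        subst hi0
        have e3 : ((x, y) : ℝ × ℝ) = D.vtx 0 := by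
          rw [vtx_bot D (Nat.zero_le _), a3', b1']
        exact ⟨Or.inl e3, Or.inr e3⟩
      · subst h'
        rw [E_right] at h1
        obtain ⟨a1, a2, a3⟩ := h1
        have a1' : x = D.b D.B := a1
        have := D.b0_lt
        linarith
      · obtain ⟨l, rfl⟩ : ∃ l, i = D.B + 1 + l := ⟨i - (D.B + 1), by omega⟩
        rw [E_top D (by omega)] at h1
        obtain ⟨a1, a2, a3⟩ := h1
        have a1' : D.c (l + 1) ≤ x := a1
        have a3' : y = D.U x := a3
        have e1 : l + 1 = D.T := by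
          by_contra hne
          have := D.c_lt (i := l + 1) (j := D.T) (by omega) le_rfl
          rw [D.h0] at this
          linarith
        have e3 : ((x, y) : ℝ × ℝ) = D.vtx (D.B + 1 + D.T) := by
          rw [vtx_top, D.h0, a3', b1']
        refine ⟨Or.inr ?_, Or.inl e3⟩
        rw [show D.B + 1 + l + 1 = D.B + 1 + (l + 1) from rfl, e1]
        exact e3

theorem simple (i j : Fin D.num) (hij : i ≠ j) :
    edge D.v i ∩ edge D.v j ⊆
      {D.v i, D.v (finRotate D.num i)} ∩ {D.v j, D.v (finRotate D.num j)} := by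
  have key : ∀ i j : Fin D.num, i < j → edge D.v i ∩ edge D.v j ⊆
      {D.v i, D.v (finRotate D.num i)} ∩ {D.v j, D.v (finRotate D.num j)} := by
    rintro i j hlt z ⟨h1, h2⟩
    rw [edge_eq_E] at h1 h2
    obtain ⟨h3, h4⟩ := D.E_inter hlt j.2 h1 h2
    have e1 : D.v (finRotate D.num i) = D.vtx (i + 1) := by
      have := D.v_sc i
      rw [if_pos (by have := j.2; have : (i : ℕ) < j := hlt; omega)] at this
      exact this
    have e2 := D.v_sc j
    refine ⟨?_, ?_⟩
    · rw [e1]; exact h3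
    · show z = D.v j ∨ z = D.v (sc j)
      rw [e2]; exact h4
  rcases lt_or_gt_of_ne hij with h | h
  · exact key i j h
  · rw [inter_comm, inter_comm {D.v i, D.v (finRotate D.num i)}]
    exact key j i h

theorem boundary : frontier D.P = curve D.v := by
  unfold P
  rw [frontier_reg D.hL D.hU D.b0_lt D.hLU]
  have hn : D.num = D.B + D.T + 2 := rfl
  ext ⟨x, y⟩
  constructor
  · rintro ⟨⟨h1, h2, h3, h4⟩, h5⟩
    have h1' : D.b 0 ≤ x := h1
    have h2' : x ≤ D.b D.B := h2
    have h3' : D.L x ≤ y := h3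
    have h4' : y ≤ D.U x := h4
    have key : ∀ k (hk : k < D.num), ((x, y) : ℝ × ℝ) ∈ D.E k → ((x, y) : ℝ × ℝ) ∈ curve D.v := by
      intro k hk hm
      refine mem_iUnion.2 ⟨⟨k, hk⟩, ?_⟩
      rw [edge_eq_E]; exact hm
    rcases h5 with h5 | h5 | h5 | h5
    · have h5' : x = D.b 0 := h5
      apply key (D.B + 1 + D.T) (by omega)
      rw [E_left]
      refine ⟨h5', ?_, ?_⟩
      · rw [← h5']; exact h3'
      · rw [← h5']; exact h4'
    · have h5' : x = D.b D.B := h5
      apply key D.B (by omega)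
      rw [E_right]
      refine ⟨h5', ?_, ?_⟩
      · rw [← h5']; exact h3'
      · rw [← h5']; exact h4'
    · obtain ⟨k, hk, h6, h7⟩ := cover_inc D.hB h1' h2'
      apply key k (by omega)
      rw [E_bot D hk]
      exact ⟨h6, h7, h5⟩
    · obtain ⟨k, hk, h6, h7⟩ := cover_dec D.hT (c := D.c) (x := x) (by rw [D.h1]; exact h2')
        (by rw [D.h0]; exact h1')
      apply key (D.B + 1 + k) (by omega)
      rw [E_top D hk]
      exact ⟨h6, h7, h5⟩
  · intro h
    obtain ⟨⟨i, hi⟩, h⟩ := mem_iUnion.1 h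
    rw [edge_eq_E] at h
    have h' : ((x, y) : ℝ × ℝ) ∈ D.E i := h
    rcases lt_trichotomy i D.B with hlt | heq | hgt
    · rw [E_bot D hlt] at h'
      obtain ⟨h1, h2, h3⟩ := h'
      have h1' : D.b i ≤ x := h1
      have h2' : x ≤ D.b (i + 1) := h2
      have h3' : y = D.L x := h3
      have m1 := (D.b_mem hlt.le).1
      have m2 := (D.b_mem (show i + 1 ≤ D.B from hlt)).2
      have hlu := D.hLU x (by linarith) (by linarith)
      refine ⟨⟨by show D.b 0 ≤ x; linarith, by show x ≤ D.b D.B; linarith, ?_, ?_⟩,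
        Or.inr (Or.inr (Or.inl h3'))⟩
      · show D.L x ≤ y
        rw [h3']
      · show y ≤ D.U x
        rw [h3']; exact hlu.le
    · subst heq
      rw [E_right] at h'
      obtain ⟨h1, h2, h3⟩ := h'
      have h1' : x = D.b D.B := h1
      subst h1'
      exact ⟨⟨D.b0_lt.le, le_rfl, h2, h3⟩, Or.inr (Or.inl rfl)⟩
    · obtain ⟨k, rfl⟩ : ∃ k, i = D.B + 1 + k := ⟨i - (D.B + 1), by omega⟩
      by_cases hk : k < D.T
      · rw [E_top D hk] at h'
        obtain ⟨h1, h2, h3⟩ := h'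
        have h1' : D.c (k + 1) ≤ x := h1
        have h2' : x ≤ D.c k := h2
        have h3' : y = D.U x := h3
        have m1 := (D.c_mem (show k + 1 ≤ D.T from hk)).1
        have m2 := (D.c_mem hk.le).2
        have hlu := D.hLU x (by linarith) (by linarith)
        refine ⟨⟨by show D.b 0 ≤ x; linarith, by show x ≤ D.b D.B; linarith, ?_, ?_⟩,
          Or.inr (Or.inr (Or.inr h3'))⟩
        · show D.L x ≤ y
          rw [h3']; exact hlu.le
        · show y ≤ D.U x
          rw [h3']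
      · have hkT : k = D.T := by omega
        subst hkT
        rw [E_left] at h'
        obtain ⟨h1, h2, h3⟩ := h'
        have h1' : x = D.b 0 := h1
        subst h1'
        exact ⟨⟨le_rfl, D.b0_lt.le, h2, h3⟩, Or.inl rfl⟩

/-- the region between the two graphs is a simple polygon -/
theorem isSimplePolygon : IsSimplePolygon D.v D.P where
  three_le := by
    have := D.hB
    show 3 ≤ D.B + D.T + 2
    omega
  injective := D.injective
  simple := D.simple
  compact := reg_compact D.hL D.hU D.b0_lt D.hLU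
  regular := reg_regular D.hL D.hU D.b0_lt D.hLU
  boundary := D.boundary

end Dat

end Pool.Agent.KS6_47.VG
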