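import Pool.Agent.KS6_47.Vis.Cfg

/-!
# Small perturbations: general position
-/

set_option autoImplicit false

namespace Pool.Agent.KS6_47.VG

open Pool.Agent.KS6_47.Vis Set Filter Topology

/-- perturbed points -/
noncomputable def pert (w : ℕ → ℝ × ℝ) (ε : ℝ) (k : ℕ) : ℝ × ℝ :=
  ((w k).1, (w k).2 + ε ^ (k + 1))

theorem pert_cont (w : ℕ → ℝ × ℝ) (i j k : ℕ) :
    Continuous (fun ε => dt (pert w ε i) (pert w ε j) (pert w ε k)) := by
  unfold dt pert
  fun_prop

theorem pert_zero (w : ℕ → ℝ × ℝ) (k : ℕ) : pert w 0 k = w k := by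
  unfold pert
  simp

theorem pert_pos {w : ℕ → ℝ × ℝ} {i j k : ℕ} (h : 0 < dt (w i) (w j) (w k)) :
    ∀ᶠ ε in 𝓝[>] (0 : ℝ), 0 < dt (pert w ε i) (pert w ε j) (pert w ε k) := by
  apply nhdsWithin_le_nhds
  have h1 := (pert_cont w i j k).tendsto 0
  simp only [pert_zero] at h1
  exact h1.eventually_const_lt h

theorem pert_neg {w : ℕ → ℝ × ℝ} {i j k : ℕ} (h : dt (w i) (w j) (w k) < 0) :
    ∀ᶠ ε in 𝓝[>] (0 : ℝ), dt (pert w ε i) (pert w ε j) (pert w ε k) < 0 := by
  apply nhdsWithin_le_nhds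
  have h1 := (pert_cont w i j k).tendsto 0
  simp only [pert_zero] at h1
  exact h1.eventually_lt_const h

theorem pert_lt {w : ℕ → ℝ × ℝ} {k : ℕ} {h : ℝ} (hk : (w k).2 < h) :
    ∀ᶠ ε in 𝓝[>] (0 : ℝ), (pert w ε k).2 < h := by
  apply nhdsWithin_le_nhds
  have h1 : Continuous (fun ε => (pert w ε k).2) := by unfold pert; fun_prop
  have h2 := h1.tendsto 0
  simp only [pert_zero] at h2
  exact h2.eventually_lt_const hk

theorem pert_gt {w : ℕ → ℝ × ℝ} {k : ℕ} {h : ℝ} (hk : h < (w k).2) :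
    ∀ᶠ ε in 𝓝[>] (0 : ℝ), h < (pert w ε k).2 := by
  apply nhdsWithin_le_nhds
  have h1 : Continuous (fun ε => (pert w ε k).2) := by unfold pert; fun_prop
  have h2 := h1.tendsto 0
  simp only [pert_zero] at h2
  exact h2.eventually_const_lt hk

open Polynomial in
theorem pert_ne {w : ℕ → ℝ × ℝ} {i j k : ℕ} (hij : i ≠ j) (hjk : j ≠ k) (hik : i ≠ k)
    (h : ¬ ((w i).1 = (w j).1 ∧ (w j).1 = (w k).1)) :
    ∀ᶠ ε in 𝓝[>] (0 : ℝ), dt (pert w ε i) (pert w ε j) (pert w ε k) ≠ 0 := by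
  set P : ℝ[X] := C (dt (w i) (w j) (w k)) + C ((w j).1 - (w i).1) * X ^ (k + 1) -
    C ((w k).1 - (w i).1) * X ^ (j + 1) + C ((w k).1 - (w j).1) * X ^ (i + 1) with hP
  have heval : ∀ ε, P.eval ε = dt (pert w ε i) (pert w ε j) (pert w ε k) := by
    intro ε
    simp only [hP, eval_add, eval_sub, eval_mul, eval_C, eval_pow, eval_X]
    unfold dt pert
    ring
  have hP0 : P ≠ 0 := by
    intro h0
    apply h
    have c1 : P.coeff (k + 1) = (w j).1 - (w i).1 := by
      simp only [hP, coeff_add, coeff_sub, coeff_C_mul, coeff_X_pow, coeff_C]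
      simp only [if_true]
      rw [if_neg (by omega), if_neg (by omega), if_neg (by omega)]
      ring
    have c2 : P.coeff (i + 1) = (w k).1 - (w j).1 := by
      simp only [hP, coeff_add, coeff_sub, coeff_C_mul, coeff_X_pow, coeff_C]
      simp only [if_true]
      rw [if_neg (by omega), if_neg (by omega), if_neg (by omega)]
      ring
    rw [h0, coeff_zero] at c1 c2
    constructor <;> linarith
  have hfin : {x | P.IsRoot x}.Finite := finite_setOfPred_isRoot hP0
  have hfin' : ({x | P.IsRoot x} \ {0}).Finite := hfin.subset sdiff_subset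
  have hmem : ({x | P.IsRoot x} \ {0})ᶜ ∈ 𝓝 (0 : ℝ) :=
    hfin'.isClosed.isOpen_compl.mem_nhds (by simp)
  filter_upwards [nhdsWithin_le_nhds hmem, self_mem_nhdsWithin] with ε h1 h2 h3
  apply h1
  refine ⟨?_, ?_⟩
  · show P.eval ε = 0
    rw [heval, h3]
  · intro h4
    have h5 : ε = 0 := h4
    have h6 : 0 < ε := h2
    linarith

/-- a polygon in general position whose vertices are close to the given points -/
theorem exists_cfg (B T : ℕ) (w : ℕ → ℝ × ℝ) (h : ℝ) (hB : 0 < B) (hT : 0 < T)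
    (hp : ∀ k, k < B → (w k).1 < (w (k + 1)).1)
    (hq : ∀ k, B + 1 ≤ k → k < B + 1 + T → (w (k + 1)).1 < (w k).1)
    (h0 : (w 0).1 = (w (B + 1 + T)).1) (h1 : (w B).1 = (w (B + 1)).1)
    (sp : ∀ k, k ≤ B → (w k).2 < h) (sq : ∀ k, B + 1 ≤ k → k ≤ B + 1 + T → h < (w k).2) :
    ∃ C : Cfg, C.B = B ∧ C.T = T ∧ (∀ k, k ≤ B + 1 + T → (C.w k).1 = (w k).1) ∧
      (∀ i j k, i ≤ B + 1 + T → j ≤ B + 1 + T → k ≤ B + 1 + T → 0 < dt (w i) (w j) (w k) →
        0 < dt (C.w i) (C.w j) (C.w k)) ∧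
      (∀ i j k, i ≤ B + 1 + T → j ≤ B + 1 + T → k ≤ B + 1 + T → dt (w i) (w j) (w k) < 0 →
        dt (C.w i) (C.w j) (C.w k) < 0) ∧
      (∀ i j k, i ≤ B + 1 + T → j ≤ B + 1 + T → k ≤ B + 1 + T → i ≠ j → j ≠ k → i ≠ k →
        dt (C.w i) (C.w j) (C.w k) ≠ 0) := by
  have hbot : ∀ i j, i < j → j ≤ B → (w i).1 < (w j).1 := by
    intro i j hij hj
    induction j, hij using Nat.le_induction with
    | base => exact hp i hj
    | succ j hij ih => exact (ih (by omega)).trans (hp j (by omega))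
  have htop : ∀ i j, B + 1 ≤ i → i < j → j ≤ B + 1 + T → (w j).1 < (w i).1 := by
    intro i j hi hij hj
    induction j, hij using Nat.le_induction with
    | base => exact hq i hi (by omega)
    | succ j hij ih => exact (hq j (by omega) (by omega)).trans (ih (by omega))
  have hne : ∀ i j, i ≤ B + 1 + T → j ≤ B + 1 + T → i ≠ j → ((i ≤ B ∧ j ≤ B) ∨ (B < i ∧ B < j)) →
      (w i).1 ≠ (w j).1 := by
    intro i j hi hj hij hc
    rcases lt_or_gt_of_ne hij with h2 | h2
    · rcases hc with hc | hc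
      · exact (hbot i j h2 hc.2).ne
      · exact (htop i j (by omega) h2 hj).ne'
    · rcases hc with hc | hc
      · exact (hbot j i h2 hc.1).ne'
      · exact (htop j i (by omega) h2 hi).ne
  have e1 : ∀ᶠ ε in 𝓝[>] (0 : ℝ), ∀ i j k : Fin (B + 1 + T + 1), 0 < dt (w i) (w j) (w k) →
      0 < dt (pert w ε i) (pert w ε j) (pert w ε k) := by
    simp only [eventually_all]
    intro i j k hd
    exact pert_pos hd
  have e2 : ∀ᶠ ε in 𝓝[>] (0 : ℝ), ∀ i j k : Fin (B + 1 + T + 1), dt (w i) (w j) (w k) < 0 →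
      dt (pert w ε i) (pert w ε j) (pert w ε k) < 0 := by
    simp only [eventually_all]
    intro i j k hd
    exact pert_neg hd
  have e3 : ∀ᶠ ε in 𝓝[>] (0 : ℝ), ∀ i j k : Fin (B + 1 + T + 1), (i : ℕ) ≠ j → (j : ℕ) ≠ k →
      (i : ℕ) ≠ k → dt (pert w ε i) (pert w ε j) (pert w ε k) ≠ 0 := by
    simp only [eventually_all]
    intro i j k hij hjk hik
    apply pert_ne hij hjk hik
    rintro ⟨a, b⟩
    have hi := i.2
    have hj := j.2
    have hk := k.2
    rcases Nat.lt_or_ge B i with b1 | b1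
    · rcases Nat.lt_or_ge B j with b2 | b2
      · exact hne i j (by omega) (by omega) hij (Or.inr ⟨b1, b2⟩) a
      · rcases Nat.lt_or_ge B k with b3 | b3
        · exact hne i k (by omega) (by omega) hik (Or.inr ⟨b1, b3⟩) (a.trans b)
        · exact hne j k (by omega) (by omega) hjk (Or.inl ⟨b2, b3⟩) b
    · rcases Nat.lt_or_ge B j with b2 | b2
      · rcases Nat.lt_or_ge B k with b3 | b3
        · exact hne j k (by omega) (by omega) hjk (Or.inr ⟨b2, b3⟩) b
        · exact hne i k (by omega) (by omega) hik (Or.inl ⟨b1, b3⟩) (a.trans b)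
      · exact hne i j (by omega) (by omega) hij (Or.inl ⟨b1, b2⟩) a
  have e4 : ∀ᶠ ε in 𝓝[>] (0 : ℝ), ∀ i : Fin (B + 1 + T + 1), (i : ℕ) ≤ B →
      (pert w ε i).2 < h := by
    simp only [eventually_all]
    intro i hi
    exact pert_lt (sp i hi)
  have e5 : ∀ᶠ ε in 𝓝[>] (0 : ℝ), ∀ i : Fin (B + 1 + T + 1), B + 1 ≤ (i : ℕ) →
      h < (pert w ε i).2 := by
    simp only [eventually_all]
    intro i hi
    exact pert_gt (sq i hi (by have := i.2; omega))
  obtain ⟨ε, f1, f2, f3, f4, f5⟩ := (e1.and (e2.and (e3.and (e4.and e5)))).exists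
  let C : Cfg := {
    B := B
    T := T
    p := pert w ε
    q := fun k => pert w ε (B + 1 + T - k)
    h := h
    hB := hB
    hT := hT
    hp := fun k hk => hp k hk
    hq := by
      intro k hk
      have h2 := hq (B + 1 + T - (k + 1)) (by omega) (by omega)
      rw [show B + 1 + T - (k + 1) + 1 = B + 1 + T - k by omega] at h2
      exact h2
    h0 := h0
    h1 := by
      show (w B).1 = (w (B + 1 + T - T)).1
      rw [show B + 1 + T - T = B + 1 by omega, h1]
    sp := fun k hk => f4 ⟨k, by omega⟩ hk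
    sq := fun k hk => f5 ⟨B + 1 + T - k, by omega⟩ (by simp only; omega) }
  have hw : ∀ k, k ≤ B + 1 + T → C.w k = pert w ε k := by
    intro k hk
    show (if k ≤ B then pert w ε k else pert w ε (B + 1 + T - (B + 1 + T - k))) = pert w ε k
    split_ifs
    · rfl
    · congr 1; omega
  refine ⟨C, rfl, rfl, ?_, ?_, ?_, ?_⟩
  · intro k hk
    rw [hw k hk]; rfl
  · intro i j k hi hj hk hd
    rw [hw i hi, hw j hj, hw k hk]
    exact f1 ⟨i, by omega⟩ ⟨j, by omega⟩ ⟨k, by omega⟩ hd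
  · intro i j k hi hj hk hd
    rw [hw i hi, hw j hj, hw k hk]
    exact f2 ⟨i, by omega⟩ ⟨j, by omega⟩ ⟨k, by omega⟩ hd
  · intro i j k hi hj hk a b c
    rw [hw i hi, hw j hj, hw k hk]
    exact f3 ⟨i, by omega⟩ ⟨j, by omega⟩ ⟨k, by omega⟩ a b c

end Pool.Agent.KS6_47.VG
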