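import Mathlib

set_option autoImplicit false

/-!
Project DSN (MP_ac1f36_co, frozen S10738): not every Davenport-Schinzel word of order 3 is the
lower-envelope sequence of segments.  Statements of the parts.
-/

namespace Pool.Agent.KS6_47.W599.DSN

open MvPolynomial

/-! ### Part W: a strong Warren bound for quadratic polynomials -/

/-- Generic small right hand sides: more than `V` of the hypersurfaces `± F o = e o` in `V`-space
have no common point. -/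
def GEN : Prop := ∀ (V : ℕ) (κ : Type) [Fintype κ] [DecidableEq κ]
  (F : κ → MvPolynomial (Fin V) ℝ) (e0 : ℝ), 0 < e0 →
  ∃ e : κ → ℝ, (∀ o, 0 < e o ∧ e o < e0) ∧
    ∀ (s : κ → ℝ), (∀ o, s o = 1 ∨ s o = -1) → ∀ S : Finset κ, V < S.card →
      ¬ ∃ z : Fin V → ℝ, ∀ o ∈ S, s o * eval z (F o) = e o

/-- For a fixed set `S` of active constraints (maximal for every member) and fixed signs on `S`
there are at most `5 ^ V` cells. -/
def FIB : Prop := ∀ (V : ℕ) (κ : Type) [Fintype κ] [DecidableEq κ]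
  (F : κ → MvPolynomial (Fin V) ℝ) (e : κ → ℝ) (o0 : κ) (R : ℝ),
  (∀ o, (F o).totalDegree ≤ 2) → (∀ o, 0 < e o) → F o0 = C R - ∑ j, X j ^ 2 →
  ∀ (S : Finset κ) (τ : κ → ℝ) (P : Finset (κ → ℝ)),
    (∀ s ∈ P, (∀ o, s o = 1 ∨ s o = -1) ∧ s o0 = 1 ∧ (∀ o ∈ S, s o = τ o) ∧
      (∃ z : Fin V → ℝ, (∀ o, e o ≤ s o * eval z (F o)) ∧ ∀ o ∈ S, s o * eval z (F o) = e o) ∧
      (∀ o₁, o₁ ∉ S → ¬ ∃ z : Fin V → ℝ, (∀ o, e o ≤ s o * eval z (F o)) ∧
        (∀ o ∈ S, s o * eval z (F o) = e o) ∧ s o₁ * eval z (F o₁) = e o₁)) →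
    P.card ≤ 5 ^ V

/-- Strong Warren bound for quadratic polynomials (strict sign vectors). -/
def WAR : Prop := ∀ (V : ℕ) (κ : Type) [Fintype κ] [DecidableEq κ]
  (f : κ → MvPolynomial (Fin V) ℝ), (∀ o, (f o).totalDegree ≤ 2) →
  ∀ (P : Finset (κ → ℝ)),
    (∀ s ∈ P, (∀ o, s o = 1 ∨ s o = -1) ∧ ∃ z : Fin V → ℝ, ∀ o, 0 < s o * eval z (f o)) →
    P.card ≤ (∑ k ∈ Finset.range (V + 1), (Fintype.card κ + 1).choose k * 2 ^ k) * 5 ^ V

/-- `8 V` quadratic polynomials in `V` variables do not have all sign patterns. -/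
def NOSH : Prop := ∀ (V : ℕ) (κ : Type) [Fintype κ] [DecidableEq κ]
  (f : κ → MvPolynomial (Fin V) ℝ), 0 < V → 8 * V ≤ Fintype.card κ →
  (∀ o, (f o).totalDegree ≤ 2) →
  ¬ ∃ pt : Finset κ → (Fin V → ℝ), ∀ (D : Finset κ) (o : κ),
    (o ∈ D → 0 ≤ eval (pt D) (f o)) ∧ (o ∉ D → eval (pt D) (f o) < 0)

/-! ### Part G: geometry of the envelopes -/

/-- no equal neighbours -/
def Adj {m n : ℕ} (w : Fin m → Fin n) : Prop :=
  ∀ i j : Fin m, i.val + 1 = j.val → w i ≠ w j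

/-- no pattern `p q p q p` -/
def Free {m n : ℕ} (w : Fin m → Fin n) : Prop :=
  ¬ ∃ (p q : Fin n) (i₁ i₂ i₃ i₄ i₅ : Fin m), p ≠ q ∧ i₁ < i₂ ∧ i₂ < i₃ ∧ i₃ < i₄ ∧
    i₄ < i₅ ∧ w i₁ = p ∧ w i₂ = q ∧ w i₃ = p ∧ w i₄ = q ∧ w i₅ = p

/-- the segments `a j * x + b j` on `[l j, r j]` have lower-envelope sequence `w`, breakpoints `t` -/
def Rz {m n : ℕ} (w : Fin m → Fin n) (a b l r : Fin n → ℝ) (t : Fin (m + 1) → ℝ) : Prop :=
  StrictMono t ∧ (∀ i, l i < r i) ∧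
    (∀ i x, l i ≤ x → x ≤ r i → t 0 ≤ x ∧ x ≤ t (Fin.last m)) ∧
    (∀ k : Fin m, ∃ x, t k.castSucc < x ∧ x < t k.succ ∧ l (w k) ≤ x ∧ x ≤ r (w k)) ∧
    (∀ k : Fin m, ∀ x, t k.castSucc < x → x < t k.succ → ∀ j, l j ≤ x → x ≤ r j →
      (l (w k) ≤ x ∧ x ≤ r (w k) ∧
        (j ≠ w k → a (w k) * x + b (w k) < a j * x + b j)))

/-- the statement `S10737` -/
def MainS : Prop := ∀ (n m : ℕ) (w : Fin m → Fin n), 0 < m → Adj w → Free w →
  ∃ (a b l r : Fin n → ℝ) (t : Fin (m + 1) → ℝ), Rz w a b l r t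

/-- the quadratic form that decides whether line `z` passes below the crossing of `p` and `q` -/
def qf {n : ℕ} (a b : Fin n → ℝ) (p z q : Fin n) : ℝ :=
  (a z - a p) * (b q - b p) + (b z - b p) * (a p - a q)

/-- `p q` consecutive, all of `p, q, z` active: `z` is above the crossing point. -/
def GEOA : Prop := ∀ (m n : ℕ) (w : Fin m → Fin n) (a b l r : Fin n → ℝ)
  (t : Fin (m + 1) → ℝ), Rz w a b l r t →
  ∀ (p q z : Fin n) (k k' : Fin m), k.val + 1 = k'.val → w k = p → w k' = q →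
    p ≠ q → z ≠ p → z ≠ q →
    (∃ i, i < k ∧ w i = q) → (∃ i, k' < i ∧ w i = p) →
    (∃ i, i < k ∧ w i = z) → (∃ i, k' < i ∧ w i = z) →
    0 ≤ qf a b p z q

/-- `p z q` consecutive, all of `p, q, z` active: `z` is below the crossing point of `p, q`. -/
def GEOP : Prop := ∀ (m n : ℕ) (w : Fin m → Fin n) (a b l r : Fin n → ℝ)
  (t : Fin (m + 1) → ℝ), Rz w a b l r t →
  ∀ (p q z : Fin n) (k k' k'' : Fin m), k.val + 1 = k'.val → k'.val + 1 = k''.val →
    w k = p → w k' = z → w k'' = q → p ≠ q → z ≠ p → z ≠ q →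
    (∃ i, i < k ∧ w i = q) → (∃ i, k'' < i ∧ w i = p) →
    (∃ i, i < k ∧ w i = z) → (∃ i, k'' < i ∧ w i = z) →
    qf a b p z q < 0

/-- neither the first nor the last occurrence of its letter -/
def Mid {m n : ℕ} (w : Fin m → Fin n) (p : Fin m) : Prop :=
  (∃ i, i < p ∧ w i = w p) ∧ (∃ i, p < i ∧ w i = w p)

/-- `p, e, q` are consecutive positions, all of them middle occurrences -/
def Good {m n : ℕ} (w : Fin m → Fin n) (p e q : Fin m) : Prop :=
  p.val + 1 = e.val ∧ e.val + 1 = q.val ∧ Mid w p ∧ Mid w e ∧ Mid w q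

/-- Deleting any subset `D` of `E` leaves a word; a realisation of it gives the signs. -/
def DEL : Prop := ∀ (m n : ℕ) (w : Fin m → Fin n), Adj w → Free w → MainS →
  ∀ (E : Finset (Fin m)), (∀ e ∈ E, ∃ p q, Good w p e q) →
    (∀ e ∈ E, ∀ e' ∈ E, e.val + 1 ≠ e'.val) →
    ∀ D : Finset (Fin m), D ⊆ E → ∃ a b : Fin n → ℝ, ∀ e ∈ E, ∀ p q, Good w p e q →
      (e ∈ D → 0 ≤ qf a b (w p) (w e) (w q)) ∧ (e ∉ D → qf a b (w p) (w e) (w q) < 0)

/-- Selection of the deletable positions. -/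
def SEL : Prop := ∀ (m n : ℕ) (w : Fin m → Fin n), 38 * n ≤ m →
  ∃ E : Finset (Fin m), 16 * n ≤ E.card ∧ (∀ e ∈ E, ∃ p q, Good w p e q) ∧
    (∀ e ∈ E, ∀ e' ∈ E, e.val + 1 ≠ e'.val)

/-! ### Part S: superlinear words -/

/-- Superlinear Davenport-Schinzel words of order 3. -/
def SUPER : Prop := ∀ K : ℕ, ∃ (n m : ℕ) (w : Fin m → Fin n), 0 < n ∧ K * n ≤ m ∧ Adj w ∧ Free w

/-- A fan word: a list of single letters (`inl`) and of fans (`inr`, a list of letters). -/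
abbrev FW (A : Type) := List (A ⊕ List A)

/-- the underlying word -/
def ex {A : Type} : FW A → List A
  | [] => []
  | Sum.inl a :: T => a :: ex T
  | Sum.inr v :: T => v ++ ex T

/-- the number of fans -/
def nf {A : Type} : FW A → ℕ
  | [] => 0
  | Sum.inl _ :: T => nf T
  | Sum.inr _ :: T => nf T + 1

/-- every fan has length `m` -/
def FanLen {A : Type} (m : ℕ) (T : FW A) : Prop := ∀ v, Sum.inr v ∈ T → v.length = m

/-- every letter occurs in a fan -/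
def InFan {A : Type} (T : FW A) : Prop := ∀ a ∈ ex T, ∃ v, Sum.inr v ∈ T ∧ a ∈ v

/-- a fan has no repeated letters, and it consists of first occurrences -/
def First {A : Type} (T : FW A) : Prop := ∀ T₁ v T₂, T = T₁ ++ Sum.inr v :: T₂ →
  v.Nodup ∧ ∀ a ∈ v, a ∉ ex T₁

/-- no equal neighbours -/
def AdjL {A : Type} (u : List A) : Prop := u.IsChain (· ≠ ·)

/-- no pattern `a b a b a` -/
def FreeL {A : Type} (u : List A) : Prop := ∀ a b : A, a ≠ b → ¬ List.Sublist [a, b, a, b, a] u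

/-- the good fan words with fans of length `m` -/
def Ok {A : Type} (m : ℕ) (T : FW A) : Prop :=
  FanLen m T ∧ InFan T ∧ First T ∧ AdjL (ex T) ∧ FreeL (ex T)

/-- The copy of `T` (letters renamed by `g`) in which the letters of `xs` are appended to the
successive fans, each followed by a repetition of the last letter of the fan. -/
def sub1 {X Y A : Type} (g : Y → A) (h : X → A) : List X → FW Y → FW A
  | _, [] => []
  | xs, Sum.inl y :: T => Sum.inl (g y) :: sub1 g h xs T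
  | [], Sum.inr v :: T => Sum.inr (v.map g) :: sub1 g h [] T
  | x :: xs, Sum.inr v :: T =>
      Sum.inr (v.map g ++ [h x]) :: ((v.getLast?.toList.map (fun y => Sum.inl (g y))) ++
        sub1 g h xs T)

/-- Substitute, for every fan `v` of the first word, the copy of `T₂` with tag `v` and with the
letters of `v` appended to its fans. -/
def sub {X Y : Type} (T₂ : FW Y) : FW X → FW (X ⊕ (List X × Y))
  | [] => []
  | Sum.inl x :: T => Sum.inl (Sum.inl x) :: sub T₂ T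
  | Sum.inr v :: T => sub1 (fun y => Sum.inr (v, y)) Sum.inl v T₂ ++ sub T₂ T

/-- counts -/
def STL : Prop := ∀ (X Y : Type) (m : ℕ) (T₁ : FW X) (T₂ : FW Y), 1 ≤ m →
  FanLen (nf T₂) T₁ → InFan T₁ → FanLen m T₂ → InFan T₂ →
  FanLen (m + 1) (sub T₂ T₁) ∧ InFan (sub T₂ T₁) ∧ nf (sub T₂ T₁) = nf T₁ * nf T₂ ∧
    (ex (sub T₂ T₁)).length =
      nf T₁ * (ex T₂).length + nf T₁ * nf T₂ + (ex T₁).length

/-- first occurrences -/
def STF : Prop := ∀ (X Y : Type) (m : ℕ) (T₁ : FW X) (T₂ : FW Y), 1 ≤ m →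
  Ok (nf T₂) T₁ → Ok m T₂ → 0 < nf T₂ → First (sub T₂ T₁)

/-- neighbours -/
def STA : Prop := ∀ (X Y : Type) (m : ℕ) (T₁ : FW X) (T₂ : FW Y), 1 ≤ m →
  Ok (nf T₂) T₁ → Ok m T₂ → 0 < nf T₂ → AdjL (ex (sub T₂ T₁))

/-- no `a b a b a` -/
def STR : Prop := ∀ (X Y : Type) (m : ℕ) (T₁ : FW X) (T₂ : FW Y), 1 ≤ m →
  Ok (nf T₂) T₁ → Ok m T₂ → 0 < nf T₂ → FreeL (ex (sub T₂ T₁))

end Pool.Agent.KS6_47.W599.DSN
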